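import Mathlib
import Pool.Agent.Helper22.GC.Reson

/-!
# Trigonometric polynomials on the integers and their mean values
-/

open Set Filter
open scoped Real ComplexConjugate Topology

namespace Pool.Agent.Helper78.GC

open Pool.Agent.Helper22.GC (ee ee_add ee_zero ee_int norm_ee conj_ee)

noncomputable section

/-- Pairs `(M, H)` with `H → ∞`, uniformly in `M`. -/
def Gf : Filter (ℕ × ℕ) := comap Prod.snd atTop

instance Gf_neBot : (Gf).NeBot := by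
  unfold Gf
  exact comap_neBot_iff_compl_range.mpr (by simp [Prod.snd_surjective.range_eq])

lemma tendsto_snd_Gf : Tendsto (Prod.snd : ℕ × ℕ → ℕ) Gf atTop := tendsto_comap

lemma eventually_one_le : ∀ᶠ p in Gf, 1 ≤ p.2 :=
  tendsto_snd_Gf.eventually (eventually_ge_atTop 1)

/-- The mean of a complex sequence over the segment `(M, M + H]`. -/
def mn (u : ℕ → ℂ) (p : ℕ × ℕ) : ℂ := (1 / (p.2 : ℂ)) * ∑ n ∈ Finset.Ioc p.1 (p.1 + p.2), u n

/-- The mean of a real sequence over the segment `(M, M + H]`. -/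
def mr (f : ℕ → ℝ) (p : ℕ × ℕ) : ℝ := (1 / (p.2 : ℝ)) * ∑ n ∈ Finset.Ioc p.1 (p.1 + p.2), f n

lemma mn_ofReal (f : ℕ → ℝ) (p : ℕ × ℕ) : mn (fun n => (f n : ℂ)) p = ((mr f p : ℝ) : ℂ) := by
  simp [mn, mr]

lemma mn_add (u v : ℕ → ℂ) (p : ℕ × ℕ) : mn (u + v) p = mn u p + mn v p := by
  simp [mn, Finset.sum_add_distrib, mul_add]

lemma mn_smul (a : ℂ) (u : ℕ → ℂ) (p : ℕ × ℕ) : mn (a • u) p = a * mn u p := by
  simp only [mn, Pi.smul_apply, smul_eq_mul, ← Finset.mul_sum]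
  ring

lemma mr_add (f g : ℕ → ℝ) (p : ℕ × ℕ) : mr (fun n => f n + g n) p = mr f p + mr g p := by
  simp [mr, Finset.sum_add_distrib, mul_add]

lemma mr_sub (f g : ℕ → ℝ) (p : ℕ × ℕ) : mr (fun n => f n - g n) p = mr f p - mr g p := by
  simp [mr, Finset.sum_sub_distrib, mul_sub]

lemma mr_const_mul (a : ℝ) (f : ℕ → ℝ) (p : ℕ × ℕ) : mr (fun n => a * f n) p = a * mr f p := by
  simp only [mr, ← Finset.mul_sum]
  ring

lemma mr_sum {ι : Type*} (S : Finset ι) (f : ι → ℕ → ℝ) (p : ℕ × ℕ) :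
    mr (fun n => ∑ i ∈ S, f i n) p = ∑ i ∈ S, mr (f i) p := by
  simp only [mr]
  rw [Finset.sum_comm, Finset.mul_sum]

lemma mr_mono {f g : ℕ → ℝ} {p : ℕ × ℕ} (h : ∀ n ∈ Finset.Ioc p.1 (p.1 + p.2), f n ≤ g n) :
    mr f p ≤ mr g p :=
  mul_le_mul_of_nonneg_left (Finset.sum_le_sum h) (by positivity)

lemma mr_nonneg {f : ℕ → ℝ} {p : ℕ × ℕ} (h : ∀ n ∈ Finset.Ioc p.1 (p.1 + p.2), 0 ≤ f n) :
    0 ≤ mr f p :=
  mul_nonneg (by positivity) (Finset.sum_nonneg h)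

lemma mr_const {p : ℕ × ℕ} (hp : 1 ≤ p.2) (c : ℝ) : mr (fun _ => c) p = c := by
  have : (p.2 : ℝ) ≠ 0 := by
    have : 0 < p.2 := hp
    positivity
  rw [mr, Finset.sum_const, Nat.card_Ioc, nsmul_eq_mul, add_tsub_cancel_left]
  field_simp

lemma mr_le_const {f : ℕ → ℝ} {p : ℕ × ℕ} (hp : 1 ≤ p.2) {c : ℝ}
    (h : ∀ n ∈ Finset.Ioc p.1 (p.1 + p.2), f n ≤ c) : mr f p ≤ c := by
  rw [← mr_const hp c]
  exact mr_mono h

lemma abs_mr_le (f : ℕ → ℝ) (p : ℕ × ℕ) : |mr f p| ≤ mr (fun n => |f n|) p := by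
  rw [mr, abs_mul, abs_of_nonneg (by positivity : (0 : ℝ) ≤ 1 / p.2)]
  exact mul_le_mul_of_nonneg_left (Finset.abs_sum_le_sum_abs _ _) (by positivity)

/-- The character `n ↦ e(n θ)`. -/
def ch (θ : ℝ) : ℕ → ℂ := fun n => ee (n * θ)

lemma ch_mul (a b : ℝ) : ch a * ch b = ch (a + b) := by
  funext n
  simp only [ch, Pi.mul_apply, ← ee_add]
  congr 1; ring

lemma ch_zero : ch 0 = 1 := by
  funext n
  simp [ch, ee_zero]

lemma conj_ch (a : ℝ) (n : ℕ) : conj (ch a n) = ch (-a) n := by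
  simp only [ch, conj_ee]
  congr 1; ring

open Classical in
lemma tendsto_mn_ch (θ : ℝ) :
    Tendsto (mn (ch θ)) Gf (𝓝 (if ∃ m : ℤ, θ = m then 1 else 0)) := by
  split_ifs with h
  · obtain ⟨m, rfl⟩ := h
    have h1 : ch (m : ℝ) = 1 := by
      funext n
      have : (n : ℝ) * (m : ℝ) = ((n * m : ℤ) : ℝ) := by push_cast; ring
      rw [ch, this, ee_int]; rfl
    refine tendsto_const_nhds.congr' ?_
    filter_upwards [eventually_one_le] with p hp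
    have hp' : (p.2 : ℂ) ≠ 0 := by exact_mod_cast (by omega : p.2 ≠ 0)
    rw [mn, h1]
    simp only [Pi.one_apply, Finset.sum_const, Nat.card_Ioc, add_tsub_cancel_left, nsmul_eq_mul,
      mul_one]
    field_simp
  · have hne : ee θ ≠ 1 := by
      intro h1
      apply h
      rw [ee, Complex.exp_eq_one_iff] at h1
      obtain ⟨m, hm⟩ := h1
      refine ⟨m, ?_⟩
      have h2 : (2 * π * Complex.I : ℂ) ≠ 0 := Complex.two_pi_I_ne_zero
      have h3 : ((θ : ℝ) : ℂ) = ((m : ℝ) : ℂ) := by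
        have : (2 * π * Complex.I : ℂ) * ((θ : ℝ) : ℂ) = (2 * π * Complex.I : ℂ) * m := by
          rw [hm]; ring
        have := mul_left_cancel₀ h2 this
        rw [this]; push_cast; rfl
      exact_mod_cast h3
    have hp : ∀ i : ℕ, ee θ ^ i = ee (i * θ) := by
      intro i
      induction i with
      | zero => simp [ee_zero]
      | succ i ih =>
        rw [pow_succ, ih, ← ee_add]
        congr 1; push_cast; ring
    have hgeo : ∀ M H : ℕ, ∑ n ∈ Finset.Ioc M (M + H), ch θ n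
        = ee ((M + 1) * θ) * ((ee θ ^ H - 1) / (ee θ - 1)) := by
      intro M H
      have hI : Finset.Ioc M (M + H) = Finset.Ico (M + 1) (M + 1 + H) := by
        ext n; rw [Finset.mem_Ioc, Finset.mem_Ico]; omega
      rw [hI, Finset.sum_Ico_eq_sum_range, ← geom_sum_eq hne, Finset.mul_sum]
      have : M + 1 + H - (M + 1) = H := by omega
      rw [this]
      refine Finset.sum_congr rfl fun i _ => ?_
      rw [hp, ← ee_add, ch]
      congr 1; push_cast; ring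
    have hb : ∀ p : ℕ × ℕ, ‖mn (ch θ) p‖ ≤ (2 / ‖ee θ - 1‖) * (1 / (p.2 : ℝ)) := by
      intro p
      rw [mn, hgeo, norm_mul, norm_mul, norm_ee, one_mul, norm_div, norm_div, norm_one,
        Complex.norm_natCast, mul_comm]
      refine mul_le_mul_of_nonneg_right ?_ (by positivity)
      refine div_le_div_of_nonneg_right ?_ (norm_nonneg _)
      refine (norm_sub_le _ _).trans ?_
      rw [norm_pow, norm_ee, one_pow, norm_one]
      norm_num
    have h0 : Tendsto (fun p : ℕ × ℕ => (2 / ‖ee θ - 1‖) * (1 / (p.2 : ℝ))) Gf (𝓝 0) := by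
      have := (tendsto_one_div_atTop_nhds_zero_nat (𝕜 := ℝ)).comp tendsto_snd_Gf
      have h2 := this.const_mul (2 / ‖ee θ - 1‖)
      rwa [mul_zero] at h2
    exact squeeze_zero_norm hb h0

/-- Trigonometric polynomials with frequencies in `Θ`. -/
def TP (Θ : AddSubgroup ℝ) : Subalgebra ℂ (ℕ → ℂ) :=
  Submodule.toSubalgebra (Submodule.span ℂ (ch '' (Θ : Set ℝ)))
    (by
      rw [← ch_zero]
      exact Submodule.subset_span ⟨0, Θ.zero_mem, rfl⟩)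
    (by
      intro u v hu hv
      induction hu using Submodule.span_induction with
      | mem u hu =>
        obtain ⟨a, ha, rfl⟩ := hu
        induction hv using Submodule.span_induction with
        | mem v hv =>
          obtain ⟨b, hb, rfl⟩ := hv
          rw [ch_mul]
          exact Submodule.subset_span ⟨a + b, Θ.add_mem ha hb, rfl⟩
        | zero => rw [mul_zero]; exact Submodule.zero_mem _
        | add x y _ _ hx hy => rw [mul_add]; exact Submodule.add_mem _ hx hy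
        | smul c x _ hx => rw [mul_smul_comm]; exact Submodule.smul_mem _ c hx
      | zero => rw [zero_mul]; exact Submodule.zero_mem _
      | add x y _ _ hx hy => rw [add_mul]; exact Submodule.add_mem _ hx hy
      | smul c x _ hx => rw [smul_mul_assoc]; exact Submodule.smul_mem _ c hx)

lemma mem_TP_iff {Θ : AddSubgroup ℝ} {u : ℕ → ℂ} :
    u ∈ TP Θ ↔ u ∈ Submodule.span ℂ (ch '' (Θ : Set ℝ)) := Iff.rfl

lemma ch_mem {Θ : AddSubgroup ℝ} {θ : ℝ} (h : θ ∈ Θ) : ch θ ∈ TP Θ :=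
  Submodule.subset_span ⟨θ, h, rfl⟩

lemma TP_mono {Θ Θ' : AddSubgroup ℝ} (h : Θ ≤ Θ') : TP Θ ≤ TP Θ' :=
  fun _ hu => Submodule.span_mono (image_mono h) hu

lemma TP_induction {Θ : AddSubgroup ℝ} {p : (ℕ → ℂ) → Prop} (hch : ∀ θ ∈ Θ, p (ch θ))
    (h0 : p 0) (hadd : ∀ u v, p u → p v → p (u + v)) (hsmul : ∀ (c : ℂ) u, p u → p (c • u))
    {u : ℕ → ℂ} (hu : u ∈ TP Θ) : p u := by
  rw [mem_TP_iff] at hu
  induction hu using Submodule.span_induction with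
  | mem u hu => obtain ⟨a, ha, rfl⟩ := hu; exact hch a ha
  | zero => exact h0
  | add x y _ _ hx hy => exact hadd x y hx hy
  | smul c x _ hx => exact hsmul c x hx

lemma exists_mean {Θ : AddSubgroup ℝ} {u : ℕ → ℂ} (hu : u ∈ TP Θ) :
    ∃ a, Tendsto (mn u) Gf (𝓝 a) := by
  refine TP_induction (p := fun u => ∃ a, Tendsto (mn u) Gf (𝓝 a)) ?_ ?_ ?_ ?_ hu
  · intro θ _
    exact ⟨_, tendsto_mn_ch θ⟩
  · refine ⟨0, ?_⟩
    have : mn 0 = fun _ => 0 := by funext p; simp [mn]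
    rw [this]
    exact tendsto_const_nhds
  · rintro u v ⟨a, ha⟩ ⟨b, hb⟩
    refine ⟨a + b, (ha.add hb).congr fun p => (mn_add u v p).symm⟩
  · rintro c u ⟨a, ha⟩
    exact ⟨c * a, (ha.const_mul c).congr fun p => (mn_smul c u p).symm⟩

/-- The mean value of a sequence. -/
def Lc (u : ℕ → ℂ) : ℂ := limUnder Gf (mn u)

lemma tendsto_Lc {Θ : AddSubgroup ℝ} {u : ℕ → ℂ} (hu : u ∈ TP Θ) : Tendsto (mn u) Gf (𝓝 (Lc u)) :=
  tendsto_nhds_limUnder (exists_mean hu)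

lemma Lc_eq {u : ℕ → ℂ} {a : ℂ} (h : Tendsto (mn u) Gf (𝓝 a)) : Lc u = a := h.limUnder_eq

open Classical in
lemma Lc_ch (θ : ℝ) : Lc (ch θ) = if ∃ m : ℤ, θ = m then 1 else 0 := Lc_eq (tendsto_mn_ch θ)

lemma Lc_zero : Lc 0 = 0 := by
  refine Lc_eq ?_
  have : mn 0 = fun _ => 0 := by funext p; simp [mn]
  rw [this]
  exact tendsto_const_nhds

lemma Lc_add {Θ : AddSubgroup ℝ} {u v : ℕ → ℂ} (hu : u ∈ TP Θ) (hv : v ∈ TP Θ) :
    Lc (u + v) = Lc u + Lc v :=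
  Lc_eq (((tendsto_Lc hu).add (tendsto_Lc hv)).congr fun p => (mn_add u v p).symm)

lemma Lc_smul {Θ : AddSubgroup ℝ} {u : ℕ → ℂ} (c : ℂ) (hu : u ∈ TP Θ) :
    Lc (c • u) = c * Lc u :=
  Lc_eq (((tendsto_Lc hu).const_mul c).congr fun p => (mn_smul c u p).symm)

/-- Two groups of frequencies which are independent modulo one. -/
def Indep (Θ₀ Θ₁ : AddSubgroup ℝ) : Prop :=
  ∀ a ∈ Θ₀, ∀ b ∈ Θ₁, ∀ m : ℤ, a + b = m → b = 0

/-- The product rule for mean values. -/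
theorem Lc_mul {Θ₀ Θ₁ : AddSubgroup ℝ} (h : Indep Θ₀ Θ₁) {u v : ℕ → ℂ} (hu : u ∈ TP Θ₀)
    (hv : v ∈ TP Θ₁) : Lc (u * v) = Lc u * Lc v := by
  classical
  set Θ : AddSubgroup ℝ := Θ₀ ⊔ Θ₁ with hΘ
  have i0 : TP Θ₀ ≤ TP Θ := TP_mono le_sup_left
  have i1 : TP Θ₁ ≤ TP Θ := TP_mono le_sup_right
  have key : ∀ u : ℕ → ℂ, u ∈ Submodule.span ℂ (ch '' (Θ₀ : Set ℝ)) →
      ∀ v : ℕ → ℂ, v ∈ Submodule.span ℂ (ch '' (Θ₁ : Set ℝ)) → Lc (u * v) = Lc u * Lc v := by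
    intro u hu
    induction hu using Submodule.span_induction with
    | mem u hu =>
      obtain ⟨a, ha, rfl⟩ := hu
      intro v hv
      induction hv using Submodule.span_induction with
      | mem v hv =>
        obtain ⟨b, hb, rfl⟩ := hv
        rw [ch_mul, Lc_ch, Lc_ch, Lc_ch]
        by_cases hb0 : b = 0
        · subst hb0
          have h1 : ∃ m : ℤ, (0 : ℝ) = m := ⟨0, by simp⟩
          rw [add_zero, if_pos h1, mul_one]
        · have h1 : ¬ ∃ m : ℤ, a + b = m := fun ⟨m, hm⟩ => hb0 (h a ha b hb m hm)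
          have h2 : ¬ ∃ m : ℤ, b = m := fun ⟨m, hm⟩ =>
            hb0 (h 0 Θ₀.zero_mem b hb m (by rw [zero_add, hm]))
          rw [if_neg h1, if_neg h2, mul_zero]
      | zero => rw [mul_zero, Lc_zero, mul_zero]
      | add x y hx hy ihx ihy =>
        have a0 := i0 (ch_mem ha)
        rw [mul_add, Lc_add ((TP Θ).mul_mem a0 (i1 hx)) ((TP Θ).mul_mem a0 (i1 hy)), ihx, ihy,
          Lc_add (i1 hx) (i1 hy), mul_add]
      | smul c x hx ih =>
        have a0 := i0 (ch_mem ha)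
        rw [mul_smul_comm, Lc_smul c ((TP Θ).mul_mem a0 (i1 hx)), ih, Lc_smul c (i1 hx)]
        ring
    | zero => intro v _; rw [zero_mul, Lc_zero, zero_mul]
    | add x y hx hy ihx ihy =>
      intro v hv
      have v1 := i1 hv
      rw [add_mul, Lc_add ((TP Θ).mul_mem (i0 hx) v1) ((TP Θ).mul_mem (i0 hy) v1), ihx v hv,
        ihy v hv, Lc_add (i0 hx) (i0 hy), add_mul]
    | smul c x hx ih =>
      intro v hv
      rw [smul_mul_assoc, Lc_smul c ((TP Θ).mul_mem (i0 hx) (i1 hv)), ih v hv, Lc_smul c (i0 hx)]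
      ring
  exact key u hu v hv

/-- Real trigonometric polynomials with frequencies in `Θ`. -/
def RT (Θ : AddSubgroup ℝ) : Subalgebra ℝ (ℕ → ℝ) where
  carrier := {f | (fun n => (f n : ℂ)) ∈ TP Θ}
  mul_mem' := by
    intro f g hf hg
    have : (fun n => ((f * g) n : ℂ)) = (fun n => (f n : ℂ)) * (fun n => (g n : ℂ)) := by
      funext n; simp
    show (fun n => ((f * g) n : ℂ)) ∈ TP Θ
    rw [this]
    exact (TP Θ).mul_mem hf hg
  add_mem' := by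
    intro f g hf hg
    have : (fun n => ((f + g) n : ℂ)) = (fun n => (f n : ℂ)) + (fun n => (g n : ℂ)) := by
      funext n; simp
    show (fun n => ((f + g) n : ℂ)) ∈ TP Θ
    rw [this]
    exact (TP Θ).add_mem hf hg
  algebraMap_mem' := by
    intro r
    have : (fun n => ((algebraMap ℝ (ℕ → ℝ) r) n : ℂ)) = algebraMap ℂ (ℕ → ℂ) (r : ℂ) := by
      funext n; simp [Pi.algebraMap_apply]
    show (fun n => ((algebraMap ℝ (ℕ → ℝ) r) n : ℂ)) ∈ TP Θ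
    rw [this]
    exact (TP Θ).algebraMap_mem _

lemma mem_RT {Θ : AddSubgroup ℝ} {f : ℕ → ℝ} : f ∈ RT Θ ↔ (fun n => (f n : ℂ)) ∈ TP Θ := Iff.rfl

lemma RT_mono {Θ Θ' : AddSubgroup ℝ} (h : Θ ≤ Θ') : RT Θ ≤ RT Θ' :=
  fun _ hu => TP_mono h hu

lemma const_mem_RT (Θ : AddSubgroup ℝ) (c : ℝ) : (fun _ => c : ℕ → ℝ) ∈ RT Θ :=
  (RT Θ).algebraMap_mem c

lemma const_mul_mem_RT {Θ : AddSubgroup ℝ} {f : ℕ → ℝ} (c : ℝ) (hf : f ∈ RT Θ) :
    (fun n => c * f n) ∈ RT Θ := (RT Θ).mul_mem (const_mem_RT Θ c) hf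

lemma mul_mem_RT {Θ : AddSubgroup ℝ} {f g : ℕ → ℝ} (hf : f ∈ RT Θ) (hg : g ∈ RT Θ) :
    (fun n => f n * g n) ∈ RT Θ := (RT Θ).mul_mem hf hg

lemma add_mem_RT {Θ : AddSubgroup ℝ} {f g : ℕ → ℝ} (hf : f ∈ RT Θ) (hg : g ∈ RT Θ) :
    (fun n => f n + g n) ∈ RT Θ := (RT Θ).add_mem hf hg

lemma sub_mem_RT {Θ : AddSubgroup ℝ} {f g : ℕ → ℝ} (hf : f ∈ RT Θ) (hg : g ∈ RT Θ) :
    (fun n => f n - g n) ∈ RT Θ := (RT Θ).sub_mem hf hg

lemma pow_mem_RT {Θ : AddSubgroup ℝ} {f : ℕ → ℝ} (hf : f ∈ RT Θ) (k : ℕ) :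
    (fun n => f n ^ k) ∈ RT Θ := (RT Θ).pow_mem hf k

lemma sum_mem_RT {Θ : AddSubgroup ℝ} {ι : Type*} (S : Finset ι) {f : ι → ℕ → ℝ}
    (hf : ∀ i ∈ S, f i ∈ RT Θ) : (fun n => ∑ i ∈ S, f i n) ∈ RT Θ := by
  have : (fun n => ∑ i ∈ S, f i n) = ∑ i ∈ S, f i := by funext n; simp
  rw [this]
  exact (RT Θ).sum_mem hf

lemma prod_mem_RT {Θ : AddSubgroup ℝ} {ι : Type*} (S : Finset ι) {f : ι → ℕ → ℝ}
    (hf : ∀ i ∈ S, f i ∈ RT Θ) : (fun n => ∏ i ∈ S, f i n) ∈ RT Θ := by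
  have : (fun n => ∏ i ∈ S, f i n) = ∏ i ∈ S, f i := by funext n; simp
  rw [this]
  exact (RT Θ).prod_mem hf

lemma cos_eq (θ φ : ℝ) (n : ℕ) : ((Real.cos (2 * π * (n * θ) + φ) : ℝ) : ℂ)
    = (Complex.exp (φ * Complex.I) / 2) * ch θ n + (Complex.exp (-(φ * Complex.I)) / 2) * ch (-θ) n := by
  rw [Complex.ofReal_cos, Complex.cos, ch, ch, ee, ee]
  have e1 : (((2 * π * (n * θ) + φ : ℝ) : ℂ)) * Complex.I
      = φ * Complex.I + 2 * π * Complex.I * ((n * θ : ℝ) : ℂ) := by push_cast; ring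
  have e2 : -(((2 * π * (n * θ) + φ : ℝ) : ℂ)) * Complex.I
      = -(φ * Complex.I) + 2 * π * Complex.I * ((n * -θ : ℝ) : ℂ) := by push_cast; ring
  rw [e1, e2, Complex.exp_add, Complex.exp_add]
  ring

lemma cos_mem_RT {Θ : AddSubgroup ℝ} {θ : ℝ} (h : θ ∈ Θ) (φ : ℝ) :
    (fun n : ℕ => Real.cos (2 * π * (n * θ) + φ)) ∈ RT Θ := by
  rw [mem_RT]
  have : (fun n : ℕ => ((Real.cos (2 * π * (n * θ) + φ) : ℝ) : ℂ))
      = (Complex.exp (φ * Complex.I) / 2) • ch θ + (Complex.exp (-(φ * Complex.I)) / 2) • ch (-θ) := by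
    funext n
    rw [cos_eq]; rfl
  rw [this]
  exact (TP Θ).add_mem ((TP Θ).smul_mem (ch_mem h) _) ((TP Θ).smul_mem (ch_mem (Θ.neg_mem h)) _)

/-- The mean value of a real sequence. -/
def Lr (f : ℕ → ℝ) : ℝ := (Lc (fun n => (f n : ℂ))).re

lemma tendsto_Lr {Θ : AddSubgroup ℝ} {f : ℕ → ℝ} (hf : f ∈ RT Θ) : Tendsto (mr f) Gf (𝓝 (Lr f)) := by
  have h := (Complex.continuous_re.tendsto _).comp (tendsto_Lc (mem_RT.mp hf))
  refine h.congr fun p => ?_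
  simp only [Function.comp_apply, mn_ofReal, Complex.ofReal_re]

lemma Lr_eq {Θ : AddSubgroup ℝ} {f : ℕ → ℝ} (hf : f ∈ RT Θ) {a : ℝ} (h : Tendsto (mr f) Gf (𝓝 a)) :
    Lr f = a := tendsto_nhds_unique (tendsto_Lr hf) h

lemma Lc_ofReal {Θ : AddSubgroup ℝ} {f : ℕ → ℝ} (hf : f ∈ RT Θ) :
    Lc (fun n => (f n : ℂ)) = ((Lr f : ℝ) : ℂ) := by
  refine Lc_eq ?_
  have h := (Complex.continuous_ofReal.tendsto _).comp (tendsto_Lr hf)
  refine h.congr fun p => ?_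
  simp only [Function.comp_apply, mn_ofReal]

lemma Lr_add {Θ : AddSubgroup ℝ} {f g : ℕ → ℝ} (hf : f ∈ RT Θ) (hg : g ∈ RT Θ) :
    Lr (f + g) = Lr f + Lr g :=
  Lr_eq ((RT Θ).add_mem hf hg) (((tendsto_Lr hf).add (tendsto_Lr hg)).congr fun p =>
    (mr_add f g p).symm)

lemma Lr_const (c : ℝ) : Lr (fun _ => c) = c := by
  refine Lr_eq (const_mem_RT ⊤ c) ?_
  refine tendsto_const_nhds.congr' ?_
  filter_upwards [eventually_one_le] with p hp
  rw [mr_const hp]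

lemma Lr_const_mul {Θ : AddSubgroup ℝ} {f : ℕ → ℝ} (c : ℝ) (hf : f ∈ RT Θ) :
    Lr (fun n => c * f n) = c * Lr f := by
  exact Lr_eq (const_mul_mem_RT c hf) (((tendsto_Lr hf).const_mul c).congr fun p => (mr_const_mul c f p).symm)

lemma Lr_sum {Θ : AddSubgroup ℝ} {ι : Type*} (S : Finset ι) {f : ι → ℕ → ℝ}
    (hf : ∀ i ∈ S, f i ∈ RT Θ) : Lr (fun n => ∑ i ∈ S, f i n) = ∑ i ∈ S, Lr (f i) := by
  refine Lr_eq (sum_mem_RT S hf) ?_
  have h2 : Tendsto (fun p => ∑ i ∈ S, mr (f i) p) Gf (𝓝 (∑ i ∈ S, Lr (f i))) :=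
    tendsto_finsetSum _ fun i hi => tendsto_Lr (hf i hi)
  exact h2.congr fun p => (mr_sum S f p).symm

lemma Lr_mono {Θ : AddSubgroup ℝ} {f g : ℕ → ℝ} (hf : f ∈ RT Θ) (hg : g ∈ RT Θ)
    (h : ∀ n, f n ≤ g n) : Lr f ≤ Lr g :=
  le_of_tendsto_of_tendsto (tendsto_Lr hf) (tendsto_Lr hg)
    (Eventually.of_forall fun _ => mr_mono fun n _ => h n)

lemma Lr_nonneg {Θ : AddSubgroup ℝ} {f : ℕ → ℝ} (hf : f ∈ RT Θ) (h : ∀ n, 0 ≤ f n) : 0 ≤ Lr f :=
  ge_of_tendsto (tendsto_Lr hf) (Eventually.of_forall fun _ => mr_nonneg fun n _ => h n)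

/-- The product rule for real mean values. -/
theorem Lr_mul {Θ₀ Θ₁ : AddSubgroup ℝ} (h : Indep Θ₀ Θ₁) {f g : ℕ → ℝ} (hf : f ∈ RT Θ₀)
    (hg : g ∈ RT Θ₁) : Lr (fun n => f n * g n) = Lr f * Lr g := by
  have h1 := Lc_mul h (mem_RT.mp hf) (mem_RT.mp hg)
  rw [Lc_ofReal hf, Lc_ofReal hg] at h1
  have e : (fun n => ((f n * g n : ℝ) : ℂ)) = (fun n => (f n : ℂ)) * (fun n => (g n : ℂ)) := by
    funext n; simp
  rw [Lr, e, h1]
  simp [← Complex.ofReal_mul]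

open Classical in
/-- The mean of one cosine. -/
lemma Lr_cos {θ : ℝ} (φ : ℝ) (h : ¬ ∃ m : ℤ, θ = m) :
    Lr (fun n : ℕ => Real.cos (2 * π * (n * θ) + φ)) = 0 := by
  have hneg : ¬ ∃ m : ℤ, -θ = m := by
    rintro ⟨m, hm⟩
    exact h ⟨-m, by push_cast; linarith⟩
  have : (fun n : ℕ => ((Real.cos (2 * π * (n * θ) + φ) : ℝ) : ℂ))
      = (Complex.exp (φ * Complex.I) / 2) • ch θ + (Complex.exp (-(φ * Complex.I)) / 2) • ch (-θ) := by
    funext n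
    rw [cos_eq]; rfl
  have t1 : ch θ ∈ TP ⊤ := ch_mem (AddSubgroup.mem_top _)
  have t2 : ch (-θ) ∈ TP ⊤ := ch_mem (AddSubgroup.mem_top _)
  rw [Lr, this, Lc_add ((TP ⊤).smul_mem t1 _) ((TP ⊤).smul_mem t2 _), Lc_smul _ t1, Lc_smul _ t2,
    Lc_ch, Lc_ch, if_neg h, if_neg hneg]
  simp

/-- The mean of a product of two cosines. -/
lemma Lr_cos_mul_cos {θ θ' : ℝ} (φ φ' : ℝ) (h : ¬ ∃ m : ℤ, θ + θ' = m)
    (h' : θ = θ' ∨ ¬ ∃ m : ℤ, θ - θ' = m) :
    Lr (fun n : ℕ => Real.cos (2 * π * (n * θ) + φ) * Real.cos (2 * π * (n * θ') + φ'))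
      = if θ = θ' then Real.cos (φ - φ') / 2 else 0 := by
  have e : (fun n : ℕ => Real.cos (2 * π * (n * θ) + φ) * Real.cos (2 * π * (n * θ') + φ'))
      = (fun n : ℕ => (1 / 2 : ℝ) * Real.cos (2 * π * (n * (θ + θ')) + (φ + φ')))
        + (fun n : ℕ => (1 / 2 : ℝ) * Real.cos (2 * π * (n * (θ - θ')) + (φ - φ'))) := by
    funext n
    have h1 := Real.cos_add (2 * π * (n * θ) + φ) (2 * π * (n * θ') + φ')
    have h2 := Real.cos_sub (2 * π * (n * θ) + φ) (2 * π * (n * θ') + φ')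
    have e1 : 2 * π * (n * (θ + θ')) + (φ + φ') = (2 * π * (n * θ) + φ) + (2 * π * (n * θ') + φ') := by
      ring
    have e2 : 2 * π * (n * (θ - θ')) + (φ - φ') = (2 * π * (n * θ) + φ) - (2 * π * (n * θ') + φ') := by
      ring
    simp only [Pi.add_apply]
    rw [e1, e2, h1, h2]
    ring
  have m1 := cos_mem_RT (AddSubgroup.mem_top (θ + θ')) (φ + φ')
  have m2 := cos_mem_RT (AddSubgroup.mem_top (θ - θ')) (φ - φ')
  rw [e, Lr_add (const_mul_mem_RT _ m1) (const_mul_mem_RT _ m2),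
    Lr_const_mul _ m1, Lr_const_mul _ m2, Lr_cos _ h]
  split_ifs with hθ
  · subst hθ
    have : (fun n : ℕ => Real.cos (2 * π * (n * (θ - θ)) + (φ - φ'))) = fun _ => Real.cos (φ - φ') := by
      funext n
      congr 1; ring
    rw [this, Lr_const]
    ring
  · rw [Lr_cos _ (h'.resolve_left hθ)]
    ring

end

end Pool.Agent.Helper78.GC
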