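import Mathlib
import Pool.Agent.Helper22.GC.SqrtIndep
import Pool.Agent.Helper78.GC.Mean

/-!
# Linear independence of the square roots of squarefree numbers
-/

open Set Filter
open scoped Real ComplexConjugate Topology

namespace Pool.Agent.Helper78.GC

open Pool.Agent.Helper22.GC (GF sqrt_mem_GF natCast_mem_GF sqrt_prime_notMem sqrt_nat_mem_GF)

noncomputable section

/-- Linear independence of the numbers `√∏T` for subsets `T` of a finite set of primes. -/
lemma powerset_indep (P : Finset ℕ) (hP : ∀ p ∈ P, p.Prime) (m : Finset ℕ → ℤ)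
    (h : ∑ T ∈ P.powerset, (m T : ℝ) * √((∏ q ∈ T, q : ℕ) : ℝ) = 0) :
    ∀ T ∈ P.powerset, m T = 0 := by
  classical
  induction P using Finset.induction_on generalizing m with
  | empty =>
    intro T hT
    simp only [Finset.powerset_empty, Finset.mem_singleton] at hT
    subst hT
    simpa using h
  | insert p P hp ih =>
    have hpp : p.Prime := hP p (Finset.mem_insert_self _ _)
    have hPp : ∀ q ∈ P, q.Prime := fun q hq => hP q (Finset.mem_insert_of_mem hq)
    have hinj : ∀ T ∈ P.powerset, p ∉ T := fun T hT hpT => hp (Finset.mem_powerset.mp hT hpT)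
    rw [Finset.sum_powerset_insert hp] at h
    have hB : ∑ T ∈ P.powerset, (m (insert p T) : ℝ) * √((∏ q ∈ insert p T, q : ℕ) : ℝ)
        = √(p : ℝ) * ∑ T ∈ P.powerset, (m (insert p T) : ℝ) * √((∏ q ∈ T, q : ℕ) : ℝ) := by
      rw [Finset.mul_sum]
      refine Finset.sum_congr rfl fun T hT => ?_
      rw [Finset.prod_insert (hinj T hT)]
      push_cast
      rw [Real.sqrt_mul (Nat.cast_nonneg p)]
      ring
    rw [hB] at h
    have hmem : ∀ m' : Finset ℕ → ℤ, ∑ T ∈ P.powerset, (m' T : ℝ) * √((∏ q ∈ T, q : ℕ) : ℝ) ∈ GF P := by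
      intro m'
      refine Subfield.sum_mem _ fun T hT => Subfield.mul_mem _ (intCast_mem _ _) ?_
      refine sqrt_nat_mem_GF _ (Finset.prod_ne_zero_iff.mpr fun q hq =>
        (hPp q (Finset.mem_powerset.mp hT hq)).ne_zero) ?_
      intro q hq
      have hq' := Nat.prime_of_mem_primeFactors hq
      obtain ⟨r, hr, hqr⟩ := (Prime.dvd_finsetProd_iff hq'.prime _).mp (Nat.dvd_of_mem_primeFactors hq)
      have hrP := Finset.mem_powerset.mp hT hr
      rw [(Nat.prime_dvd_prime_iff_eq hq' (hPp r hrP)).mp hqr]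
      exact hrP
    set A := ∑ T ∈ P.powerset, (m T : ℝ) * √((∏ q ∈ T, q : ℕ) : ℝ) with hA
    set B := ∑ T ∈ P.powerset, (m (insert p T) : ℝ) * √((∏ q ∈ T, q : ℕ) : ℝ) with hB'
    have hAm : A ∈ GF P := hmem m
    have hBm : B ∈ GF P := hmem fun T => m (insert p T)
    have hB0 : B = 0 := by
      by_contra hne
      apply sqrt_prime_notMem hPp hpp hp
      have : √(p : ℝ) = -A / B := by
        field_simp
        linarith
      rw [this]
      exact Subfield.div_mem _ (Subfield.neg_mem _ hAm) hBm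
    have hA0 : A = 0 := by rw [hB0, mul_zero, add_zero] at h; exact h
    have i1 := ih hPp m hA0
    have i2 := ih hPp (fun T => m (insert p T)) hB0
    intro T hT
    rw [Finset.powerset_insert, Finset.mem_union, Finset.mem_image] at hT
    rcases hT with hT | ⟨T', hT', rfl⟩
    · exact i1 T hT
    · exact i2 T' hT'

/-- Linear independence over the integers of the square roots of squarefree numbers. -/
theorem sqrt_indep (Q : Finset ℕ) (hQ : ∀ q ∈ Q, Squarefree q) (m : ℕ → ℤ)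
    (h : ∑ q ∈ Q, (m q : ℝ) * √(q : ℝ) = 0) : ∀ q ∈ Q, m q = 0 := by
  classical
  set P : Finset ℕ := Q.biUnion Nat.primeFactors with hP
  have hPp : ∀ p ∈ P, p.Prime := by
    intro p hp
    rw [hP, Finset.mem_biUnion] at hp
    obtain ⟨q, _, hq⟩ := hp
    exact Nat.prime_of_mem_primeFactors hq
  have hsub : ∀ q ∈ Q, q.primeFactors ∈ P.powerset := by
    intro q hq
    rw [Finset.mem_powerset, hP]
    exact Finset.subset_biUnion_of_mem _ hq
  have hprod : ∀ q ∈ Q, ∏ p ∈ q.primeFactors, p = q := fun q hq =>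
    Nat.prod_primeFactors_of_squarefree (hQ q hq)
  set m' : Finset ℕ → ℤ := fun T => if (∏ p ∈ T, p) ∈ Q then m (∏ p ∈ T, p) else 0 with hm'
  have key : ∑ T ∈ P.powerset, (m' T : ℝ) * √((∏ q ∈ T, q : ℕ) : ℝ) = ∑ q ∈ Q, (m q : ℝ) * √(q : ℝ) := by
    symm
    refine Finset.sum_bij_ne_zero (fun q _ _ => q.primeFactors) (fun q hq _ => hsub q hq) ?_ ?_ ?_
    · intro q hq _ q' hq' _ heq
      rw [← hprod q hq, ← hprod q' hq', heq]
    · intro T hT hne
      have hTQ : (∏ p ∈ T, p) ∈ Q := by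
        by_contra hcon
        apply hne
        simp [hm', hcon]
      have hTp : ∀ p ∈ T, p.Prime := fun p hp => hPp p (Finset.mem_powerset.mp hT hp)
      refine ⟨∏ p ∈ T, p, hTQ, ?_, Nat.primeFactors_prod hTp⟩
      intro h0
      apply hne
      simp only [hm', if_pos hTQ]
      exact h0
    · intro q hq _
      simp only [hm', hprod q hq, if_pos hq]
  intro q hq
  have h1 := powerset_indep P hPp m' (by rw [key, h]) q.primeFactors (hsub q hq)
  simpa only [hm', hprod q hq, if_pos hq] using h1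

/-- Outside a finite set of squarefree numbers there is no relation modulo one. -/
theorem exists_bad {α : ℝ} (hα : 0 < α) : ∃ Q₀ : Finset ℕ, ∀ (Q : Finset ℕ) (m : ℕ → ℤ) (b : ℤ),
    (∀ q ∈ Q, Squarefree q) → ∑ q ∈ Q, (m q : ℝ) * (α * √(q : ℝ)) = b →
    ∀ q ∈ Q, q ∉ Q₀ → m q = 0 := by
  classical
  by_cases hrel : ∃ (Q₀ : Finset ℕ) (m₀ : ℕ → ℤ) (b₀ : ℤ), (∀ q ∈ Q₀, Squarefree q) ∧
      ∑ q ∈ Q₀, (m₀ q : ℝ) * (α * √(q : ℝ)) = b₀ ∧ b₀ ≠ 0
  · obtain ⟨Q₀, m₀, b₀, hQ₀, hsum₀, hb₀⟩ := hrel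
    refine ⟨Q₀, ?_⟩
    intro Q m b hQ hsum q hq hq0
    set m₀' : ℕ → ℤ := fun q => if q ∈ Q₀ then m₀ q else 0 with hm₀'
    set m' : ℕ → ℤ := fun q => if q ∈ Q then m q else 0 with hm'
    have e1 : ∑ q ∈ Q ∪ Q₀, (m' q : ℝ) * √(q : ℝ) = ∑ q ∈ Q, (m q : ℝ) * √(q : ℝ) := by
      rw [← Finset.sum_subset (Finset.subset_union_left : Q ⊆ Q ∪ Q₀)]
      · refine Finset.sum_congr rfl fun q hq => ?_
        simp only [hm', if_pos hq]
      · intro q _ hq
        simp only [hm', if_neg hq, Int.cast_zero, zero_mul]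
    have e2 : ∑ q ∈ Q ∪ Q₀, (m₀' q : ℝ) * √(q : ℝ) = ∑ q ∈ Q₀, (m₀ q : ℝ) * √(q : ℝ) := by
      rw [← Finset.sum_subset (Finset.subset_union_right : Q₀ ⊆ Q ∪ Q₀)]
      · refine Finset.sum_congr rfl fun q hq => ?_
        simp only [hm₀', if_pos hq]
      · intro q _ hq
        simp only [hm₀', if_neg hq, Int.cast_zero, zero_mul]
    have f1 : α * ∑ q ∈ Q, (m q : ℝ) * √(q : ℝ) = b := by
      rw [← hsum, Finset.mul_sum]
      exact Finset.sum_congr rfl fun q _ => by ring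
    have f2 : α * ∑ q ∈ Q₀, (m₀ q : ℝ) * √(q : ℝ) = b₀ := by
      rw [← hsum₀, Finset.mul_sum]
      exact Finset.sum_congr rfl fun q _ => by ring
    have h0 : ∑ q ∈ Q ∪ Q₀, ((b₀ * m' q - b * m₀' q : ℤ) : ℝ) * √(q : ℝ) = 0 := by
      have : ∑ q ∈ Q ∪ Q₀, ((b₀ * m' q - b * m₀' q : ℤ) : ℝ) * √(q : ℝ)
          = b₀ * ∑ q ∈ Q ∪ Q₀, (m' q : ℝ) * √(q : ℝ) - b * ∑ q ∈ Q ∪ Q₀, (m₀' q : ℝ) * √(q : ℝ) := by
        rw [Finset.mul_sum, Finset.mul_sum, ← Finset.sum_sub_distrib]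
        refine Finset.sum_congr rfl fun q _ => ?_
        push_cast; ring
      rw [this, e1, e2, ← f1, ← f2]
      ring
    have h1 := sqrt_indep (Q ∪ Q₀) (fun q hq => (Finset.mem_union.mp hq).elim (hQ q) (hQ₀ q)) _ h0 q
      (Finset.mem_union_left _ hq)
    simp only [hm', hm₀', if_pos hq, if_neg hq0, mul_zero, sub_zero] at h1
    exact (mul_eq_zero.mp h1).resolve_left hb₀
  · refine ⟨∅, ?_⟩
    intro Q m b hQ hsum q hq _
    have hb : b = 0 := by
      by_contra hne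
      exact hrel ⟨Q, m, b, hQ, hsum, hne⟩
    rw [hb, Int.cast_zero] at hsum
    have h0 : ∑ q ∈ Q, (m q : ℝ) * √(q : ℝ) = 0 := by
      have : α * ∑ q ∈ Q, (m q : ℝ) * √(q : ℝ) = 0 := by
        rw [← hsum, Finset.mul_sum]
        exact Finset.sum_congr rfl fun q _ => by ring
      exact (mul_eq_zero.mp this).resolve_left hα.ne'
    exact sqrt_indep Q hQ m h0 q hq

end

end Pool.Agent.Helper78.GC
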