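import Mathlib

/-!
# Families of quadratic forms which become coercive
-/

open Set Filter
open scoped Real ComplexConjugate Topology

namespace Pool.Agent.Helper78.GC

noncomputable section

lemma coercive {ι : Type*} [Fintype ι] (A : ℕ → (ι → ℝ) → ℝ) (hcont : ∀ q, Continuous (A q))
    (h0 : ∀ q ξ, 0 ≤ A q ξ) (hhom : ∀ q (c : ℝ) ξ, A q (c • ξ) = c ^ 2 * A q ξ)
    (T : ℕ → Finset ℕ) (hT : Monotone T)
    (hdiv : ∀ ξ : ι → ℝ, ξ ≠ 0 → Tendsto (fun N => ∑ q ∈ T N, A q ξ) atTop atTop) (Λ : ℝ) :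
    ∃ N₀, ∀ N ≥ N₀, ∀ ξ, Λ * ‖ξ‖ ^ 2 ≤ ∑ q ∈ T N, A q ξ := by
  classical
  have hmono : ∀ ξ, Monotone fun N => ∑ q ∈ T N, A q ξ := fun ξ M N hMN =>
    Finset.sum_le_sum_of_subset_of_nonneg (hT hMN) fun q _ _ => h0 q ξ
  have hcomp : IsCompact (Metric.sphere (0 : ι → ℝ) 1) := isCompact_sphere _ _
  obtain ⟨N₀, hN₀⟩ := hcomp.elim_directed_cover (fun N : ℕ => {ξ | Λ < ∑ q ∈ T N, A q ξ})
    (fun N => isOpen_lt continuous_const (continuous_finsetSum _ fun q _ => hcont q))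
    (fun ξ hξ => by
      have hξ0 : ξ ≠ 0 := by
        rintro rfl
        simp at hξ
      obtain ⟨N, hN⟩ := ((hdiv ξ hξ0).eventually_gt_atTop Λ).exists
      exact mem_iUnion.mpr ⟨N, hN⟩)
    (directed_of_isDirected_le fun M N hMN ξ hξ => lt_of_lt_of_le hξ (hmono ξ hMN))
  refine ⟨N₀, fun N hN ξ => ?_⟩
  by_cases hξ : ξ = 0
  · subst hξ
    rw [norm_zero]
    have := Finset.sum_nonneg fun q (_ : q ∈ T N) => h0 q (0 : ι → ℝ)
    simpa using this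
  · have hn : 0 < ‖ξ‖ := norm_pos_iff.mpr hξ
    have h1 : ‖ξ‖⁻¹ • ξ ∈ Metric.sphere (0 : ι → ℝ) 1 := by
      rw [mem_sphere_zero_iff_norm, norm_smul, norm_inv, norm_norm, inv_mul_cancel₀ hn.ne']
    have h2 : Λ < ∑ q ∈ T N₀, A q (‖ξ‖⁻¹ • ξ) := hN₀ h1
    have h3 : Λ < ∑ q ∈ T N, A q (‖ξ‖⁻¹ • ξ) := lt_of_lt_of_le h2 (hmono _ hN)
    simp only [hhom] at h3
    rw [← Finset.mul_sum, inv_pow, inv_mul_eq_div, lt_div_iff₀ (by positivity)] at h3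
    exact h3.le

/-- Solving a coercive linear system with a bound for the solution. -/
lemma solve {ι : Type*} [Fintype ι] (F : (ι → ℝ) →ₗ[ℝ] (ι → ℝ)) {Λ : ℝ} (hΛ : 0 < Λ)
    (hF : ∀ ξ, Λ * ‖ξ‖ ^ 2 ≤ ∑ i, ξ i * F ξ i) (z : ι → ℝ) :
    ∃ l : ι → ℝ, F l = z ∧ Λ * ‖l‖ ≤ Fintype.card ι * ‖z‖ := by
  have hinj : Function.Injective F := by
    rw [← LinearMap.ker_eq_bot, LinearMap.ker_eq_bot']
    intro ξ hξ
    have h1 := hF ξ
    rw [hξ] at h1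
    simp only [Pi.zero_apply, mul_zero, Finset.sum_const_zero] at h1
    by_contra hne
    have : 0 < ‖ξ‖ := norm_pos_iff.mpr hne
    have : 0 < Λ * ‖ξ‖ ^ 2 := by positivity
    linarith
  obtain ⟨l, hl⟩ := LinearMap.injective_iff_surjective.mp hinj z
  refine ⟨l, hl, ?_⟩
  have h1 := hF l
  rw [hl] at h1
  have h2 : ∑ i, l i * z i ≤ Fintype.card ι * (‖l‖ * ‖z‖) := by
    calc ∑ i, l i * z i ≤ ∑ _i : ι, ‖l‖ * ‖z‖ := by
          refine Finset.sum_le_sum fun i _ => ?_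
          refine (le_abs_self _).trans ?_
          rw [abs_mul]
          exact mul_le_mul (norm_le_pi_norm l i) (norm_le_pi_norm z i) (abs_nonneg _) (norm_nonneg _)
      _ = _ := by rw [Finset.sum_const, Finset.card_univ, nsmul_eq_mul]
  by_cases hl0 : ‖l‖ = 0
  · rw [hl0, mul_zero]; positivity
  · have hlp : 0 < ‖l‖ := lt_of_le_of_ne (norm_nonneg _) (Ne.symm hl0)
    have h3 : (Λ * ‖l‖) * ‖l‖ ≤ (Fintype.card ι * ‖z‖) * ‖l‖ := by nlinarith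
    exact le_of_mul_le_mul_right h3 hlp

/-- The quadratic form of a Gram matrix of phases. -/
lemma gram {ι : Type*} [Fintype ι] (b φ ξ : ι → ℝ) :
    ∑ i, ∑ l, ξ i * (ξ l * (b i * b l * Real.cos (φ i - φ l)))
      = (∑ i, ξ i * b i * Real.cos (φ i)) ^ 2 + (∑ i, ξ i * b i * Real.sin (φ i)) ^ 2 := by
  rw [pow_two, pow_two, Finset.sum_mul_sum, Finset.sum_mul_sum, ← Finset.sum_add_distrib]
  refine Finset.sum_congr rfl fun i _ => ?_
  rw [← Finset.sum_add_distrib]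
  refine Finset.sum_congr rfl fun l _ => ?_
  rw [Real.cos_sub]
  ring

lemma gram_norm {ι : Type*} [Fintype ι] (b φ ξ : ι → ℝ) :
    (∑ i, ξ i * b i * Real.cos (φ i)) ^ 2 + (∑ i, ξ i * b i * Real.sin (φ i)) ^ 2
      = ‖∑ i, ((ξ i * b i : ℝ) : ℂ) * Complex.exp (φ i * Complex.I)‖ ^ 2 := by
  have h : ∑ i, ((ξ i * b i : ℝ) : ℂ) * Complex.exp (φ i * Complex.I)
      = ((∑ i, ξ i * b i * Real.cos (φ i) : ℝ) : ℂ)
        + ((∑ i, ξ i * b i * Real.sin (φ i) : ℝ) : ℂ) * Complex.I := by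
    push_cast
    rw [Finset.sum_mul, ← Finset.sum_add_distrib]
    refine Finset.sum_congr rfl fun i _ => ?_
    rw [Complex.exp_mul_I, ← Complex.ofReal_cos, ← Complex.ofReal_sin]
    ring
  rw [h, ← Complex.normSq_eq_norm_sq, Complex.normSq_add_mul_I]

end

end Pool.Agent.Helper78.GC
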