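import Mathlib
import Pool.Agent.Helper78.GC.Indep

/-!
# Frequency groups attached to squarefree numbers
-/

open Set Filter
open scoped Real ComplexConjugate Topology

namespace Pool.Agent.Helper78.GC

noncomputable section

/-- The group of frequencies generated by `α √q`, `q ∈ S`. -/
def Th (α : ℝ) (S : Finset ℕ) : AddSubgroup ℝ := AddSubgroup.closure ((fun q : ℕ => α * √(q : ℝ)) '' S)

lemma gen_mem {α : ℝ} {S : Finset ℕ} {q : ℕ} (hq : q ∈ S) : α * √(q : ℝ) ∈ Th α S :=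
  AddSubgroup.subset_closure ⟨q, hq, rfl⟩

lemma int_mul_gen_mem {α : ℝ} {S : Finset ℕ} {q : ℕ} (hq : q ∈ S) (h : ℤ) :
    (h : ℝ) * (α * √(q : ℝ)) ∈ Th α S := by
  have := (Th α S).zsmul_mem (gen_mem (α := α) hq) h
  rwa [zsmul_eq_mul] at this

lemma nat_mul_gen_mem {α : ℝ} {S : Finset ℕ} {q : ℕ} (hq : q ∈ S) (h : ℕ) :
    (h : ℝ) * (α * √(q : ℝ)) ∈ Th α S := by
  have := int_mul_gen_mem (α := α) hq (h : ℤ)
  rwa [Int.cast_natCast] at this

lemma Th_mono {α : ℝ} {S T : Finset ℕ} (h : S ⊆ T) : Th α S ≤ Th α T :=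
  AddSubgroup.closure_mono (image_mono (by exact_mod_cast h))

lemma exists_coeff {α : ℝ} {S : Finset ℕ} {θ : ℝ} (h : θ ∈ Th α S) :
    ∃ m : ℕ → ℤ, θ = ∑ q ∈ S, (m q : ℝ) * (α * √(q : ℝ)) := by
  classical
  induction h using AddSubgroup.closure_induction with
  | mem x hx =>
    obtain ⟨q, hq, rfl⟩ := hx
    have hq' : q ∈ S := by exact_mod_cast hq
    refine ⟨fun p => if p = q then 1 else 0, ?_⟩
    rw [Finset.sum_eq_single q]
    · simp
    · intro p _ hp; simp [hp]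
    · intro h; exact absurd hq' h
  | zero => exact ⟨0, by simp⟩
  | add x y _ _ hx hy =>
    obtain ⟨m, rfl⟩ := hx
    obtain ⟨m', rfl⟩ := hy
    refine ⟨fun q => m q + m' q, ?_⟩
    rw [← Finset.sum_add_distrib]
    refine Finset.sum_congr rfl fun q _ => ?_
    push_cast; ring
  | neg x _ hx =>
    obtain ⟨m, rfl⟩ := hx
    refine ⟨fun q => -m q, ?_⟩
    rw [← Finset.sum_neg_distrib]
    refine Finset.sum_congr rfl fun q _ => ?_
    push_cast; ring

/-- The property of the bad set. -/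
def Bad (α : ℝ) (Q₀ : Finset ℕ) : Prop := ∀ (Q : Finset ℕ) (m : ℕ → ℤ) (b : ℤ),
    (∀ q ∈ Q, Squarefree q) → ∑ q ∈ Q, (m q : ℝ) * (α * √(q : ℝ)) = b →
    ∀ q ∈ Q, q ∉ Q₀ → m q = 0

lemma not_int {α : ℝ} {Q₀ : Finset ℕ} (hb : Bad α Q₀) {q : ℕ} (hq : Squarefree q) (hq0 : q ∉ Q₀)
    {h : ℤ} (hh : h ≠ 0) : ¬ ∃ m : ℤ, (h : ℝ) * (α * √(q : ℝ)) = m := by
  rintro ⟨m, hm⟩
  exact hh (hb {q} (fun _ => h) m (by simpa using hq) (by simpa using hm) q
    (Finset.mem_singleton_self q) hq0)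

lemma indep_Th {α : ℝ} {Q₀ : Finset ℕ} (hb : Bad α Q₀) {S T : Finset ℕ}
    (hS : ∀ q ∈ S, Squarefree q) (hT : ∀ q ∈ T, Squarefree q) (hST : Disjoint S T)
    (hT0 : ∀ q ∈ T, q ∉ Q₀) : Indep (Th α S) (Th α T) := by
  classical
  intro a ha b hb' m hm
  obtain ⟨c, hc⟩ := exists_coeff ha
  obtain ⟨d, hd⟩ := exists_coeff hb'
  have h1 : ∑ q ∈ S ∪ T, ((if q ∈ S then c q else d q : ℤ) : ℝ) * (α * √(q : ℝ)) = m := by
    rw [Finset.sum_union hST, ← hm, hc, hd]
    congr 1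
    · exact Finset.sum_congr rfl fun q hq => by rw [if_pos hq]
    · refine Finset.sum_congr rfl fun q hq => ?_
      rw [if_neg fun h => Finset.disjoint_left.mp hST h hq]
  rw [hd]
  refine Finset.sum_eq_zero fun q hq => ?_
  have h2 := hb (S ∪ T) _ m (fun q hq => (Finset.mem_union.mp hq).elim (hS q) (hT q)) h1 q
    (Finset.mem_union_right _ hq) (hT0 q hq)
  rw [if_neg fun h => Finset.disjoint_left.mp hST h hq] at h2
  rw [h2, Int.cast_zero, zero_mul]

/-- The product rule over several independent frequency groups. -/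
theorem Lr_prod {α : ℝ} {Q₀ : Finset ℕ} (hb : Bad α Q₀) {S₀ : Finset ℕ}
    (hS₀ : ∀ q ∈ S₀, Squarefree q) {κ : ℕ → ℝ} (hκ : κ ∈ RT (Th α S₀)) (T : Finset ℕ)
    (hT : ∀ q ∈ T, Squarefree q) (hTS : Disjoint S₀ T) (hT0 : ∀ q ∈ T, q ∉ Q₀)
    (f : ℕ → ℕ → ℝ) (hf : ∀ q ∈ T, f q ∈ RT (Th α {q})) :
    Lr (fun n => κ n * ∏ q ∈ T, f q n) = Lr κ * ∏ q ∈ T, Lr (f q) := by
  classical
  induction T using Finset.induction_on with
  | empty => simp
  | insert a T ha ih =>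
    rw [Finset.disjoint_insert_right] at hTS
    have hT' : ∀ q ∈ T, Squarefree q := fun q hq => hT q (Finset.mem_insert_of_mem hq)
    have hT0' : ∀ q ∈ T, q ∉ Q₀ := fun q hq => hT0 q (Finset.mem_insert_of_mem hq)
    have hf' : ∀ q ∈ T, f q ∈ RT (Th α {q}) := fun q hq => hf q (Finset.mem_insert_of_mem hq)
    have ih' := ih hT' hTS.2 hT0' hf'
    have hmem : (fun n => κ n * ∏ q ∈ T, f q n) ∈ RT (Th α (S₀ ∪ T)) := by
      refine mul_mem_RT (RT_mono (Th_mono Finset.subset_union_left) hκ) (prod_mem_RT T fun q hq => ?_)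
      exact RT_mono (Th_mono (by
        intro x hx; rw [Finset.mem_singleton] at hx; subst hx
        exact Finset.mem_union_right _ hq)) (hf' q hq)
    have hind : Indep (Th α (S₀ ∪ T)) (Th α {a}) := by
      refine indep_Th hb ?_ ?_ ?_ ?_
      · exact fun q hq => (Finset.mem_union.mp hq).elim (hS₀ q) (hT' q)
      · intro q hq; rw [Finset.mem_singleton] at hq; subst hq
        exact hT q (Finset.mem_insert_self _ _)
      · rw [Finset.disjoint_singleton_right, Finset.mem_union]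
        rintro (h | h)
        · exact hTS.1 h
        · exact ha h
      · intro q hq; rw [Finset.mem_singleton] at hq; subst hq
        exact hT0 q (Finset.mem_insert_self _ _)
    have h1 := Lr_mul hind hmem (hf a (Finset.mem_insert_self _ _))
    rw [ih'] at h1
    rw [Finset.prod_insert ha, mul_comm (Lr (f a)), ← mul_assoc, ← h1]
    congr 1
    funext n
    rw [Finset.prod_insert ha]
    ring

/-- Uniqueness of the squarefree decomposition. -/
lemma sqf_unique {a b c d : ℕ} (ha : Squarefree a) (hc : Squarefree c) (hb : b ≠ 0) (hd : d ≠ 0)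
    (h : a * b ^ 2 = c * d ^ 2) : a = c ∧ b = d := by
  have ha0 := ha.ne_zero
  have hc0 := hc.ne_zero
  have hac : a = c := by
    refine Nat.eq_of_factorization_eq ha0 hc0 fun p => ?_
    have h1 := congrArg (fun n => n.factorization p) h
    simp only [Nat.factorization_mul ha0 (pow_ne_zero 2 hb),
      Nat.factorization_mul hc0 (pow_ne_zero 2 hd), Nat.factorization_pow, Finsupp.coe_add,
      Finsupp.coe_smul, Pi.add_apply, Pi.smul_apply, smul_eq_mul] at h1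
    have h2 := ha.natFactorization_le_one p
    have h3 := hc.natFactorization_le_one p
    omega
  subst hac
  refine ⟨rfl, ?_⟩
  have h1 := Nat.eq_of_mul_eq_mul_left (Nat.pos_of_ne_zero ha0) h
  exact Nat.pow_left_injective two_ne_zero h1

/-- The squarefree numbers up to `K`. -/
def sqf (K : ℕ) : Finset ℕ := (Finset.Icc 1 K).filter Squarefree

lemma mem_sqf {K q : ℕ} : q ∈ sqf K ↔ 1 ≤ q ∧ q ≤ K ∧ Squarefree q := by
  rw [sqf, Finset.mem_filter, Finset.mem_Icc, and_assoc]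

/-- The admissible square factors. -/
def sqj (K q : ℕ) : Finset ℕ := (Finset.Icc 1 K).filter (fun j => q * j ^ 2 ≤ K)

lemma mem_sqj {K q j : ℕ} : j ∈ sqj K q ↔ 1 ≤ j ∧ j ≤ K ∧ q * j ^ 2 ≤ K := by
  rw [sqj, Finset.mem_filter, Finset.mem_Icc, and_assoc]

lemma mem_sqj' {K q j : ℕ} (hq : 1 ≤ q) : j ∈ sqj K q ↔ 1 ≤ j ∧ q * j ^ 2 ≤ K := by
  rw [mem_sqj]
  constructor
  · exact fun h => ⟨h.1, h.2.2⟩
  · rintro ⟨h1, h2⟩
    refine ⟨h1, ?_, h2⟩
    nlinarith [Nat.mul_le_mul hq (le_refl (j ^ 2))]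

lemma sum_sqf (K : ℕ) (f : ℕ → ℝ) :
    ∑ k ∈ Finset.Icc 1 K, f k = ∑ q ∈ sqf K, ∑ j ∈ sqj K q, f (q * j ^ 2) := by
  rw [Finset.sum_sigma']
  symm
  refine Finset.sum_bij (fun x _ => x.1 * x.2 ^ 2) ?_ ?_ ?_ ?_
  · rintro ⟨q, j⟩ h
    rw [Finset.mem_sigma, mem_sqf, mem_sqj] at h
    rw [Finset.mem_Icc]
    refine ⟨?_, h.2.2.2⟩
    have h1 : 1 ≤ j ^ 2 := Nat.one_le_pow _ _ h.2.1
    exact Nat.mul_le_mul h.1.1 h1
  · rintro ⟨q, j⟩ h ⟨q', j'⟩ h' heq
    rw [Finset.mem_sigma, mem_sqf, mem_sqj] at h h'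
    simp only at h h' heq
    obtain ⟨e1, e2⟩ := sqf_unique h.1.2.2 h'.1.2.2 (by omega) (by omega) heq
    subst e1; subst e2; rfl
  · intro k hk
    rw [Finset.mem_Icc] at hk
    obtain ⟨a, b, ha, hb, hab, hsq⟩ := Nat.sq_mul_squarefree_of_pos hk.1
    refine ⟨⟨a, b⟩, ?_, ?_⟩
    · rw [Finset.mem_sigma, mem_sqf, mem_sqj']
      · simp only
        refine ⟨⟨ha, ?_, hsq⟩, hb, by rw [mul_comm, hab]; exact hk.2⟩
        calc a ≤ b ^ 2 * a := Nat.le_mul_of_pos_left _ (by positivity)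
          _ = k := hab
          _ ≤ K := hk.2
      · exact ha
    · simp only
      rw [mul_comm, hab]
  · rintro ⟨q, j⟩ _
    rfl

end

end Pool.Agent.Helper78.GC
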