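import Mathlib
import Pool.Agent.Helper78.GC.Freq

/-!
# A kernel concentrated on a Bohr set
-/

open Set Filter
open scoped Real ComplexConjugate Topology

namespace Pool.Agent.Helper78.GC

noncomputable section

lemma block_lower {f : ℕ → ℝ} (hf : ∀ n, 0 ≤ f n) {R : ℕ} {c : ℝ}
    (h : ∀ M, ∃ n ∈ Finset.Ioc M (M + R), c ≤ f n) (M k : ℕ) :
    k * c ≤ ∑ n ∈ Finset.Ioc M (M + k * R), f n := by
  induction k with
  | zero => simp
  | succ k ih =>
    have h1 : M + (k + 1) * R = M + k * R + R := by ring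
    rw [h1, ← Finset.sum_Ioc_consecutive f (show M ≤ M + k * R by omega)
      (show M + k * R ≤ M + k * R + R by omega)]
    obtain ⟨n, hn, hc⟩ := h (M + k * R)
    have h2 : c ≤ ∑ n ∈ Finset.Ioc (M + k * R) (M + k * R + R), f n :=
      hc.trans (Finset.single_le_sum (fun i _ => hf i) hn)
    push_cast
    linarith

lemma mean_lower {f : ℕ → ℝ} (hf : ∀ n, 0 ≤ f n) {R : ℕ} (hR : 1 ≤ R) {c : ℝ} (hc : 0 ≤ c)
    (h : ∀ M, ∃ n ∈ Finset.Ioc M (M + R), c ≤ f n) :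
    ∀ᶠ p in Gf, c / (2 * R) ≤ mr f p := by
  filter_upwards [tendsto_snd_Gf.eventually (eventually_ge_atTop R)] with p hp
  have hR0 : (0 : ℝ) < R := by exact_mod_cast hR
  have hp0 : (0 : ℝ) < p.2 := by exact_mod_cast (lt_of_lt_of_le hR hp)
  have h1 := block_lower hf h p.1 (p.2 / R)
  have h2 : ∑ n ∈ Finset.Ioc p.1 (p.1 + p.2 / R * R), f n ≤ ∑ n ∈ Finset.Ioc p.1 (p.1 + p.2), f n := by
    refine Finset.sum_le_sum_of_subset_of_nonneg ?_ fun n _ _ => hf n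
    exact Finset.Ioc_subset_Ioc_right (by have := Nat.div_mul_le_self p.2 R; omega)
  have h3 : (p.2 : ℝ) / (2 * R) ≤ (p.2 / R : ℕ) := by
    have h4 : 1 ≤ p.2 / R := (Nat.one_le_div_iff hR).mpr hp
    have h5 : p.2 < R * (p.2 / R + 1) := Nat.lt_mul_div_succ _ hR
    have h6 : p.2 ≤ (p.2 / R) * (2 * R) := by nlinarith
    rw [div_le_iff₀ (by positivity)]
    exact_mod_cast h6
  rw [mr, one_div, inv_mul_eq_div, le_div_iff₀ hp0]
  calc c / (2 * R) * p.2 = (p.2 / (2 * R)) * c := by ring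
    _ ≤ (p.2 / R : ℕ) * c := mul_le_mul_of_nonneg_right h3 hc
    _ ≤ _ := h1.trans h2

/-- Syndeticity of Bohr sets. -/
lemma bohr_syndetic (S : Finset ℕ) (θ : ℕ → ℝ) {τ : ℝ} (hτ : 0 < τ) :
    ∃ R : ℕ, 1 ≤ R ∧ ∀ M : ℕ, ∃ n ∈ Finset.Ioc M (M + R), ∀ q ∈ S, ∃ m : ℤ, |n * θ q - m| ≤ τ := by
  classical
  obtain ⟨N, hN⟩ := exists_nat_gt (1 / τ)
  have hN0 : (0 : ℝ) < N := lt_trans (by positivity) hN
  have hNτ : 1 / (N : ℝ) ≤ τ := by
    rw [div_le_iff₀ hN0]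
    rw [div_lt_iff₀ hτ] at hN
    linarith
  have hN1 : 0 < N := by exact_mod_cast hN0
  set b : ℕ → (S → Fin N) := fun n q => ⟨⌊Int.fract (n * θ q) * N⌋₊, by
    rw [Nat.floor_lt (mul_nonneg (Int.fract_nonneg _) hN0.le)]
    calc Int.fract (n * θ q) * N < 1 * N := mul_lt_mul_of_pos_right (Int.fract_lt_one _) hN0
      _ = N := one_mul _⟩ with hb
  have hfin : (Set.range b).Finite := Set.toFinite _
  choose g hg using fun v : Set.range b => v.2
  obtain ⟨R, hR⟩ : ∃ R : ℕ, ∀ v : Set.range b, g v ≤ R := by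
    have : Finite (Set.range b) := hfin
    obtain ⟨R, hR⟩ := (Set.finite_range g).bddAbove
    exact ⟨R, fun v => hR ⟨v, rfl⟩⟩
  refine ⟨R + 1, by omega, fun M => ?_⟩
  set n := M + 1 + R with hn
  set k := g ⟨b n, n, rfl⟩ with hk
  have hkR : k ≤ R := hR _
  have hbk : b k = b n := hg ⟨b n, n, rfl⟩
  refine ⟨n - k, ?_, ?_⟩
  · rw [Finset.mem_Ioc]; omega
  · intro q hq
    have h1 := congrArg Fin.val (congrFun hbk ⟨q, hq⟩)
    simp only [hb] at h1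
    have h2 : |Int.fract (n * θ q) * N - Int.fract (k * θ q) * N| < 1 := by
      have a1 := Nat.floor_le (mul_nonneg (Int.fract_nonneg ((n : ℝ) * θ q)) hN0.le)
      have a2 := Nat.lt_floor_add_one (Int.fract ((n : ℝ) * θ q) * N)
      have a3 := Nat.floor_le (mul_nonneg (Int.fract_nonneg ((k : ℝ) * θ q)) hN0.le)
      have a4 := Nat.lt_floor_add_one (Int.fract ((k : ℝ) * θ q) * N)
      rw [h1] at a3 a4
      rw [abs_lt]
      constructor <;> linarith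
    refine ⟨⌊(n : ℝ) * θ q⌋ - ⌊(k : ℝ) * θ q⌋, ?_⟩
    have h3 : ((n - k : ℕ) : ℝ) = n - k := by
      rw [Nat.cast_sub (by omega)]
    have h4 : ((n - k : ℕ) : ℝ) * θ q - ((⌊(n : ℝ) * θ q⌋ - ⌊(k : ℝ) * θ q⌋ : ℤ) : ℝ)
        = Int.fract (n * θ q) - Int.fract (k * θ q) := by
      rw [h3, Int.fract, Int.fract]
      push_cast
      ring
    rw [h4]
    refine le_trans ?_ hNτ
    rw [le_div_iff₀ hN0]
    have h5 : |Int.fract (n * θ q) - Int.fract (k * θ q)| * N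
        = |Int.fract (n * θ q) * N - Int.fract (k * θ q) * N| := by
      rw [← sub_mul, abs_mul, abs_of_pos hN0]
    rw [h5]
    exact h2.le

lemma cos_near {x τ : ℝ} {m : ℤ} (hτ : τ ≤ 1 / 2) (h : |x - m| ≤ τ) :
    Real.cos (2 * π * τ) ≤ Real.cos (2 * π * x) := by
  have h0 : 0 ≤ τ := (abs_nonneg _).trans h
  have e : Real.cos (2 * π * x) = Real.cos (2 * π * |x - m|) := by
    rw [← Real.cos_sub_int_mul_two_pi (2 * π * x) m]
    have : 2 * π * x - m * (2 * π) = 2 * π * (x - m) := by ring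
    rw [this, ← Real.cos_abs (2 * π * (x - m)), abs_mul, abs_of_pos (by positivity : 0 < 2 * π)]
  rw [e]
  refine Real.cos_le_cos_of_nonneg_of_le_pi (by positivity) ?_ ?_
  · nlinarith [Real.pi_pos]
  · exact mul_le_mul_of_nonneg_left h (by positivity)

lemma cos_far {x τ : ℝ} (hτ0 : 0 ≤ τ) (h : ∀ m : ℤ, τ ≤ |x - m|) :
    Real.cos (2 * π * x) ≤ Real.cos (2 * π * τ) := by
  have e : Real.cos (2 * π * x) = Real.cos (2 * π * |x - round x|) := by
    rw [← Real.cos_sub_int_mul_two_pi (2 * π * x) (round x)]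
    have : 2 * π * x - (round x) * (2 * π) = 2 * π * (x - round x) := by ring
    rw [this, ← Real.cos_abs (2 * π * (x - round x)), abs_mul, abs_of_pos (by positivity : 0 < 2 * π)]
  rw [e]
  refine Real.cos_le_cos_of_nonneg_of_le_pi (by positivity) ?_ ?_
  · have := abs_sub_round x
    nlinarith [Real.pi_pos]
  · exact mul_le_mul_of_nonneg_left (h _) (by positivity)

/-- A nonnegative trigonometric polynomial concentrated on a Bohr set. -/
theorem exists_kernel (α : ℝ) (S : Finset ℕ) {τ η : ℝ} (hτ : 0 < τ) (hτ2 : τ < 1 / 2) (hη : 0 < η) :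
    ∃ κ ∈ RT (Th α S), (∀ n, 0 ≤ κ n) ∧ (∀ n, κ n ≤ 1) ∧ 0 < Lr κ ∧
      ∀ n : ℕ, (∃ q ∈ S, ∀ m : ℤ, τ ≤ |n * (α * √(q : ℝ)) - m|) → κ n ≤ η * Lr κ := by
  classical
  set g : ℕ → ℝ := fun n => ∏ q ∈ S, (1 + Real.cos (2 * π * (n * (α * √(q : ℝ))) + 0)) / 2 with hg
  have hg_mem : g ∈ RT (Th α S) := by
    refine prod_mem_RT S fun q hq => ?_
    have h1 := add_mem_RT (const_mem_RT (Th α S) 1) (cos_mem_RT (gen_mem (α := α) hq) 0)
    have h2 := const_mul_mem_RT (1 / 2) h1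
    convert h2 using 2
    ring
  have f0 : ∀ (q n : ℕ), 0 ≤ (1 + Real.cos (2 * π * (n * (α * √(q : ℝ))) + 0)) / 2 := by
    intro q n
    have := Real.neg_one_le_cos (2 * π * (n * (α * √(q : ℝ))) + 0)
    linarith
  have f1 : ∀ (q n : ℕ), (1 + Real.cos (2 * π * (n * (α * √(q : ℝ))) + 0)) / 2 ≤ 1 := by
    intro q n
    have := Real.cos_le_one (2 * π * (n * (α * √(q : ℝ))) + 0)
    linarith
  have hg0 : ∀ n, 0 ≤ g n := fun n => Finset.prod_nonneg fun q _ => f0 q n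
  have hg1 : ∀ n, g n ≤ 1 := fun n => Finset.prod_le_one (fun q _ => f0 q n) fun q _ => f1 q n
  set c₁ : ℝ := (1 + Real.cos (2 * π * τ)) / 2 with hc₁
  have hcos : Real.cos (2 * π * τ) < 1 := by
    have h1 := Real.cos_lt_cos_of_nonneg_of_le_pi (x := 0) (y := 2 * π * τ) le_rfl
      (by nlinarith [Real.pi_pos]) (by positivity)
    rwa [Real.cos_zero] at h1
  have hc₁1 : c₁ < 1 := by rw [hc₁]; linarith
  have hc₁0 : 0 ≤ c₁ := by
    have := Real.neg_one_le_cos (2 * π * τ)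
    rw [hc₁]; linarith
  have hfar : ∀ n : ℕ, (∃ q ∈ S, ∀ m : ℤ, τ ≤ |n * (α * √(q : ℝ)) - m|) → g n ≤ c₁ := by
    rintro n ⟨q, hq, hm⟩
    rw [hg]
    simp only
    rw [← Finset.mul_prod_erase S _ hq]
    have h1 : (1 + Real.cos (2 * π * (n * (α * √(q : ℝ))) + 0)) / 2 ≤ c₁ := by
      have := cos_far hτ.le hm
      rw [add_zero, hc₁]
      linarith
    calc _ ≤ c₁ * 1 := mul_le_mul h1 (Finset.prod_le_one (fun q _ => f0 q n) fun q _ => f1 q n)
          (Finset.prod_nonneg fun q _ => f0 q n) hc₁0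
      _ = c₁ := mul_one _
  -- the near side
  set c₂ : ℝ := (1 + c₁) / 2 with hc₂
  have hc₂0 : 0 < c₂ := by rw [hc₂]; linarith
  have hc₂1 : c₂ < 1 := by rw [hc₂]; linarith
  have hc₁₂ : c₁ < c₂ := by rw [hc₂]; linarith
  obtain ⟨τ', hτ'0, hτ'2, hτ'⟩ : ∃ τ' : ℝ, 0 < τ' ∧ τ' ≤ 1 / 2 ∧
      c₂ ≤ ((1 + Real.cos (2 * π * τ')) / 2) ^ S.card := by
    have hcont : Tendsto (fun t : ℝ => ((1 + Real.cos (2 * π * t)) / 2) ^ S.card) (𝓝[>] 0) (𝓝 1) := by
      have : Continuous (fun t : ℝ => ((1 + Real.cos (2 * π * t)) / 2) ^ S.card) := by fun_prop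
      have h := (this.tendsto 0).mono_left (nhdsWithin_le_nhds (s := Ioi 0))
      simpa using h
    have h1 := hcont.eventually_const_lt hc₂1
    have h2 : ∀ᶠ t : ℝ in 𝓝[>] 0, t ∈ Ioo (0 : ℝ) (1 / 2) := Ioo_mem_nhdsGT (by norm_num)
    obtain ⟨t, ht1, ht2⟩ := (h1.and h2).exists
    exact ⟨t, ht2.1, ht2.2.le, ht1.le⟩
  obtain ⟨R, hR1, hR⟩ := bohr_syndetic S (fun q => α * √(q : ℝ)) hτ'0
  have hnear : ∀ M, ∃ n ∈ Finset.Ioc M (M + R), c₂ ≤ g n := by
    intro M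
    obtain ⟨n, hn, hq⟩ := hR M
    refine ⟨n, hn, hτ'.trans ?_⟩
    rw [hg]
    simp only
    rw [← Finset.prod_const]
    refine Finset.prod_le_prod (fun q _ => ?_) fun q hqS => ?_
    · have := Real.neg_one_le_cos (2 * π * τ')
      linarith
    · obtain ⟨m, hm⟩ := hq q hqS
      have := cos_near hτ'2 hm
      rw [add_zero]
      linarith
  -- choose `L`
  have hlim : Tendsto (fun L : ℕ => (c₁ / c₂) ^ L) atTop (𝓝 0) :=
    tendsto_pow_atTop_nhds_zero_of_lt_one (by positivity) ((div_lt_one hc₂0).mpr hc₁₂)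
  have hR0 : (0 : ℝ) < R := by exact_mod_cast hR1
  obtain ⟨L, hL⟩ := (hlim.eventually_lt_const (show (0 : ℝ) < η / (2 * R) by positivity)).exists
  have hκ : (fun n => g n ^ L) ∈ RT (Th α S) := pow_mem_RT hg_mem L
  have hρ : c₂ ^ L / (2 * R) ≤ Lr (fun n => g n ^ L) := by
    refine ge_of_tendsto (tendsto_Lr hκ) ?_
    refine mean_lower (fun n => pow_nonneg (hg0 n) L) hR1 (by positivity) fun M => ?_
    obtain ⟨n, hn, h⟩ := hnear M
    exact ⟨n, hn, pow_le_pow_left₀ hc₂0.le h L⟩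
  have hρ0 : 0 < Lr (fun n => g n ^ L) := lt_of_lt_of_le (by positivity) hρ
  refine ⟨fun n => g n ^ L, hκ, fun n => pow_nonneg (hg0 n) L, fun n => pow_le_one₀ (hg0 n) (hg1 n),
    hρ0, fun n hn => ?_⟩
  calc g n ^ L ≤ c₁ ^ L := pow_le_pow_left₀ (hg0 n) (hfar n hn) L
    _ = (c₁ / c₂) ^ L * c₂ ^ L := by rw [← mul_pow, div_mul_cancel₀ _ hc₂0.ne']
    _ ≤ η / (2 * R) * c₂ ^ L := mul_le_mul_of_nonneg_right hL.le (by positivity)
    _ = η * (c₂ ^ L / (2 * R)) := by ring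
    _ ≤ η * Lr (fun n => g n ^ L) := mul_le_mul_of_nonneg_left hρ hη.le

end

end Pool.Agent.Helper78.GC
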