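import Mathlib
import Pool.Agent.Helper22.GC.Omega
import Pool.Agent.Helper78.GC.Conc

/-!
# Grouping Hardy's series by squarefree parts
-/

open Set Filter
open scoped Real ComplexConjugate Topology

namespace Pool.Agent.Helper78.GC

open Pool.Agent.Helper22.GC (rho rho_nonneg gr gr_le TK TK_eq)

noncomputable section

/-- The part of Hardy's partial sum at the radius `α r n + s` with squarefree part `q`. -/
def X (α : ℝ) (r : ℕ) (s : ℝ) (K q : ℕ) (n : ℕ) : ℝ :=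
  ∑ j ∈ sqj K q, (1 / π * rho (q * j ^ 2)) *
    Real.cos (2 * π * (n * (((j * r : ℕ) : ℝ) * (α * √(q : ℝ)))) + (2 * π * (j * √(q : ℝ) * s) - 3 * π / 4))

lemma X_mem (α : ℝ) (r : ℕ) (s : ℝ) (K q : ℕ) : X α r s K q ∈ RT (Th α {q}) := by
  refine sum_mem_RT _ fun j _ => const_mul_mem_RT _ (cos_mem_RT ?_ _)
  exact nat_mul_gen_mem (Finset.mem_singleton_self q) _

lemma TK_decomp (α : ℝ) (r : ℕ) (s : ℝ) (K n : ℕ) :
    TK K (α * r * n + s) = ∑ q ∈ sqf K, X α r s K q n := by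
  rw [TK_eq, Finset.mul_sum, sum_sqf]
  refine Finset.sum_congr rfl fun q hq => Finset.sum_congr rfl fun j hj => ?_
  rw [mem_sqf] at hq
  rw [mem_sqj] at hj
  have hq0 : (0 : ℝ) < q := by exact_mod_cast hq.1
  have hj0 : (0 : ℝ) < j := by exact_mod_cast hj.1
  have hs : √((q * j ^ 2 : ℕ) : ℝ) = j * √(q : ℝ) := by
    push_cast
    rw [Real.sqrt_mul hq0.le, Real.sqrt_sq hj0.le, mul_comm]
  have hr : (gr (q * j ^ 2) : ℝ) / ((q * j ^ 2 : ℕ) : ℝ) ^ (3 / 4 : ℝ) = rho (q * j ^ 2) := by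
    rw [rho, Real.rpow_neg (by positivity)]
    rfl
  rw [hr, hs, ← mul_assoc]
  congr 2
  push_cast
  ring

/-- The size of the part with squarefree part `q`. -/
lemma rho_bound : ∃ C : ℝ, 0 < C ∧ ∀ k : ℕ, 1 ≤ k → rho k ≤ C * (k : ℝ) ^ (-(11 / 16) : ℝ) := by
  obtain ⟨C, hC, hgr⟩ := gr_le (ε := 1 / 16) (by norm_num)
  refine ⟨C, hC, fun k hk => ?_⟩
  have hk0 : (0 : ℝ) < k := by exact_mod_cast hk
  have h := hgr k hk
  rw [rho]
  calc (gr k : ℝ) * (k : ℝ) ^ (-(3 / 4) : ℝ) ≤ (C * (k : ℝ) ^ (1 / 16 : ℝ)) * (k : ℝ) ^ (-(3 / 4) : ℝ) := by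
        gcongr
    _ = C * ((k : ℝ) ^ (1 / 16 : ℝ) * (k : ℝ) ^ (-(3 / 4) : ℝ)) := by ring
    _ = C * (k : ℝ) ^ (-(11 / 16) : ℝ) := by
        rw [← Real.rpow_add hk0]
        norm_num

/-- The weights `j ^ (-11/8)`. -/
def cj (j : ℕ) : ℝ := (j : ℝ) ^ (-(11 / 8) : ℝ)

lemma cj_nonneg (j : ℕ) : 0 ≤ cj j := by unfold cj; positivity

lemma summable_cj : Summable cj := by
  unfold cj
  exact Real.summable_nat_rpow.mpr (by norm_num)

lemma rho_sq_le : ∃ C : ℝ, 0 < C ∧ ∀ q j : ℕ, 1 ≤ q → 1 ≤ j →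
    1 / π * rho (q * j ^ 2) ≤ C * (q : ℝ) ^ (-(11 / 16) : ℝ) * cj j := by
  obtain ⟨C, hC, h⟩ := rho_bound
  refine ⟨1 / π * C, by positivity, fun q j hq hj => ?_⟩
  have hq0 : (0 : ℝ) < q := by exact_mod_cast hq
  have hj0 : (0 : ℝ) < j := by exact_mod_cast hj
  have h1 := h (q * j ^ 2) (Nat.mul_pos hq (by positivity))
  have h2 : ((q * j ^ 2 : ℕ) : ℝ) ^ (-(11 / 16) : ℝ) = (q : ℝ) ^ (-(11 / 16) : ℝ) * cj j := by
    rw [cj]
    push_cast
    rw [Real.mul_rpow hq0.le (by positivity), ← Real.rpow_natCast (j : ℝ) 2, ← Real.rpow_mul hj0.le]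
    norm_num
  rw [h2] at h1
  calc 1 / π * rho (q * j ^ 2) ≤ 1 / π * (C * ((q : ℝ) ^ (-(11 / 16) : ℝ) * cj j)) :=
        mul_le_mul_of_nonneg_left h1 (by positivity)
    _ = _ := by ring

/-- Uniform bound for the parts. -/
theorem X_bound : ∃ A : ℝ, 0 < A ∧ ∀ (α : ℝ) (r : ℕ) (s : ℝ) (K q n : ℕ), 1 ≤ q →
    |X α r s K q n| ≤ A * (q : ℝ) ^ (-(11 / 16) : ℝ) := by
  obtain ⟨C, hC, h⟩ := rho_sq_le
  have hts : 0 ≤ ∑' j, cj j := tsum_nonneg cj_nonneg
  refine ⟨C * (∑' j, cj j) + 1, by positivity, ?_⟩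
  intro α r s K q n hq
  have hq0 : (0 : ℝ) < q := by exact_mod_cast hq
  rw [X]
  refine (Finset.abs_sum_le_sum_abs _ _).trans ?_
  have h1 : ∀ j ∈ sqj K q, |(1 / π * rho (q * j ^ 2)) * Real.cos (2 * π * (n * (((j * r : ℕ) : ℝ) *
      (α * √(q : ℝ)))) + (2 * π * (j * √(q : ℝ) * s) - 3 * π / 4))| ≤ C * (q : ℝ) ^ (-(11 / 16) : ℝ) * cj j := by
    intro j hj
    rw [mem_sqj] at hj
    rw [abs_mul, abs_of_nonneg (mul_nonneg (by positivity) (rho_nonneg _))]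
    refine (mul_le_of_le_one_right (mul_nonneg (by positivity) (rho_nonneg _)) (Real.abs_cos_le_one _)).trans ?_
    exact h q j hq hj.1
  refine (Finset.sum_le_sum h1).trans ?_
  rw [← Finset.mul_sum]
  have h2 : ∑ j ∈ sqj K q, cj j ≤ ∑' j, cj j := summable_cj.sum_le_tsum _ fun j _ => cj_nonneg j
  have h3 : 0 < (q : ℝ) ^ (-(11 / 16) : ℝ) := by positivity
  nlinarith [mul_le_mul_of_nonneg_left h2 (by positivity : 0 ≤ C * (q : ℝ) ^ (-(11 / 16) : ℝ))]

/-- Closeness to the value at phase zero. -/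
theorem X_close (α : ℝ) (r : ℕ) (s : ℝ) {q : ℕ} (hq : 1 ≤ q) {η : ℝ} (hη : 0 < η) :
    ∃ τ : ℝ, 0 < τ ∧ ∀ K n : ℕ, (∃ m : ℤ, |n * (α * √(q : ℝ)) - m| ≤ τ) →
      |X α r s K q n - X α r s K q 0| ≤ η := by
  classical
  obtain ⟨C, hC, h⟩ := rho_sq_le
  have hq0 : (0 : ℝ) < q := by exact_mod_cast hq
  have hq1 : (1 : ℝ) ≤ q := by exact_mod_cast hq
  have hqle : (q : ℝ) ^ (-(11 / 16) : ℝ) ≤ 1 := Real.rpow_le_one_of_one_le_of_nonpos hq1 (by norm_num)
  obtain ⟨S, hS⟩ := summable_iff_vanishing_norm.mp summable_cj (η / (4 * C)) (by positivity)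
  set J : ℕ := S.sup id with hJ
  set B : ℝ := ∑' j, cj j with hB
  have hB0 : 0 ≤ B := tsum_nonneg cj_nonneg
  refine ⟨η / (2 * (C * B * (2 * π * (J * r)) + 1)), by positivity, ?_⟩
  rintro K n ⟨m, hm⟩
  set D : ℝ := C * B * (2 * π * (J * r)) + 1 with hD
  have hD0 : 0 < D := by positivity
  -- termwise bound
  have t1 : ∀ j : ℕ, |Real.cos (2 * π * (n * (((j * r : ℕ) : ℝ) * (α * √(q : ℝ)))) + (2 * π * (j * √(q : ℝ) * s) - 3 * π / 4))
      - Real.cos (2 * π * ((0 : ℕ) * (((j * r : ℕ) : ℝ) * (α * √(q : ℝ)))) + (2 * π * (j * √(q : ℝ) * s) - 3 * π / 4))|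
      ≤ 2 * π * (j * r) * (η / (2 * D)) := by
    intro j
    set φ : ℝ := 2 * π * (j * √(q : ℝ) * s) - 3 * π / 4 with hφ
    have e1 : Real.cos (2 * π * (n * (((j * r : ℕ) : ℝ) * (α * √(q : ℝ)))) + φ)
        = Real.cos (2 * π * ((j * r : ℕ) : ℝ) * (n * (α * √(q : ℝ)) - m) + φ) := by
      rw [← Real.cos_sub_int_mul_two_pi _ ((j * r : ℕ) * m)]
      congr 1
      push_cast
      ring
    have e2 : 2 * π * (((0 : ℕ) : ℝ) * (((j * r : ℕ) : ℝ) * (α * √(q : ℝ)))) + φ = φ := by simp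
    rw [e1, e2]
    refine (Real.abs_cos_sub_cos_le _ _).trans ?_
    rw [add_sub_cancel_right, abs_mul, abs_of_nonneg (by positivity : (0 : ℝ) ≤ 2 * π * ((j * r : ℕ) : ℝ))]
    push_cast
    exact mul_le_mul_of_nonneg_left hm (by positivity)
  have t2 : ∀ x y : ℝ, |Real.cos x - Real.cos y| ≤ 2 := fun x y => by
    have a1 := Real.abs_cos_le_one x
    have a2 := Real.abs_cos_le_one y
    exact (abs_sub _ _).trans (by linarith)
  have e : X α r s K q n - X α r s K q 0 = ∑ j ∈ sqj K q, (1 / π * rho (q * j ^ 2)) *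
      (Real.cos (2 * π * (n * (((j * r : ℕ) : ℝ) * (α * √(q : ℝ)))) + (2 * π * (j * √(q : ℝ) * s) - 3 * π / 4))
      - Real.cos (2 * π * ((0 : ℕ) * (((j * r : ℕ) : ℝ) * (α * √(q : ℝ)))) + (2 * π * (j * √(q : ℝ) * s) - 3 * π / 4))) := by
    rw [X, X, ← Finset.sum_sub_distrib]
    exact Finset.sum_congr rfl fun j _ => by ring
  rw [e]
  refine (Finset.abs_sum_le_sum_abs _ _).trans ?_
  rw [← Finset.sum_filter_add_sum_filter_not (sqj K q) (fun j => j ∈ S)]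
  have hpos : ∀ j : ℕ, 0 ≤ 1 / π * rho (q * j ^ 2) := fun j => mul_nonneg (by positivity) (rho_nonneg _)
  have hrho : ∀ j ∈ sqj K q, 1 / π * rho (q * j ^ 2) ≤ C * cj j := by
    intro j hj
    rw [mem_sqj] at hj
    refine (h q j hq hj.1).trans ?_
    have := cj_nonneg j
    nlinarith [mul_le_mul_of_nonneg_right hqle (mul_nonneg hC.le this)]
  have p1 : ∑ j ∈ (sqj K q).filter (fun j => j ∈ S), |(1 / π * rho (q * j ^ 2)) *
      (Real.cos (2 * π * (n * (((j * r : ℕ) : ℝ) * (α * √(q : ℝ)))) + (2 * π * (j * √(q : ℝ) * s) - 3 * π / 4))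
      - Real.cos (2 * π * ((0 : ℕ) * (((j * r : ℕ) : ℝ) * (α * √(q : ℝ)))) + (2 * π * (j * √(q : ℝ) * s) - 3 * π / 4)))|
      ≤ η / 2 := by
    calc _ ≤ ∑ j ∈ (sqj K q).filter (fun j => j ∈ S), (C * cj j) * (2 * π * (J * r) * (η / (2 * D))) := by
          refine Finset.sum_le_sum fun j hj => ?_
          rw [Finset.mem_filter] at hj
          rw [abs_mul, abs_of_nonneg (hpos j)]
          have hjJ : (j : ℝ) ≤ J := by exact_mod_cast Finset.le_sup (f := id) hj.2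
          refine mul_le_mul (hrho j hj.1) ((t1 j).trans ?_) (abs_nonneg _)
            (mul_nonneg hC.le (cj_nonneg j))
          gcongr
      _ = C * (∑ j ∈ (sqj K q).filter (fun j => j ∈ S), cj j) * (2 * π * (J * r)) * (η / (2 * D)) := by
          rw [← Finset.sum_mul, ← Finset.mul_sum]; ring
      _ ≤ C * B * (2 * π * (J * r)) * (η / (2 * D)) := by
          have : ∑ j ∈ (sqj K q).filter (fun j => j ∈ S), cj j ≤ B :=
            summable_cj.sum_le_tsum _ fun j _ => cj_nonneg j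
          gcongr
      _ ≤ D * (η / (2 * D)) := by
          refine mul_le_mul_of_nonneg_right ?_ (by positivity)
          rw [hD]; linarith
      _ = η / 2 := by field_simp
  have p2 : ∑ j ∈ (sqj K q).filter (fun j => ¬ j ∈ S), |(1 / π * rho (q * j ^ 2)) *
      (Real.cos (2 * π * (n * (((j * r : ℕ) : ℝ) * (α * √(q : ℝ)))) + (2 * π * (j * √(q : ℝ) * s) - 3 * π / 4))
      - Real.cos (2 * π * ((0 : ℕ) * (((j * r : ℕ) : ℝ) * (α * √(q : ℝ)))) + (2 * π * (j * √(q : ℝ) * s) - 3 * π / 4)))|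
      ≤ η / 2 := by
    calc _ ≤ ∑ j ∈ (sqj K q).filter (fun j => ¬ j ∈ S), (C * cj j) * 2 := by
          refine Finset.sum_le_sum fun j hj => ?_
          rw [Finset.mem_filter] at hj
          rw [abs_mul, abs_of_nonneg (hpos j)]
          exact mul_le_mul (hrho j hj.1) (t2 _ _) (abs_nonneg _) (mul_nonneg hC.le (cj_nonneg j))
      _ = C * 2 * ∑ j ∈ (sqj K q).filter (fun j => ¬ j ∈ S), cj j := by
          rw [← Finset.sum_mul, ← Finset.mul_sum]; ring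
      _ ≤ C * 2 * (η / (4 * C)) := by
          refine mul_le_mul_of_nonneg_left ?_ (by positivity)
          have := hS ((sqj K q).filter (fun j => ¬ j ∈ S)) (by
            rw [Finset.disjoint_left]
            intro j hj
            exact (Finset.mem_filter.mp hj).2)
          exact (le_abs_self _).trans this.le
      _ = η / 2 := by field_simp; norm_num
  linarith

end

end Pool.Agent.Helper78.GC
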