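import Mathlib
import Pool.Agent.Helper78.GC.Decomp
import Pool.Agent.Helper78.GC.Coer

/-!
# Steering the mean values
-/

open Set Filter
open scoped Real ComplexConjugate Topology

namespace Pool.Agent.Helper78.GC

open Pool.Agent.Helper22.GC (rho rho_nonneg ee)

set_option linter.unusedSectionVars false

noncomputable section

/-- The divergence hypothesis. -/
def DivHyp : Prop := ∀ (I : Type) [Fintype I] (t : I → ℝ), Function.Injective t →
  ∀ ξ : I → ℂ, ξ ≠ 0 → Tendsto (fun N : ℕ => ∑ q ∈ (Finset.range (N + 1)).filter Squarefree,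
    rho q * ‖∑ i, ξ i * ee (√(q : ℝ) * t i)‖ ^ 2) atTop atTop

/-- The monotonicity hypothesis. -/
def SqHyp : Prop := ∀ j q : ℕ, 1 ≤ j → rho (q * j ^ 2) ≤ rho q

variable {ι : Type} [Fintype ι]

/-- The coefficient of the harmonic `h`. -/
def bet (r : ι → ℕ) (q h : ℕ) (i : ι) : ℝ := if r i ∣ h then rho (q * (h / r i) ^ 2) else 0

/-- The phase of the harmonic `h`. -/
def phs (r : ι → ℕ) (s : ι → ℝ) (q h : ℕ) (i : ι) : ℝ :=
  2 * π * (((h / r i : ℕ) : ℝ) * √(q : ℝ) * s i) - 3 * π / 4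

lemma bet_nonneg (r : ι → ℕ) (q h : ℕ) (i : ι) : 0 ≤ bet r q h i := by
  unfold bet
  split_ifs
  · exact rho_nonneg _
  · exact le_rfl

lemma bet_le (hS : SqHyp) {r : ι → ℕ} (hr : ∀ i, 1 ≤ r i) {q h : ℕ} (hh : 1 ≤ h) (i : ι) :
    bet r q h i ≤ rho q := by
  unfold bet
  split_ifs with hd
  · refine hS _ _ ?_
    exact Nat.div_pos (Nat.le_of_dvd hh hd) (hr i)
  · exact rho_nonneg _

/-- Mean of a part of Hardy's sum against one harmonic. -/
lemma Lr_X_cos {α : ℝ} {Q₀ : Finset ℕ} (hb : Bad α Q₀) {r : ι → ℕ} (s : ι → ℝ) (hr : ∀ i, 1 ≤ r i)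
    {q K h : ℕ} (hq : Squarefree q) (hq0 : q ∉ Q₀) (hh : 1 ≤ h) (hK : q * h ^ 2 ≤ K) (i : ι) (ψ : ℝ) :
    Lr (fun n => X α (r i) (s i) K q n * Real.cos (2 * π * (n * ((h : ℝ) * (α * √(q : ℝ)))) + ψ))
      = 1 / (2 * π) * (bet r q h i * Real.cos (phs r s q h i - ψ)) := by
  classical
  have hq1 : 1 ≤ q := Nat.pos_of_ne_zero hq.ne_zero
  have hgen : α * √(q : ℝ) ≠ 0 := by
    intro h0
    have := hb {q} (fun _ => 1) 0 (by simpa using hq) (by simp [h0]) q (Finset.mem_singleton_self q) hq0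
    simp at this
  have hmem : ∀ (j : ℕ) (φ : ℝ), (fun n : ℕ => Real.cos (2 * π * (n * (((j : ℕ) : ℝ) * (α * √(q : ℝ)))) + φ))
      ∈ RT (Th α {q}) := fun j φ => cos_mem_RT (nat_mul_gen_mem (Finset.mem_singleton_self q) j) φ
  have e1 : (fun n => X α (r i) (s i) K q n * Real.cos (2 * π * (n * ((h : ℝ) * (α * √(q : ℝ)))) + ψ))
      = fun n : ℕ => ∑ j ∈ sqj K q, (1 / π * rho (q * j ^ 2)) *
        (Real.cos (2 * π * (n * (((j * r i : ℕ) : ℝ) * (α * √(q : ℝ)))) + (2 * π * (j * √(q : ℝ) * s i) - 3 * π / 4))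
        * Real.cos (2 * π * (n * ((h : ℝ) * (α * √(q : ℝ)))) + ψ)) := by
    funext n
    rw [X, Finset.sum_mul]
    exact Finset.sum_congr rfl fun j _ => by ring
  rw [e1, Lr_sum (Θ := Th α {q}) _ fun j _ => const_mul_mem_RT _ (mul_mem_RT (hmem _ _) (hmem _ _))]
  have e2 : ∀ j ∈ sqj K q, Lr (fun n : ℕ => (1 / π * rho (q * j ^ 2)) *
        (Real.cos (2 * π * (n * (((j * r i : ℕ) : ℝ) * (α * √(q : ℝ)))) + (2 * π * (j * √(q : ℝ) * s i) - 3 * π / 4))
        * Real.cos (2 * π * (n * ((h : ℝ) * (α * √(q : ℝ)))) + ψ)))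
      = if j * r i = h then 1 / (2 * π) * (bet r q h i * Real.cos (phs r s q h i - ψ)) else 0 := by
    intro j hj
    rw [mem_sqj] at hj
    rw [Lr_const_mul _ (mul_mem_RT (hmem _ _) (hmem _ _))]
    have hjr : 1 ≤ j * r i := Nat.mul_pos hj.1 (hr i)
    have c1 : ¬ ∃ m : ℤ, ((j * r i : ℕ) : ℝ) * (α * √(q : ℝ)) + (h : ℝ) * (α * √(q : ℝ)) = m := by
      have := not_int hb hq hq0 (h := ((j * r i + h : ℕ) : ℤ)) (by
        have : 0 < j * r i + h := by omega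
        exact_mod_cast this.ne')
      rintro ⟨m, hm⟩
      exact this ⟨m, by rw [← hm]; push_cast; ring⟩
    have c2 : ((j * r i : ℕ) : ℝ) * (α * √(q : ℝ)) = (h : ℝ) * (α * √(q : ℝ)) ∨
        ¬ ∃ m : ℤ, ((j * r i : ℕ) : ℝ) * (α * √(q : ℝ)) - (h : ℝ) * (α * √(q : ℝ)) = m := by
      by_cases heq : j * r i = h
      · left; rw [heq]
      · right
        have := not_int hb hq hq0 (h := ((j * r i : ℕ) : ℤ) - (h : ℤ)) (by
          intro h0
          apply heq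
          omega)
        rintro ⟨m, hm⟩
        exact this ⟨m, by rw [← hm]; push_cast; ring⟩
    rw [Lr_cos_mul_cos _ _ c1 c2]
    by_cases heq : j * r i = h
    · have h1 : ((j * r i : ℕ) : ℝ) * (α * √(q : ℝ)) = (h : ℝ) * (α * √(q : ℝ)) := by rw [heq]
      rw [if_pos h1, if_pos heq]
      have hdvd : r i ∣ h := ⟨j, by rw [← heq, mul_comm]⟩
      have hdiv : h / r i = j := by
        rw [← heq]; exact Nat.mul_div_cancel _ (hr i)
      rw [bet, if_pos hdvd, phs, hdiv]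
      ring
    · have h1 : ¬ ((j * r i : ℕ) : ℝ) * (α * √(q : ℝ)) = (h : ℝ) * (α * √(q : ℝ)) := by
        intro h1
        apply heq
        have := mul_right_cancel₀ hgen h1
        exact_mod_cast this
      rw [if_neg h1, if_neg heq, mul_zero]
  rw [Finset.sum_congr rfl e2]
  by_cases hd : r i ∣ h
  · obtain ⟨j, hj⟩ := hd
    have hj1 : 1 ≤ j := by
      rcases Nat.eq_zero_or_pos j with h0 | h0
      · subst h0; simp at hj; omega
      · exact h0
    rw [Finset.sum_eq_single j]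
    · rw [if_pos (by rw [hj, mul_comm])]
    · intro j' _ hne
      rw [if_neg]
      intro h'
      apply hne
      have : j' * r i = j * r i := by rw [h', hj, mul_comm]
      exact Nat.eq_of_mul_eq_mul_right (hr i) this
    · intro hnot
      exfalso
      apply hnot
      rw [mem_sqj' hq1]
      refine ⟨hj1, le_trans ?_ hK⟩
      refine Nat.mul_le_mul_left _ (Nat.pow_le_pow_left ?_ 2)
      rw [hj]
      exact Nat.le_mul_of_pos_left _ (hr i)
  · rw [Finset.sum_eq_zero, bet, if_neg hd]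
    · ring
    · intro j _
      rw [if_neg]
      intro h'
      exact hd ⟨j, by rw [← h', mul_comm]⟩

/-- Mean of one part. -/
lemma Lr_X {α : ℝ} {Q₀ : Finset ℕ} (hb : Bad α Q₀) {r : ℕ} (s : ℝ) (hr : 1 ≤ r)
    {q K : ℕ} (hq : Squarefree q) (hq0 : q ∉ Q₀) : Lr (X α r s K q) = 0 := by
  have hmem : ∀ (j : ℕ) (φ : ℝ), (fun n : ℕ => Real.cos (2 * π * (n * (((j : ℕ) : ℝ) * (α * √(q : ℝ)))) + φ))
      ∈ RT (Th α {q}) := fun j φ => cos_mem_RT (nat_mul_gen_mem (Finset.mem_singleton_self q) j) φ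
  have e1 : X α r s K q = fun n : ℕ => ∑ j ∈ sqj K q, (1 / π * rho (q * j ^ 2)) *
        Real.cos (2 * π * (n * (((j * r : ℕ) : ℝ) * (α * √(q : ℝ)))) + (2 * π * (j * √(q : ℝ) * s) - 3 * π / 4)) := rfl
  rw [e1, Lr_sum (Θ := Th α {q}) _ fun j _ => const_mul_mem_RT _ (hmem _ _)]
  refine Finset.sum_eq_zero fun j hj => ?_
  rw [mem_sqj] at hj
  rw [Lr_const_mul _ (hmem _ _), Lr_cos, mul_zero]
  have := not_int hb hq hq0 (h := ((j * r : ℕ) : ℤ)) (by
    have : 0 < j * r := Nat.mul_pos hj.1 hr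
    exact_mod_cast this.ne')
  rintro ⟨m, hm⟩
  exact this ⟨m, by rw [← hm]; push_cast; ring⟩

/-- The steering factor. -/
def gst (α : ℝ) (r : ι → ℕ) (s : ι → ℝ) (l : ι → ℝ) (q n : ℕ) : ℝ :=
  1 + ∑ h ∈ Finset.univ.image r, ∑ i, ((1 / rho q) * l i * bet r q h i) *
    Real.cos (2 * π * (n * ((h : ℝ) * (α * √(q : ℝ)))) + phs r s q h i)

/-- The matrix entries. -/
def Mst (r : ι → ℕ) (s : ι → ℝ) (q : ℕ) (i k : ι) : ℝ :=
  ∑ h ∈ Finset.univ.image r, (1 / rho q) * (1 / (2 * π)) *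
    (bet r q h i * bet r q h k * Real.cos (phs r s q h i - phs r s q h k))

/-- The quadratic form. -/
def Ast (r : ι → ℕ) (s : ι → ℝ) (q : ℕ) (ξ : ι → ℝ) : ℝ :=
  ∑ h ∈ Finset.univ.image r, (1 / rho q) * (1 / (2 * π)) *
    ((∑ i, ξ i * bet r q h i * Real.cos (phs r s q h i)) ^ 2
      + (∑ i, ξ i * bet r q h i * Real.sin (phs r s q h i)) ^ 2)

lemma gst_mem (α : ℝ) (r : ι → ℕ) (s : ι → ℝ) (l : ι → ℝ) (q : ℕ) :
    gst α r s l q ∈ RT (Th α {q}) := by
  refine add_mem_RT (const_mem_RT _ 1) (sum_mem_RT _ fun h _ => sum_mem_RT _ fun i _ =>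
    const_mul_mem_RT _ (cos_mem_RT ?_ _))
  exact nat_mul_gen_mem (Finset.mem_singleton_self q) _

lemma gst_mean {α : ℝ} {Q₀ : Finset ℕ} (hb : Bad α Q₀) {r : ι → ℕ} (s : ι → ℝ) (hr : ∀ i, 1 ≤ r i)
    (l : ι → ℝ) {q : ℕ} (hq : Squarefree q) (hq0 : q ∉ Q₀) : Lr (gst α r s l q) = 1 := by
  have hmem : ∀ (j : ℕ) (φ : ℝ), (fun n : ℕ => Real.cos (2 * π * (n * (((j : ℕ) : ℝ) * (α * √(q : ℝ)))) + φ))
      ∈ RT (Th α {q}) := fun j φ => cos_mem_RT (nat_mul_gen_mem (Finset.mem_singleton_self q) j) φ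
  have e1 : gst α r s l q = (fun _ : ℕ => (1 : ℝ)) + (fun n : ℕ => ∑ h ∈ Finset.univ.image r,
      (fun (h n : ℕ) => ∑ i, ((1 / rho q) * l i * bet r q h i) *
    Real.cos (2 * π * (n * ((h : ℝ) * (α * √(q : ℝ)))) + phs r s q h i)) h n) := rfl
  rw [e1, Lr_add (Θ := Th α {q}) (const_mem_RT _ 1) (sum_mem_RT _ fun h _ => sum_mem_RT _ fun i _ =>
    const_mul_mem_RT _ (hmem _ _)), Lr_const, Lr_sum (Θ := Th α {q}) _ fun h _ => sum_mem_RT _ fun i _ =>
    const_mul_mem_RT _ (hmem _ _)]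
  rw [Finset.sum_eq_zero, add_zero]
  intro h hh
  rw [Finset.mem_image] at hh
  obtain ⟨i₀, _, rfl⟩ := hh
  rw [Lr_sum (Θ := Th α {q}) _ fun i _ => const_mul_mem_RT _ (hmem _ _)]
  refine Finset.sum_eq_zero fun i _ => ?_
  rw [Lr_const_mul _ (hmem _ _), Lr_cos, mul_zero]
  have := not_int hb hq hq0 (h := ((r i₀ : ℕ) : ℤ)) (by
    have := hr i₀
    omega)
  rintro ⟨m, hm⟩
  exact this ⟨m, by rw [← hm]; push_cast; ring⟩

lemma gst_X {α : ℝ} {Q₀ : Finset ℕ} (hb : Bad α Q₀) {r : ι → ℕ} (s : ι → ℝ) (hr : ∀ i, 1 ≤ r i)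
    (l : ι → ℝ) {q K : ℕ} (hq : Squarefree q) (hq0 : q ∉ Q₀)
    (hK : ∀ i, q * (r i) ^ 2 ≤ K) (i : ι) :
    Lr (fun n => gst α r s l q n * X α (r i) (s i) K q n) = ∑ k, Mst r s q i k * l k := by
  have hmem : ∀ (j : ℕ) (φ : ℝ), (fun n : ℕ => Real.cos (2 * π * (n * (((j : ℕ) : ℝ) * (α * √(q : ℝ)))) + φ))
      ∈ RT (Th α {q}) := fun j φ => cos_mem_RT (nat_mul_gen_mem (Finset.mem_singleton_self q) j) φ
  have hX := X_mem α (r i) (s i) K q
  have e1 : (fun n => gst α r s l q n * X α (r i) (s i) K q n)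
      = X α (r i) (s i) K q + (fun n : ℕ => ∑ h ∈ Finset.univ.image r,
        (fun (h n : ℕ) => ∑ k, ((1 / rho q) * l k * bet r q h k) * (X α (r i) (s i) K q n *
        Real.cos (2 * π * (n * ((h : ℝ) * (α * √(q : ℝ)))) + phs r s q h k))) h n) := by
    funext n
    simp only [gst, Pi.add_apply]
    rw [add_mul, one_mul, Finset.sum_mul]
    congr 1
    refine Finset.sum_congr rfl fun h _ => ?_
    rw [Finset.sum_mul]
    exact Finset.sum_congr rfl fun k _ => by ring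
  rw [e1, Lr_add (Θ := Th α {q}) hX (sum_mem_RT _ fun h _ => sum_mem_RT _ fun i _ =>
    const_mul_mem_RT _ (mul_mem_RT hX (hmem _ _))), Lr_X hb _ (hr i) hq hq0, zero_add,
    Lr_sum (Θ := Th α {q}) _ fun h _ => sum_mem_RT _ fun i _ =>
    const_mul_mem_RT _ (mul_mem_RT hX (hmem _ _))]
  have e2 : ∀ h ∈ Finset.univ.image r, Lr (fun n : ℕ => ∑ k, ((1 / rho q) * l k * bet r q h k) *
      (X α (r i) (s i) K q n * Real.cos (2 * π * (n * ((h : ℝ) * (α * √(q : ℝ)))) + phs r s q h k)))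
      = ∑ k, (1 / rho q) * (1 / (2 * π)) *
    (bet r q h i * bet r q h k * Real.cos (phs r s q h i - phs r s q h k)) * l k := by
    intro h hh
    rw [Finset.mem_image] at hh
    obtain ⟨i₀, _, rfl⟩ := hh
    rw [Lr_sum (Θ := Th α {q}) _ fun i _ => const_mul_mem_RT _ (mul_mem_RT hX (hmem _ _))]
    refine Finset.sum_congr rfl fun k _ => ?_
    rw [Lr_const_mul _ (mul_mem_RT hX (hmem _ _)), Lr_X_cos hb s hr hq hq0 (hr i₀) (hK i₀)]
    ring
  rw [Finset.sum_congr rfl e2, Finset.sum_comm]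
  refine Finset.sum_congr rfl fun k _ => ?_
  rw [Mst, Finset.sum_mul]

lemma Ast_nonneg (r : ι → ℕ) (s : ι → ℝ) (q : ℕ) (ξ : ι → ℝ) : 0 ≤ Ast r s q ξ := by
  refine Finset.sum_nonneg fun h _ => ?_
  have := rho_nonneg q
  positivity

lemma Ast_continuous (r : ι → ℕ) (s : ι → ℝ) (q : ℕ) : Continuous (Ast r s q) := by
  unfold Ast
  fun_prop

lemma Ast_smul (r : ι → ℕ) (s : ι → ℝ) (q : ℕ) (c : ℝ) (ξ : ι → ℝ) :
    Ast r s q (c • ξ) = c ^ 2 * Ast r s q ξ := by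
  rw [Ast, Ast, Finset.mul_sum]
  refine Finset.sum_congr rfl fun h _ => ?_
  have h1 : ∀ f : ι → ℝ, ∑ i, (c • ξ) i * bet r q h i * f i = c * ∑ i, ξ i * bet r q h i * f i := by
    intro f
    rw [Finset.mul_sum]
    exact Finset.sum_congr rfl fun i _ => by rw [Pi.smul_apply, smul_eq_mul]; ring
  rw [h1 fun i => Real.cos (phs r s q h i), h1 fun i => Real.sin (phs r s q h i)]
  ring

lemma sum_Mst (r : ι → ℕ) (s : ι → ℝ) (q : ℕ) (ξ : ι → ℝ) :
    ∑ i, ξ i * ∑ k, Mst r s q i k * ξ k = Ast r s q ξ := by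
  have h1 : ∑ i, ξ i * ∑ k, Mst r s q i k * ξ k = ∑ h ∈ Finset.univ.image r, (1 / rho q) * (1 / (2 * π)) *
      ∑ i, ∑ k, ξ i * (ξ k * (bet r q h i * bet r q h k * Real.cos (phs r s q h i - phs r s q h k))) := by
    simp only [Mst, Finset.mul_sum, Finset.sum_mul]
    rw [Finset.sum_comm' (t' := Finset.univ) (s' := fun _ => Finset.univ) (by simp)]
    rw [Finset.sum_comm]
    have : ∀ i : ι, ∑ k, ∑ h ∈ Finset.univ.image r, ξ i * (1 / rho q * (1 / (2 * π)) *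
        (bet r q h i * bet r q h k * Real.cos (phs r s q h i - phs r s q h k)) * ξ k)
        = ∑ h ∈ Finset.univ.image r, ∑ k, ξ i * (1 / rho q * (1 / (2 * π)) *
        (bet r q h i * bet r q h k * Real.cos (phs r s q h i - phs r s q h k)) * ξ k) :=
      fun i => Finset.sum_comm
    simp only [this]
    rw [Finset.sum_comm]
    refine Finset.sum_congr rfl fun h _ => Finset.sum_congr rfl fun i _ => Finset.sum_congr rfl fun k _ => ?_
    ring
  rw [h1, Ast]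
  refine Finset.sum_congr rfl fun h _ => ?_
  rw [gram]

end

end Pool.Agent.Helper78.GC
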