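import Mathlib
import Pool.Agent.Helper78.GC.Steer

/-!
# The steering theorem
-/

open Set Filter
open scoped Real ComplexConjugate Topology

namespace Pool.Agent.Helper78.GC

open Pool.Agent.Helper22.GC (rho rho_nonneg ee ee_add)

set_option linter.unusedSectionVars false

noncomputable section

variable {ι : Type} [Fintype ι]

/-- The squarefree numbers in `(N₀, N]`. -/
def TT (N₀ N : ℕ) : Finset ℕ := (sqf N).filter (fun q => N₀ < q)

lemma mem_TT {N₀ N q : ℕ} : q ∈ TT N₀ N ↔ 1 ≤ q ∧ q ≤ N ∧ Squarefree q ∧ N₀ < q := by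
  rw [TT, Finset.mem_filter, mem_sqf, and_assoc, and_assoc]

lemma sqf_eq (N : ℕ) : (Finset.range (N + 1)).filter Squarefree = sqf N := by
  ext q
  rw [Finset.mem_filter, Finset.mem_range, mem_sqf]
  constructor
  · rintro ⟨h1, h2⟩
    exact ⟨Nat.pos_of_ne_zero h2.ne_zero, by omega, h2⟩
  · rintro ⟨_, h1, h2⟩
    exact ⟨by omega, h2⟩

/-- Lower bound for the quadratic form. -/
lemma Ast_lower {r : ι → ℕ} (s : ι → ℝ) (hr : ∀ i, 1 ≤ r i) {h : ℕ} {ξ : ι → ℝ}
    (hh : h ∈ Finset.univ.image r) (hmin : ∀ i, ξ i ≠ 0 → h ≤ r i) (q : ℕ) :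
    1 / (2 * π) * (rho q * ‖∑ i : {i // r i = h}, ((ξ i : ℝ) : ℂ) * ee (√(q : ℝ) * s i)‖ ^ 2)
      ≤ Ast r s q ξ := by
  classical
  have hnn := rho_nonneg q
  have h1 : (1 / rho q) * (1 / (2 * π)) *
    ((∑ i, ξ i * bet r q h i * Real.cos (phs r s q h i)) ^ 2
      + (∑ i, ξ i * bet r q h i * Real.sin (phs r s q h i)) ^ 2) ≤ Ast r s q ξ := by
    rw [Ast]
    refine Finset.single_le_sum (f := fun h => (1 / rho q) * (1 / (2 * π)) *
    ((∑ i, ξ i * bet r q h i * Real.cos (phs r s q h i)) ^ 2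
      + (∑ i, ξ i * bet r q h i * Real.sin (phs r s q h i)) ^ 2)) (fun h _ => ?_) hh
    positivity
  refine le_trans (le_of_eq ?_) h1
  rw [gram_norm]
  have h2 : ∑ i, ((ξ i * bet r q h i : ℝ) : ℂ) * Complex.exp (phs r s q h i * Complex.I)
      = ((rho q : ℝ) : ℂ) * ee (-(3 / 8)) * ∑ i : {i // r i = h}, ((ξ i : ℝ) : ℂ) * ee (√(q : ℝ) * s i) := by
    rw [Finset.mul_sum, ← Finset.sum_subtype (Finset.univ.filter fun i => r i = h)
      (p := fun i => r i = h) (by simp)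
      (fun i => ((rho q : ℝ) : ℂ) * ee (-(3 / 8)) * (((ξ i : ℝ) : ℂ) * ee (√(q : ℝ) * s i))),
      Finset.sum_filter]
    refine Finset.sum_congr rfl fun i _ => ?_
    split_ifs with hi
    · have hd : r i ∣ h := ⟨1, by rw [hi, mul_one]⟩
      have hdiv : h / r i = 1 := by rw [hi]; exact Nat.div_self (by have := hr i; omega)
      rw [bet, if_pos hd, phs, hdiv]
      have e1 : Complex.exp (((2 * π * (((1 : ℕ) : ℝ) * √(q : ℝ) * s i) - 3 * π / 4 : ℝ) : ℂ) * Complex.I)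
          = ee (-(3 / 8)) * ee (√(q : ℝ) * s i) := by
        rw [← ee_add, ee]
        congr 1
        push_cast
        ring
      rw [e1, one_pow, mul_one]
      push_cast
      ring
    · by_cases hξ : ξ i = 0
      · rw [hξ, zero_mul]; simp
      · have h3 := hmin i hξ
        have hnd : ¬ r i ∣ h := by
          intro hd
          rcases Finset.mem_image.mp hh with ⟨i₀, _, hi₀⟩
          have h4 := Nat.le_of_dvd (by have := hr i₀; omega) hd
          omega
        rw [bet, if_neg hnd, mul_zero]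
        simp
  have h4 : ‖ee (-(3 / 8))‖ = 1 := Pool.Agent.Helper22.GC.norm_ee _
  rw [h2, norm_mul, norm_mul, h4, Complex.norm_real, Real.norm_of_nonneg hnn]
  by_cases h0 : rho q = 0
  · rw [h0]; simp
  · field_simp

lemma Ast_div (hD : DivHyp) {r : ι → ℕ} {s : ι → ℝ} (hr : ∀ i, 1 ≤ r i)
    (hrs : ∀ i k, r i = r k → s i = s k → i = k) (N₀ : ℕ) {ξ : ι → ℝ} (hξ : ξ ≠ 0) :
    Tendsto (fun N => ∑ q ∈ TT N₀ N, Ast r s q ξ) atTop atTop := by
  classical
  have hne : (Finset.univ.filter fun i => ξ i ≠ 0).Nonempty := by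
    by_contra hcon
    rw [Finset.not_nonempty_iff_eq_empty, Finset.filter_eq_empty_iff] at hcon
    apply hξ
    funext i
    simpa using hcon (Finset.mem_univ i)
  obtain ⟨i₀, hi₀, hmin⟩ := Finset.exists_min_image _ r hne
  set h := r i₀ with hh
  have hmin' : ∀ i, ξ i ≠ 0 → h ≤ r i := fun i hi => hmin i (Finset.mem_filter.mpr ⟨Finset.mem_univ _, hi⟩)
  have hi₀' : ξ i₀ ≠ 0 := (Finset.mem_filter.mp hi₀).2
  have hdiv := hD {i // r i = h} (fun i => s i) (by
    intro i k hik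
    exact Subtype.ext (hrs i k (by rw [i.2, k.2]) hik)) (fun i => ((ξ i : ℝ) : ℂ)) (by
    intro h0
    have := congrFun h0 ⟨i₀, rfl⟩
    simp at this
    exact hi₀' this)
  simp only [sqf_eq] at hdiv
  set f : ℕ → ℝ := fun q => rho q * ‖∑ i : {i // r i = h}, ((ξ i : ℝ) : ℂ) * ee (√(q : ℝ) * s i)‖ ^ 2 with hf
  have hf0 : ∀ q, 0 ≤ f q := fun q => mul_nonneg (rho_nonneg q) (by positivity)
  have hlow : ∀ N, 1 / (2 * π) * (∑ q ∈ sqf N, f q - ∑ q ∈ sqf N₀, f q) ≤ ∑ q ∈ TT N₀ N, Ast r s q ξ := by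
    intro N
    have h1 : ∑ q ∈ TT N₀ N, 1 / (2 * π) * f q ≤ ∑ q ∈ TT N₀ N, Ast r s q ξ :=
      Finset.sum_le_sum fun q _ => Ast_lower s hr (Finset.mem_image.mpr ⟨i₀, Finset.mem_univ _, rfl⟩) hmin' q
    refine le_trans ?_ h1
    rw [← Finset.mul_sum]
    refine mul_le_mul_of_nonneg_left ?_ (by positivity)
    have h2 : ∑ q ∈ sqf N, f q ≤ ∑ q ∈ TT N₀ N, f q + ∑ q ∈ sqf N₀, f q := by
      rw [← Finset.sum_filter_add_sum_filter_not (sqf N) (fun q => N₀ < q)]
      refine add_le_add le_rfl (Finset.sum_le_sum_of_subset_of_nonneg ?_ fun q _ _ => hf0 q)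
      intro q hq
      rw [Finset.mem_filter, mem_sqf] at hq
      rw [mem_sqf]
      exact ⟨hq.1.1, by omega, hq.1.2.2⟩
    linarith
  refine tendsto_atTop_mono hlow ?_
  exact (tendsto_atTop_add_const_right _ _ hdiv).const_mul_atTop (by positivity)

/-- The steering theorem. -/
theorem steer (hD : DivHyp) (hS : SqHyp) {α : ℝ} {Q₀ : Finset ℕ} (hb : Bad α Q₀) {r : ι → ℕ}
    {s : ι → ℝ} (hr : ∀ i, 1 ≤ r i) (hrs : ∀ i k, r i = r k → s i = s k → i = k) (N₀ : ℕ)
    (hN₀ : ∀ q ∈ Q₀, q ≤ N₀) (Z : ℝ) :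
    ∃ N : ℕ, N₀ ≤ N ∧ ∀ z : ι → ℝ, ‖z‖ ≤ Z → ∃ g : ℕ → ℕ → ℝ,
      (∀ q ∈ TT N₀ N, g q ∈ RT (Th α {q}) ∧ (∀ n, 0 ≤ g q n) ∧ (∀ n, g q n ≤ 2) ∧ Lr (g q) = 1) ∧
      ∀ K : ℕ, (∀ i, N * (r i) ^ 2 ≤ K) → ∀ i,
        ∑ q ∈ TT N₀ N, Lr (fun n => g q n * X α (r i) (s i) K q n) = z i := by
  classical
  set Rn : ℝ := ((Finset.univ.image r).card : ℝ) with hRn
  set cι : ℝ := (Fintype.card ι : ℝ) with hcι
  set Λ : ℝ := cι * cι * Rn * max Z 0 + 1 with hΛ
  have hZ0 : 0 ≤ max Z 0 := le_max_right _ _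
  have hΛ0 : 0 < Λ := by positivity
  have hmonoT : Monotone (TT N₀) := by
    intro M N hMN q hq
    rw [mem_TT] at hq ⊢
    exact ⟨hq.1, by omega, hq.2.2⟩
  obtain ⟨N₁, hN₁⟩ := coercive (Ast r s) (Ast_continuous r s) (Ast_nonneg r s) (Ast_smul r s)
    (TT N₀) hmonoT (fun ξ hξ => Ast_div hD hr hrs N₀ hξ) Λ
  set N := max N₁ N₀ with hN
  refine ⟨N, le_max_right _ _, fun z hz => ?_⟩
  have hco := hN₁ N (le_max_left _ _)
  -- the linear map
  set F : (ι → ℝ) →ₗ[ℝ] (ι → ℝ) :=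
    { toFun := fun l i => ∑ q ∈ TT N₀ N, ∑ k, Mst r s q i k * l k
      map_add' := by
        intro x y
        funext i
        simp only [Pi.add_apply, mul_add, Finset.sum_add_distrib]
      map_smul' := by
        intro c x
        funext i
        simp only [Pi.smul_apply, smul_eq_mul, RingHom.id_apply, Finset.mul_sum]
        refine Finset.sum_congr rfl fun q _ => Finset.sum_congr rfl fun k _ => ?_
        ring } with hF
  have hFapp : ∀ l i, F l i = ∑ q ∈ TT N₀ N, ∑ k, Mst r s q i k * l k := fun l i => rfl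
  have hFq : ∀ ξ, ∑ i, ξ i * F ξ i = ∑ q ∈ TT N₀ N, Ast r s q ξ := by
    intro ξ
    simp only [hFapp, Finset.mul_sum]
    rw [Finset.sum_comm]
    refine Finset.sum_congr rfl fun q _ => ?_
    rw [← sum_Mst]
    simp only [Finset.mul_sum]
  obtain ⟨l, hl, hlb⟩ := solve F hΛ0 (fun ξ => by rw [hFq]; exact hco ξ) z
  have hlsum : Rn * ∑ i, |l i| ≤ 1 := by
    have h1 : ∑ i, |l i| ≤ cι * ‖l‖ := by
      calc ∑ i, |l i| ≤ ∑ _i : ι, ‖l‖ := Finset.sum_le_sum fun i _ => norm_le_pi_norm l i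
        _ = _ := by rw [Finset.sum_const, Finset.card_univ, nsmul_eq_mul]
    have h2 : Λ * ‖l‖ ≤ cι * max Z 0 := hlb.trans (by
      refine mul_le_mul_of_nonneg_left (hz.trans (le_max_left _ _)) (by positivity))
    have h3 : Λ * (Rn * ∑ i, |l i|) ≤ Λ := by
      calc Λ * (Rn * ∑ i, |l i|) ≤ Λ * (Rn * (cι * ‖l‖)) := by gcongr
        _ = Rn * cι * (Λ * ‖l‖) := by ring
        _ ≤ Rn * cι * (cι * max Z 0) := by gcongr
        _ ≤ Λ := by rw [hΛ]; nlinarith
    have h4 : Λ * (Rn * ∑ i, |l i|) ≤ Λ * 1 := by rwa [mul_one]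
    exact le_of_mul_le_mul_left h4 hΛ0
  refine ⟨gst α r s l, fun q hq => ?_, fun K hK i => ?_⟩
  · rw [mem_TT] at hq
    have hq0 : q ∉ Q₀ := fun h => by have := hN₀ q h; omega
    have habs : ∀ n, |∑ h ∈ Finset.univ.image r, ∑ i, ((1 / rho q) * l i * bet r q h i) *
        Real.cos (2 * π * (n * ((h : ℝ) * (α * √(q : ℝ)))) + phs r s q h i)| ≤ 1 := by
      intro n
      refine le_trans ?_ hlsum
      refine (Finset.abs_sum_le_sum_abs _ _).trans ?_
      have h1 : ∀ h ∈ Finset.univ.image r, |∑ i, ((1 / rho q) * l i * bet r q h i) *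
        Real.cos (2 * π * (n * ((h : ℝ) * (α * √(q : ℝ)))) + phs r s q h i)| ≤ ∑ i, |l i| := by
        intro h hh
        rw [Finset.mem_image] at hh
        obtain ⟨i₀, _, rfl⟩ := hh
        refine (Finset.abs_sum_le_sum_abs _ _).trans (Finset.sum_le_sum fun i _ => ?_)
        rw [abs_mul, abs_mul, abs_mul, abs_of_nonneg (bet_nonneg r q _ i),
          abs_of_nonneg (div_nonneg zero_le_one (rho_nonneg q))]
        have hle := bet_le hS hr (q := q) (hr i₀) i
        have h2 : 1 / rho q * bet r q (r i₀) i ≤ 1 := by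
          by_cases h0 : rho q = 0
          · rw [h0]; simp
          · have hpos : 0 < rho q := lt_of_le_of_ne (rho_nonneg q) (Ne.symm h0)
            rw [one_div, inv_mul_eq_div, div_le_one hpos]
            exact hle
        calc 1 / rho q * |l i| * bet r q (r i₀) i * |Real.cos _|
            ≤ 1 / rho q * |l i| * bet r q (r i₀) i * 1 := by
              refine mul_le_mul_of_nonneg_left (Real.abs_cos_le_one _) ?_
              have := rho_nonneg q
              have := bet_nonneg r q (r i₀) i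
              positivity
          _ = |l i| * (1 / rho q * bet r q (r i₀) i) := by ring
          _ ≤ |l i| * 1 := mul_le_mul_of_nonneg_left h2 (abs_nonneg _)
          _ = |l i| := mul_one _
      refine (Finset.sum_le_sum h1).trans (le_of_eq ?_)
      rw [Finset.sum_const, nsmul_eq_mul]
    refine ⟨gst_mem α r s l q, fun n => ?_, fun n => ?_, gst_mean hb s hr l hq.2.2.1 hq0⟩
    · have := (abs_le.mp (habs n)).1
      rw [gst]; linarith
    · have := (abs_le.mp (habs n)).2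
      rw [gst]; linarith
  · rw [← hl, hFapp]
    refine Finset.sum_congr rfl fun q hq => ?_
    rw [mem_TT] at hq
    have hq0 : q ∉ Q₀ := fun h => by have := hN₀ q h; omega
    exact gst_X hb s hr l hq.2.2.1 hq0 (fun k => (Nat.mul_le_mul_right _ hq.2.1).trans (hK k)) i

end

end Pool.Agent.Helper78.GC
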