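import Mathlib
import Pool.Agent.Helper78.GC.Steer2

/-!
# Weighted second moments
-/

open Set Filter
open scoped Real ComplexConjugate Topology

namespace Pool.Agent.Helper78.GC

open Pool.Agent.Helper22.GC (rho rho_nonneg TK)

noncomputable section

/-- Weighted second moment of a sum of independent centred terms. -/
lemma Lr_var {α : ℝ} {Q₀ : Finset ℕ} (hb : Bad α Q₀) {S₀ : Finset ℕ}
    (hS₀ : ∀ q ∈ S₀, Squarefree q) {κ : ℕ → ℝ} (hκ : κ ∈ RT (Th α S₀)) (T : Finset ℕ)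
    (hT : ∀ q ∈ T, Squarefree q) (hTS : Disjoint S₀ T) (hT0 : ∀ q ∈ T, q ∉ Q₀)
    (g Y : ℕ → ℕ → ℝ) (hg : ∀ q ∈ T, g q ∈ RT (Th α {q})) (hg1 : ∀ q ∈ T, Lr (g q) = 1)
    (hY : ∀ q ∈ T, Y q ∈ RT (Th α {q})) (hgY : ∀ q ∈ T, Lr (fun n => g q n * Y q n) = 0) :
    Lr (fun n => (κ n * ∏ q ∈ T, g q n) * (∑ q ∈ T, Y q n) ^ 2)
      = Lr κ * ∑ q ∈ T, Lr (fun n => g q n * Y q n ^ 2) := by
  classical
  have hsub : ∀ q ∈ T, Th α {q} ≤ Th α (S₀ ∪ T) := fun q hq => Th_mono (by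
    intro x hx; rw [Finset.mem_singleton] at hx; subst hx
    exact Finset.mem_union_right _ hq)
  set f : ℕ → ℕ → ℕ → ℕ → ℝ := fun a b q n =>
    g q n * (if q = a then Y a n else 1) * (if q = b then Y b n else 1) with hf
  have e1 : (fun n => (κ n * ∏ q ∈ T, g q n) * (∑ q ∈ T, Y q n) ^ 2)
      = fun n : ℕ => ∑ a ∈ T, (fun (a n : ℕ) => ∑ b ∈ T, κ n * ∏ q ∈ T, f a b q n) a n := by
    funext n
    rw [pow_two, Finset.sum_mul_sum, Finset.mul_sum]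
    refine Finset.sum_congr rfl fun a ha => ?_
    rw [Finset.mul_sum]
    refine Finset.sum_congr rfl fun b hb' => ?_
    simp only [hf, Finset.prod_mul_distrib, Finset.prod_ite_eq', if_pos ha, if_pos hb']
    ring
  have hfm : ∀ a ∈ T, ∀ b ∈ T, ∀ q ∈ T, f a b q ∈ RT (Th α {q}) := by
    intro a ha b hb' q hq
    refine mul_mem_RT (mul_mem_RT (hg q hq) ?_) ?_
    · by_cases h : q = a
      · subst h; simpa using hY q hq
      · simp only [if_neg h]; exact const_mem_RT _ 1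
    · by_cases h : q = b
      · subst h; simpa using hY q hq
      · simp only [if_neg h]; exact const_mem_RT _ 1
  have hmem : ∀ a ∈ T, ∀ b ∈ T, (fun n => κ n * ∏ q ∈ T, f a b q n) ∈ RT (Th α (S₀ ∪ T)) := by
    intro a ha b hb'
    refine mul_mem_RT (RT_mono (Th_mono Finset.subset_union_left) hκ) (prod_mem_RT T fun q hq => ?_)
    exact RT_mono (hsub q hq) (hfm a ha b hb' q hq)
  rw [e1, Lr_sum (Θ := Th α (S₀ ∪ T)) T fun a ha => sum_mem_RT T fun b hb' => hmem a ha b hb',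
    Finset.mul_sum]
  refine Finset.sum_congr rfl fun a ha => ?_
  rw [Lr_sum (Θ := Th α (S₀ ∪ T)) T fun b hb' => hmem a ha b hb', Finset.sum_eq_single a]
  · rw [Lr_prod hb hS₀ hκ T hT hTS hT0 _ (hfm a ha a ha), Finset.prod_eq_single a]
    · congr 2
      funext n
      simp only [hf, if_true]
      ring
    · intro q hq hqa
      have : f a a q = g q := by
        funext n
        simp only [hf, if_neg hqa, mul_one]
      rw [this, hg1 q hq]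
    · intro h; exact absurd ha h
  · intro b hb' hba
    rw [Lr_prod hb hS₀ hκ T hT hTS hT0 _ (hfm a ha b hb')]
    have : Lr (f a b a) = 0 := by
      rw [← hgY a ha]
      congr 1
      funext n
      simp only [hf, if_true, if_neg (Ne.symm hba), mul_one]
    rw [Finset.prod_eq_zero ha this, mul_zero]
  · intro h; exact absurd ha h

/-- The weight in mean square against a bounded part. -/
lemma Lr_kernel_sq {Θ : AddSubgroup ℝ} {κ e : ℕ → ℝ} (hκ : κ ∈ RT Θ) (he : e ∈ RT Θ)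
    (hκ0 : ∀ n, 0 ≤ κ n) {a E η : ℝ} (hη : 0 ≤ η) (hρ : 0 ≤ Lr κ)
    (h : ∀ n, |e n| ≤ a ∨ (|e n| ≤ E ∧ κ n ≤ η * Lr κ)) :
    Lr (fun n => κ n * e n ^ 2) ≤ (a ^ 2 + E ^ 2 * η) * Lr κ := by
  have h1 : ∀ n, κ n * e n ^ 2 ≤ a ^ 2 * κ n + E ^ 2 * (η * Lr κ) := by
    intro n
    rcases h n with h1 | ⟨h1, h2⟩
    · have h3 : e n ^ 2 ≤ a ^ 2 := sq_le_sq' (by linarith [(abs_le.mp h1).1]) (abs_le.mp h1).2
      have h4 := mul_le_mul_of_nonneg_left h3 (hκ0 n)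
      have h5 : 0 ≤ E ^ 2 * (η * Lr κ) := by positivity
      linarith
    · have h3 : e n ^ 2 ≤ E ^ 2 := sq_le_sq' (by linarith [(abs_le.mp h1).1]) (abs_le.mp h1).2
      have h4 : κ n * e n ^ 2 ≤ (η * Lr κ) * E ^ 2 :=
        mul_le_mul h2 h3 (sq_nonneg _) (by positivity)
      have h5 : 0 ≤ a ^ 2 * κ n := mul_nonneg (sq_nonneg _) (hκ0 n)
      linarith
  have h2 := Lr_mono (mul_mem_RT hκ (pow_mem_RT he 2))
    (add_mem_RT (const_mul_mem_RT (a ^ 2) hκ) (const_mem_RT Θ (E ^ 2 * (η * Lr κ)))) h1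
  have h3 : Lr (fun n => a ^ 2 * κ n + E ^ 2 * (η * Lr κ)) = a ^ 2 * Lr κ + E ^ 2 * (η * Lr κ) := by
    have := Lr_add (const_mul_mem_RT (a ^ 2) hκ) (const_mem_RT Θ (E ^ 2 * (η * Lr κ)))
    rw [Lr_const_mul _ hκ, Lr_const] at this
    exact this
  rw [h3] at h2
  linarith

lemma Lr_g_le {Θ : AddSubgroup ℝ} {g Y : ℕ → ℝ} (hg : g ∈ RT Θ) (hY : Y ∈ RT Θ) (hg0 : ∀ n, 0 ≤ g n)
    (hg1 : Lr g = 1) {B : ℝ} (hB : ∀ n, Y n ≤ B) : Lr (fun n => g n * Y n) ≤ B := by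
  have h1 := Lr_mono (mul_mem_RT hg hY) (const_mul_mem_RT B hg) (fun n => by
    rw [mul_comm B]; exact mul_le_mul_of_nonneg_left (hB n) (hg0 n))
  rwa [Lr_const_mul _ hg, hg1, mul_one] at h1

lemma abs_Lr_g_le {Θ : AddSubgroup ℝ} {g Y : ℕ → ℝ} (hg : g ∈ RT Θ) (hY : Y ∈ RT Θ)
    (hg0 : ∀ n, 0 ≤ g n) (hg1 : Lr g = 1) {B : ℝ} (hB : ∀ n, |Y n| ≤ B) :
    |Lr (fun n => g n * Y n)| ≤ B := by
  rw [abs_le]
  constructor
  · have h1 := Lr_mono (const_mul_mem_RT (-B) hg) (mul_mem_RT hg hY) (fun n => by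
      rw [mul_comm (-B)]; exact mul_le_mul_of_nonneg_left (abs_le.mp (hB n)).1 (hg0 n))
    rwa [Lr_const_mul _ hg, hg1, mul_one] at h1
  · exact Lr_g_le hg hY hg0 hg1 fun n => (abs_le.mp (hB n)).2

/-- The weighted second moment for one coordinate. -/
theorem weighted_moment {α : ℝ} {Q₀ : Finset ℕ} (hb : Bad α Q₀) {N₀ K : ℕ}
    (hN₀ : ∀ q ∈ Q₀, q ≤ N₀) {κ : ℕ → ℝ} (hκ : κ ∈ RT (Th α (sqf N₀))) (hκ0 : ∀ n, 0 ≤ κ n)
    (hρ : 0 ≤ Lr κ) (g : ℕ → ℕ → ℝ) (hg : ∀ q ∈ TT N₀ K, g q ∈ RT (Th α {q}))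
    (hg0 : ∀ q ∈ TT N₀ K, ∀ n, 0 ≤ g q n) (hg1 : ∀ q ∈ TT N₀ K, Lr (g q) = 1)
    (e : ℕ → ℝ) (he : e ∈ RT (Th α (sqf N₀))) {a E η : ℝ} (hη : 0 ≤ η)
    (hae : ∀ n, |e n| ≤ a ∨ (|e n| ≤ E ∧ κ n ≤ η * Lr κ))
    (x : ℕ → ℕ → ℝ) (hx : ∀ q ∈ TT N₀ K, x q ∈ RT (Th α {q})) (B : ℕ → ℝ)
    (hB : ∀ q ∈ TT N₀ K, ∀ n, |x q n| ≤ B q) :
    Lr (fun n => (κ n * ∏ q ∈ TT N₀ K, g q n) *
      (e n + (∑ q ∈ TT N₀ K, x q n - ∑ q ∈ TT N₀ K, Lr (fun n => g q n * x q n))) ^ 2)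
      ≤ (2 * (a ^ 2 + E ^ 2 * η) + 8 * ∑ q ∈ TT N₀ K, B q ^ 2) * Lr κ := by
  classical
  set T := TT N₀ K with hT
  have hTsq : ∀ q ∈ T, Squarefree q := fun q hq => (mem_TT.mp hq).2.2.1
  have hSsq : ∀ q ∈ sqf N₀, Squarefree q := fun q hq => (mem_sqf.mp hq).2.2
  have hTS : Disjoint (sqf N₀) T := by
    rw [Finset.disjoint_left]
    intro q hq hq'
    have h1 := (mem_sqf.mp hq).2.1
    have h2 := (mem_TT.mp hq').2.2.2
    omega
  have hT0 : ∀ q ∈ T, q ∉ Q₀ := fun q hq h => by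
    have h1 := hN₀ q h
    have h2 := (mem_TT.mp hq).2.2.2
    omega
  set m : ℕ → ℝ := fun q => Lr (fun n => g q n * x q n) with hm
  set Y : ℕ → ℕ → ℝ := fun q n => x q n - m q with hY
  have hYm : ∀ q ∈ T, Y q ∈ RT (Th α {q}) := fun q hq => sub_mem_RT (hx q hq) (const_mem_RT _ _)
  have hgY : ∀ q ∈ T, Lr (fun n => g q n * Y q n) = 0 := by
    intro q hq
    have e1 : (fun n => g q n * Y q n) = (fun n => g q n * x q n) + (fun n => (-m q) * g q n) := by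
      funext n
      simp only [hY, Pi.add_apply]; ring
    rw [e1, Lr_add (mul_mem_RT (hg q hq) (hx q hq)) (const_mul_mem_RT _ (hg q hq)),
      Lr_const_mul _ (hg q hq), hg1 q hq]
    simp only [hm]; ring
  have hYb : ∀ q ∈ T, ∀ n, Y q n ^ 2 ≤ 4 * B q ^ 2 := by
    intro q hq n
    have h1 := hB q hq n
    have h2 := abs_Lr_g_le (hg q hq) (hx q hq) (hg0 q hq) (hg1 q hq) (hB q hq)
    have h3 : |Y q n| ≤ 2 * B q := by
      simp only [hY]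
      exact (abs_sub _ _).trans (by simp only [hm]; linarith)
    have h4 : Y q n ^ 2 ≤ (2 * B q) ^ 2 := sq_le_sq' (by linarith [(abs_le.mp h3).1]) (abs_le.mp h3).2
    linarith
  have hΘ : ∀ q ∈ T, RT (Th α {q}) ≤ RT (Th α (sqf N₀ ∪ T)) := fun q hq => RT_mono (Th_mono (by
    intro y hy; rw [Finset.mem_singleton] at hy; subst hy
    exact Finset.mem_union_right _ hq))
  have hΘ0 : RT (Th α (sqf N₀)) ≤ RT (Th α (sqf N₀ ∪ T)) := RT_mono (Th_mono Finset.subset_union_left)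
  set w : ℕ → ℝ := fun n => κ n * ∏ q ∈ T, g q n with hw
  have hwm : w ∈ RT (Th α (sqf N₀ ∪ T)) :=
    mul_mem_RT (hΘ0 hκ) (prod_mem_RT T fun q hq => hΘ q hq (hg q hq))
  have hw0 : ∀ n, 0 ≤ w n := fun n => mul_nonneg (hκ0 n) (Finset.prod_nonneg fun q hq => hg0 q hq n)
  have hYsum : (fun n => ∑ q ∈ T, Y q n) ∈ RT (Th α (sqf N₀ ∪ T)) :=
    sum_mem_RT T fun q hq => hΘ q hq (hYm q hq)
  -- pointwise
  have p1 : ∀ n, w n * (e n + (∑ q ∈ T, x q n - ∑ q ∈ T, m q)) ^ 2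
      ≤ 2 * (w n * e n ^ 2) + 2 * (w n * (∑ q ∈ T, Y q n) ^ 2) := by
    intro n
    have h1 : ∑ q ∈ T, Y q n = ∑ q ∈ T, x q n - ∑ q ∈ T, m q := by
      simp only [hY, Finset.sum_sub_distrib]
    rw [← h1]
    have h2 : (e n + ∑ q ∈ T, Y q n) ^ 2 ≤ 2 * e n ^ 2 + 2 * (∑ q ∈ T, Y q n) ^ 2 := by
      nlinarith [sq_nonneg (e n - ∑ q ∈ T, Y q n)]
    have h3 := mul_le_mul_of_nonneg_left h2 (hw0 n)
    linarith
  have hlhs : (fun n => w n * (e n + (∑ q ∈ T, x q n - ∑ q ∈ T, m q)) ^ 2) ∈ RT (Th α (sqf N₀ ∪ T)) := by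
    refine mul_mem_RT hwm (pow_mem_RT (add_mem_RT (hΘ0 he) (sub_mem_RT ?_ (const_mem_RT _ _))) 2)
    exact sum_mem_RT T fun q hq => hΘ q hq (hx q hq)
  have m1 : (fun n => w n * e n ^ 2) ∈ RT (Th α (sqf N₀ ∪ T)) := mul_mem_RT hwm (pow_mem_RT (hΘ0 he) 2)
  have m2 : (fun n => w n * (∑ q ∈ T, Y q n) ^ 2) ∈ RT (Th α (sqf N₀ ∪ T)) :=
    mul_mem_RT hwm (pow_mem_RT hYsum 2)
  have h1 := Lr_mono hlhs (add_mem_RT (const_mul_mem_RT 2 m1) (const_mul_mem_RT 2 m2)) p1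
  have h2 : Lr (fun n => 2 * (w n * e n ^ 2) + 2 * (w n * (∑ q ∈ T, Y q n) ^ 2))
      = 2 * Lr (fun n => w n * e n ^ 2) + 2 * Lr (fun n => w n * (∑ q ∈ T, Y q n) ^ 2) := by
    have := Lr_add (const_mul_mem_RT 2 m1) (const_mul_mem_RT 2 m2)
    rw [Lr_const_mul _ m1, Lr_const_mul _ m2] at this
    exact this
  have h3 : Lr (fun n => w n * e n ^ 2) ≤ (a ^ 2 + E ^ 2 * η) * Lr κ := by
    have e1 : (fun n => w n * e n ^ 2) = fun n => (κ n * e n ^ 2) * ∏ q ∈ T, g q n := by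
      funext n; simp only [hw]; ring
    rw [e1, Lr_prod hb hSsq (mul_mem_RT hκ (pow_mem_RT he 2)) T hTsq hTS hT0 g hg,
      Finset.prod_congr rfl hg1, Finset.prod_const_one, mul_one]
    exact Lr_kernel_sq hκ he hκ0 hη hρ hae
  have h4 : Lr (fun n => w n * (∑ q ∈ T, Y q n) ^ 2) ≤ (4 * ∑ q ∈ T, B q ^ 2) * Lr κ := by
    rw [Lr_var hb hSsq hκ T hTsq hTS hT0 g Y hg hg1 hYm hgY, mul_comm (Lr κ), Finset.mul_sum]
    refine mul_le_mul_of_nonneg_right (Finset.sum_le_sum fun q hq => ?_) hρ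
    exact Lr_g_le (hg q hq) (pow_mem_RT (hYm q hq) 2) (hg0 q hq) (hg1 q hq) (hYb q hq)
  rw [h2] at h1
  linarith

end

end Pool.Agent.Helper78.GC
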