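import Mathlib
import Pool.Agent.Helper78.GC.Var

/-!
# Weights which force Hardy's partial sums to given values
-/

open Set Filter
open scoped Real ComplexConjugate Topology

namespace Pool.Agent.Helper78.GC

open Pool.Agent.Helper22.GC (rho rho_nonneg TK)

noncomputable section

lemma exists_pos_lower {β : Type*} (S : Finset β) (f : β → ℝ) (hf : ∀ b ∈ S, 0 < f b) :
    ∃ τ : ℝ, 0 < τ ∧ τ < 1 / 2 ∧ ∀ b ∈ S, τ ≤ f b := by
  classical
  induction S using Finset.induction_on with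
  | empty => exact ⟨1 / 4, by norm_num, by norm_num, by simp⟩
  | insert a S ha ih =>
    obtain ⟨τ, h0, h1, h2⟩ := ih fun b hb => hf b (Finset.mem_insert_of_mem hb)
    refine ⟨min τ (f a), lt_min h0 (hf a (Finset.mem_insert_self _ _)),
      lt_of_le_of_lt (min_le_left _ _) h1, ?_⟩
    intro b hb
    rcases Finset.mem_insert.mp hb with rfl | hb
    · exact min_le_right _ _
    · exact (min_le_left _ _).trans (h2 b hb)

theorem weights {ι : Type} [Fintype ι] (hD : DivHyp) (hS : SqHyp) {α : ℝ} (hα : 0 < α)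
    {r : ι → ℕ} {s : ι → ℝ} (hr : ∀ i, 1 ≤ r i) (hrs : ∀ i k, r i = r k → s i = s k → i = k)
    (y : ι → ℝ) {δ : ℝ} (hδ : 0 < δ) :
    ∃ (ρ W : ℝ) (K₁ : ℕ), 0 < ρ ∧ 0 < W ∧ ∀ K ≥ K₁, ∃ w ∈ RT ⊤, (∀ n, 0 ≤ w n) ∧ (∀ n, w n ≤ W) ∧
      Lr w = ρ ∧ ∀ i, Lr (fun n => w n * (TK K (α * r i * n + s i) - y i) ^ 2) ≤ δ * ρ := by
  classical
  obtain ⟨Q₀, hb⟩ : ∃ Q₀, Bad α Q₀ := exists_bad hα
  obtain ⟨A, hA, hX⟩ := X_bound
  set B : ℕ → ℝ := fun q => A * (q : ℝ) ^ (-(11 / 16) : ℝ) with hBdef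
  have hB0 : ∀ q, 0 ≤ B q := fun q => by simp only [hBdef]; positivity
  have hBsum : Summable fun q => B q ^ 2 := by
    have h1 : (fun q : ℕ => B q ^ 2) = fun q : ℕ => A ^ 2 * (q : ℝ) ^ (-(11 / 8) : ℝ) := by
      funext q
      simp only [hBdef]
      rw [mul_pow, ← Real.rpow_natCast ((q : ℝ) ^ (-(11 / 16) : ℝ)) 2, ← Real.rpow_mul (Nat.cast_nonneg q)]
      norm_num
    rw [h1]
    exact (Real.summable_nat_rpow.mpr (by norm_num)).mul_left _
  obtain ⟨S, hSv⟩ := summable_iff_vanishing_norm.mp hBsum (δ / 16) (by positivity)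
  set N₀ : ℕ := max (Q₀.sup id) (S.sup id) with hN₀
  have hQN : ∀ q ∈ Q₀, q ≤ N₀ := fun q hq => (Finset.le_sup (f := id) hq).trans (le_max_left _ _)
  have htail : ∀ K, ∑ q ∈ TT N₀ K, B q ^ 2 ≤ δ / 16 := by
    intro K
    have h1 := hSv (TT N₀ K) (by
      rw [Finset.disjoint_left]
      intro q hq hqS
      have h1 := (mem_TT.mp hq).2.2.2
      have h2 : q ≤ S.sup id := Finset.le_sup (f := id) hqS
      have h3 : S.sup id ≤ N₀ := le_max_right _ _
      omega)
    exact (le_abs_self _).trans h1.le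
  set E : ℝ := ∑ q ∈ sqf N₀, 2 * B q with hE
  have hE0 : 0 ≤ E := Finset.sum_nonneg fun q _ => by have := hB0 q; positivity
  set a : ℝ := √(δ / 8) with ha
  have ha2 : a ^ 2 = δ / 8 := Real.sq_sqrt (by positivity)
  have ha0 : 0 < a := Real.sqrt_pos.mpr (by positivity)
  set η : ℝ := δ / (8 * (E ^ 2 + 1)) with hη
  have hη0 : 0 < η := by positivity
  have hηE : E ^ 2 * η ≤ δ / 8 := by
    rw [hη, mul_div_assoc', div_le_div_iff₀ (by positivity) (by norm_num)]
    nlinarith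
  -- the Bohr radius
  set c : ℝ := a / ((sqf N₀).card + 1) with hc
  have hc0 : 0 < c := by positivity
  have hclose : ∀ x : ℕ × ι, ∃ τ : ℝ, 0 < τ ∧ (x.1 ∈ sqf N₀ → ∀ K n : ℕ,
      (∃ m : ℤ, |n * (α * √(x.1 : ℝ)) - m| ≤ τ) →
      |X α (r x.2) (s x.2) K x.1 n - X α (r x.2) (s x.2) K x.1 0| ≤ c) := by
    intro x
    by_cases hx : x.1 ∈ sqf N₀
    · obtain ⟨τ, h1, h2⟩ := X_close α (r x.2) (s x.2) (mem_sqf.mp hx).1 hc0
      exact ⟨τ, h1, fun _ => h2⟩
    · exact ⟨1, one_pos, fun h => absurd h hx⟩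
  choose τf hτf0 hτf using hclose
  obtain ⟨τ, hτ0, hτ2, hτ⟩ := exists_pos_lower ((sqf N₀) ×ˢ (Finset.univ : Finset ι)) τf
    (fun b _ => hτf0 b)
  obtain ⟨κ, hκ, hκ0, hκ1, hρ0, hκfar⟩ := exists_kernel α (sqf N₀) hτ0 hτ2 hη0
  -- steering
  obtain ⟨N, hNN, hsteer⟩ := steer hD hS hb hr hrs N₀ hQN (‖y‖ + E)
  refine ⟨Lr κ, 2 ^ (TT N₀ N).card, N + ∑ i, N * (r i) ^ 2, hρ0, by positivity, ?_⟩
  intro K hK
  have hNK : N ≤ K := le_trans (Nat.le_add_right _ _) hK
  have hrK : ∀ i, N * (r i) ^ 2 ≤ K := fun i => by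
    have h1 : N * (r i) ^ 2 ≤ ∑ i, N * (r i) ^ 2 :=
      Finset.single_le_sum (f := fun i => N * (r i) ^ 2) (fun _ _ => Nat.zero_le _) (Finset.mem_univ i)
    omega
  set s0 : ι → ℝ := fun i => ∑ q ∈ sqf N₀, X α (r i) (s i) K q 0 with hs0
  have hs0b : ∀ i, |s0 i| ≤ E := by
    intro i
    refine (Finset.abs_sum_le_sum_abs _ _).trans (Finset.sum_le_sum fun q hq => ?_)
    have h1 := hX α (r i) (s i) K q 0 (mem_sqf.mp hq).1
    have h2 := hB0 q
    simp only [hBdef] at h2 ⊢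
    linarith
  set z : ι → ℝ := fun i => y i - s0 i with hz
  have hzb : ‖z‖ ≤ ‖y‖ + E := by
    rw [pi_norm_le_iff_of_nonneg (by positivity)]
    intro i
    have h1 := norm_le_pi_norm y i
    have h2 := hs0b i
    rw [Real.norm_eq_abs] at h1 ⊢
    exact (abs_sub _ _).trans (add_le_add h1 h2)
  obtain ⟨g, hg, hgK⟩ := hsteer z hzb
  set g' : ℕ → ℕ → ℝ := fun q => if q ∈ TT N₀ N then g q else fun _ => 1 with hg'
  have hTTsub : TT N₀ N ⊆ TT N₀ K := by
    intro q hq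
    rw [mem_TT] at hq ⊢
    exact ⟨hq.1, by omega, hq.2.2⟩
  have g1 : ∀ q ∈ TT N₀ K, g' q ∈ RT (Th α {q}) := by
    intro q _
    simp only [hg']
    split_ifs with h
    · exact (hg q h).1
    · exact const_mem_RT _ 1
  have g2 : ∀ q ∈ TT N₀ K, ∀ n, 0 ≤ g' q n := by
    intro q _ n
    simp only [hg']
    split_ifs with h
    · exact (hg q h).2.1 n
    · exact zero_le_one
  have g3 : ∀ q ∈ TT N₀ K, Lr (g' q) = 1 := by
    intro q _
    simp only [hg']
    split_ifs with h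
    · exact (hg q h).2.2.2
    · exact Lr_const 1
  have hTsq : ∀ q ∈ TT N₀ K, Squarefree q := fun q hq => (mem_TT.mp hq).2.2.1
  have hSsq : ∀ q ∈ sqf N₀, Squarefree q := fun q hq => (mem_sqf.mp hq).2.2
  have hTS : Disjoint (sqf N₀) (TT N₀ K) := by
    rw [Finset.disjoint_left]
    intro q hq hq'
    have h1 := (mem_sqf.mp hq).2.1
    have h2 := (mem_TT.mp hq').2.2.2
    omega
  have hT0 : ∀ q ∈ TT N₀ K, q ∉ Q₀ := fun q hq h => by
    have h1 := hQN q h
    have h2 := (mem_TT.mp hq).2.2.2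
    omega
  refine ⟨fun n => κ n * ∏ q ∈ TT N₀ K, g' q n, ?_, ?_, ?_, ?_, ?_⟩
  · refine mul_mem_RT (RT_mono le_top hκ) (prod_mem_RT _ fun q hq => RT_mono le_top (g1 q hq))
  · exact fun n => mul_nonneg (hκ0 n) (Finset.prod_nonneg fun q hq => g2 q hq n)
  · intro n
    have h1 : ∏ q ∈ TT N₀ K, g' q n ≤ ∏ q ∈ TT N₀ K, (if q ∈ TT N₀ N then (2 : ℝ) else 1) := by
      refine Finset.prod_le_prod (fun q hq => g2 q hq n) fun q _ => ?_
      simp only [hg']
      split_ifs with h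
      · exact (hg q h).2.2.1 n
      · exact le_rfl
    have h2 : ∏ q ∈ TT N₀ K, (if q ∈ TT N₀ N then (2 : ℝ) else 1) ≤ 2 ^ (TT N₀ N).card := by
      rw [Finset.prod_ite, Finset.prod_const, Finset.prod_const_one, mul_one]
      refine pow_le_pow_right₀ (by norm_num) (Finset.card_le_card ?_)
      intro q hq
      exact (Finset.mem_filter.mp hq).2
    have h3 : 0 ≤ ∏ q ∈ TT N₀ K, g' q n := Finset.prod_nonneg fun q hq => g2 q hq n
    calc κ n * ∏ q ∈ TT N₀ K, g' q n ≤ 1 * ∏ q ∈ TT N₀ K, g' q n :=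
          mul_le_mul_of_nonneg_right (hκ1 n) h3
      _ ≤ _ := by rw [one_mul]; exact h1.trans h2
  · rw [Lr_prod hb hSsq hκ _ hTsq hTS hT0 g' g1, Finset.prod_congr rfl g3, Finset.prod_const_one, mul_one]
  · intro i
    set e : ℕ → ℝ := fun n => ∑ q ∈ sqf N₀, (X α (r i) (s i) K q n - X α (r i) (s i) K q 0) with he
    have hem : e ∈ RT (Th α (sqf N₀)) := by
      refine sum_mem_RT _ fun q hq => sub_mem_RT (RT_mono (Th_mono ?_) (X_mem _ _ _ _ _)) (const_mem_RT _ _)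
      intro x hx; rw [Finset.mem_singleton] at hx; subst hx; exact hq
    have hae : ∀ n, |e n| ≤ a ∨ (|e n| ≤ E ∧ κ n ≤ η * Lr κ) := by
      intro n
      by_cases hn : ∃ q ∈ sqf N₀, ∀ m : ℤ, τ ≤ |n * (α * √(q : ℝ)) - m|
      · right
        refine ⟨?_, hκfar n hn⟩
        refine (Finset.abs_sum_le_sum_abs _ _).trans (Finset.sum_le_sum fun q hq => ?_)
        have h1 := hX α (r i) (s i) K q 0 (mem_sqf.mp hq).1
        have h2 := hX α (r i) (s i) K q n (mem_sqf.mp hq).1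
        refine (abs_sub _ _).trans ?_
        simp only [hBdef]
        linarith
      · left
        push Not at hn
        refine (Finset.abs_sum_le_sum_abs _ _).trans ?_
        have h1 : ∀ q ∈ sqf N₀, |X α (r i) (s i) K q n - X α (r i) (s i) K q 0| ≤ c := by
          intro q hq
          obtain ⟨m, hm⟩ := hn q hq
          refine hτf (q, i) hq K n ⟨m, hm.le.trans (hτ (q, i) ?_)⟩
          exact Finset.mem_product.mpr ⟨hq, Finset.mem_univ _⟩
        refine (Finset.sum_le_sum h1).trans ?_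
        rw [Finset.sum_const, nsmul_eq_mul, hc, mul_div_assoc', div_le_iff₀ (by positivity)]
        nlinarith
    have key := weighted_moment hb hQN hκ hκ0 hρ0.le g' g1 g2 g3 e hem hη0.le hae
      (fun q => X α (r i) (s i) K q) (fun q _ => X_mem _ _ _ _ _) B
      (fun q hq n => hX α (r i) (s i) K q n (mem_TT.mp hq).1)
    have hmean : ∑ q ∈ TT N₀ K, Lr (fun n => g' q n * X α (r i) (s i) K q n) = z i := by
      rw [← hgK K hrK i]
      symm
      rw [← Finset.sum_subset hTTsub]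
      · refine Finset.sum_congr rfl fun q hq => ?_
        simp only [hg', if_pos hq]
      · intro q hq hq'
        simp only [hg', if_neg hq', one_mul]
        exact Lr_X hb (s i) (hr i) (hTsq q hq) (hT0 q hq)
    have heq : (fun n : ℕ => (κ n * ∏ q ∈ TT N₀ K, g' q n) * (TK K (α * r i * n + s i) - y i) ^ 2)
        = fun n : ℕ => (κ n * ∏ q ∈ TT N₀ K, g' q n) *
      (e n + (∑ q ∈ TT N₀ K, X α (r i) (s i) K q n
        - ∑ q ∈ TT N₀ K, Lr (fun n => g' q n * X α (r i) (s i) K q n))) ^ 2 := by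
      funext n
      rw [hmean, TK_decomp]
      have h1 : ∑ q ∈ sqf K, X α (r i) (s i) K q n
          = ∑ q ∈ sqf N₀, X α (r i) (s i) K q n + ∑ q ∈ TT N₀ K, X α (r i) (s i) K q n := by
        rw [← Finset.sum_union hTS]
        refine Finset.sum_congr ?_ fun _ _ => rfl
        ext q
        rw [Finset.mem_union, mem_sqf, mem_sqf, mem_TT]
        constructor
        · rintro ⟨h1, h2, h3⟩
          by_cases h : q ≤ N₀
          · left; exact ⟨h1, h, h3⟩
          · right; exact ⟨h1, h2, h3, by omega⟩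
        · rintro (⟨h1, h2, h3⟩ | ⟨h1, h2, h3, _⟩)
          · exact ⟨h1, by omega, h3⟩
          · exact ⟨h1, h2, h3⟩
      rw [h1]
      congr 2
      simp only [he, hz, hs0, Finset.sum_sub_distrib]
      ring
    rw [heq]
    refine key.trans (mul_le_mul_of_nonneg_right ?_ hρ0.le)
    have := htail K
    rw [ha2]
    linarith

end

end Pool.Agent.Helper78.GC
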