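import Mathlib
import Pool.Agent.Helper78.GC.Weights

/-!
# Positive proportion of values near every point
-/

open Set Filter
open scoped Real ComplexConjugate Topology

namespace Pool.Agent.Helper78.GC

open Pool.Agent.Helper22.GC (rho rho_nonneg TK uu Pe N2 N2_sq N2_nonneg approx_main)

noncomputable section

/-- Segments `(M, M + H]` with `M ^ (1/2 + ε) ≤ H ≤ M`. -/
def Seg (ε : ℝ) : Filter (ℕ × ℕ) :=
  comap Prod.fst atTop ⊓ 𝓟 {p : ℕ × ℕ | (p.1 : ℝ) ^ (1 / 2 + ε) ≤ p.2 ∧ p.2 ≤ p.1}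

lemma tendsto_fst_Seg (ε : ℝ) : Tendsto (Prod.fst : ℕ × ℕ → ℕ) (Seg ε) atTop :=
  tendsto_comap.mono_left inf_le_left

lemma eventually_Seg (ε : ℝ) : ∀ᶠ p : ℕ × ℕ in Seg ε, (p.1 : ℝ) ^ (1 / 2 + ε) ≤ p.2 ∧ p.2 ≤ p.1 :=
  mem_inf_of_right (mem_principal_self _)

lemma Seg_le_Gf {ε : ℝ} (hε : 0 < ε) : Seg ε ≤ Gf := by
  rw [Gf, ← tendsto_iff_comap]
  rw [tendsto_atTop]
  intro b
  have h1 : Tendsto (fun p : ℕ × ℕ => ((p.1 : ℕ) : ℝ) ^ (1 / 2 + ε)) (Seg ε) atTop :=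
    ((tendsto_rpow_atTop (by positivity : 0 < 1 / 2 + ε)).comp tendsto_natCast_atTop_atTop).comp
      (tendsto_fst_Seg ε)
  filter_upwards [h1.eventually_ge_atTop (b : ℝ), eventually_Seg ε] with p hp hp2
  exact_mod_cast hp.trans hp2.1

lemma Seg_neBot {ε : ℝ} (hε' : ε ≤ 1 / 2) : (Seg ε).NeBot := by
  rw [Seg, inf_principal_neBot_iff]
  intro U hU
  rw [mem_comap] at hU
  obtain ⟨t, ht, htU⟩ := hU
  obtain ⟨a, ha⟩ := mem_atTop_sets.mp ht
  refine ⟨(max a 1, max a 1), htU (ha _ (le_max_left _ _)), ?_, le_rfl⟩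
  have h1 : (1 : ℝ) ≤ ((max a 1 : ℕ) : ℝ) := by exact_mod_cast le_max_right a 1
  calc ((max a 1 : ℕ) : ℝ) ^ (1 / 2 + ε) ≤ ((max a 1 : ℕ) : ℝ) ^ (1 : ℝ) :=
        Real.rpow_le_rpow_of_exponent_le h1 (by linarith)
    _ = _ := Real.rpow_one _

/-- The mean-square Hardy formula in the form used here. -/
lemma ap_sq (α β : ℝ) {ε : ℝ} (hα : 0 < α) (hε : 0 < ε) (hε' : ε ≤ 1 / 16) :
    ∃ (C : ℝ) (M₀ : ℕ), 0 < C ∧ ∀ M H K : ℕ, M₀ ≤ M → 1 ≤ H → H ≤ M → 1 ≤ K →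
      (K : ℝ) ≤ ((H : ℝ) * M) ^ (2 / 3 : ℝ) →
      mr (fun n => (uu α β n - TK K (α * n + β)) ^ 2) (M, H)
        ≤ C * ((K : ℝ) ^ (-(1 / 8) : ℝ) + ((H : ℝ) * M) ^ (1 / 3 + 2 * ε) / H) := by
  obtain ⟨C, M₀, hC, hmain⟩ := approx_main α β hα hε (by linarith)
  refine ⟨2 * C ^ 2, max M₀ 1, by positivity, ?_⟩
  intro M H K hM hH hHM hK hKM
  obtain ⟨_, hN⟩ := hmain M H K (le_trans (le_max_left _ _) hM) hH hHM hK hKM
  have hHr : (1 : ℝ) ≤ H := by exact_mod_cast hH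
  have hMr : (1 : ℝ) ≤ M := by exact_mod_cast le_trans (le_max_right _ _) hM
  have hKr : (1 : ℝ) ≤ K := by exact_mod_cast hK
  have hK0 : (0 : ℝ) < K := by linarith
  have hH0 : (0 : ℝ) < H := by linarith
  have hP1 : 1 ≤ (H : ℝ) * M := one_le_mul_of_one_le_of_one_le hHr hMr
  have hP0 : 0 < (H : ℝ) * M := by linarith
  have hcast : ∀ i : ℕ, α * ((M + 1 + i : ℕ) : ℝ) + β = α * (M + 1) + β + α * i := by
    intro i; push_cast; ring
  have hIoc : Finset.Ioc M (M + H) = Finset.Ico (M + 1) (M + 1 + H) := by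
    ext n; rw [Finset.mem_Ioc, Finset.mem_Ico]; omega
  have hsum : ∑ n ∈ Finset.Ioc M (M + H), (uu α β n - TK K (α * n + β)) ^ 2
      = N2 H (fun n => ((Pe (α * (M + 1) + β + α * n) / √(α * (M + 1) + β + α * n)
      - TK K (α * (M + 1) + β + α * n) : ℝ) : ℂ)) ^ 2 := by
    rw [N2_sq, hIoc, Finset.sum_Ico_eq_sum_range]
    have : M + 1 + H - (M + 1) = H := by omega
    rw [this]
    refine Finset.sum_congr rfl fun i _ => ?_
    rw [Complex.norm_real, Real.norm_eq_abs, sq_abs, uu, hcast]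
  have hsq : ∀ a b : ℝ, (a + b) ^ 2 ≤ 2 * (a ^ 2 + b ^ 2) := fun a b => by
    nlinarith [sq_nonneg (a - b)]
  have h1 := pow_le_pow_left₀ (N2_nonneg _ _) hN 2
  have hK1 : ((K : ℝ) ^ (-(1 / 8) + ε)) ^ 2 ≤ (K : ℝ) ^ (-(1 / 8) : ℝ) := by
    rw [← Real.rpow_natCast, ← Real.rpow_mul hK0.le]
    exact Real.rpow_le_rpow_of_exponent_le hKr (by push_cast; linarith)
  have hP2 : ((((H : ℝ) * M)) ^ (1 / 6 + ε)) ^ 2 = ((H : ℝ) * M) ^ (1 / 3 + 2 * ε) := by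
    rw [← Real.rpow_natCast, ← Real.rpow_mul hP0.le]
    congr 1
    push_cast; ring
  rw [mr]
  simp only
  rw [hsum, one_div, inv_mul_eq_div, div_le_iff₀ hH0]
  calc N2 H _ ^ 2 ≤ (C * (√H * (K : ℝ) ^ (-(1 / 8) + ε) + ((H : ℝ) * M) ^ (1 / 6 + ε))) ^ 2 := h1
    _ = C ^ 2 * (√H * (K : ℝ) ^ (-(1 / 8) + ε) + ((H : ℝ) * M) ^ (1 / 6 + ε)) ^ 2 := by ring
    _ ≤ C ^ 2 * (2 * ((√H * (K : ℝ) ^ (-(1 / 8) + ε)) ^ 2 + (((H : ℝ) * M) ^ (1 / 6 + ε)) ^ 2)) :=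
        mul_le_mul_of_nonneg_left (hsq _ _) (sq_nonneg C)
    _ = 2 * C ^ 2 * (H * ((K : ℝ) ^ (-(1 / 8) + ε)) ^ 2 + ((H : ℝ) * M) ^ (1 / 3 + 2 * ε)) := by
        rw [mul_pow, Real.sq_sqrt hH0.le, hP2]; ring
    _ ≤ 2 * C ^ 2 * (H * (K : ℝ) ^ (-(1 / 8) : ℝ) + ((H : ℝ) * M) ^ (1 / 3 + 2 * ε)) := by gcongr
    _ = _ := by field_simp

/-- The approximation along the segments. -/
lemma seg_approx (α β : ℝ) (hα : 0 < α) {ε : ℝ} (hε : 0 < ε) :
    ∃ C : ℝ, 0 < C ∧ ∀ K : ℕ, 1 ≤ K → ∀ᶠ p in Seg ε,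
      mr (fun n => (uu α β n - TK K (α * n + β)) ^ 2) p ≤ C * (K : ℝ) ^ (-(1 / 8) : ℝ) := by
  set η : ℝ := min (ε / 12) (1 / 16) with hη
  have hη0 : 0 < η := lt_min (by positivity) (by norm_num)
  have hη1 : η ≤ 1 / 16 := min_le_right _ _
  have hη2 : η ≤ ε / 12 := min_le_left _ _
  obtain ⟨C, M₀, hC, hmain⟩ := ap_sq α β hα hη0 hη1
  refine ⟨2 * C, by positivity, fun K hK => ?_⟩
  have hKr : (1 : ℝ) ≤ K := by exact_mod_cast hK
  have hKp : 0 < (K : ℝ) ^ (-(1 / 8) : ℝ) := by positivity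
  have hlim : Tendsto (fun p : ℕ × ℕ => ((p.1 : ℕ) : ℝ) ^ (-(7 * ε / 24))) (Seg ε) (𝓝 0) :=
    ((tendsto_rpow_neg_atTop (by positivity : 0 < 7 * ε / 24)).comp tendsto_natCast_atTop_atTop).comp
      (tendsto_fst_Seg ε)
  filter_upwards [eventually_Seg ε, (tendsto_fst_Seg ε).eventually_ge_atTop (max M₀ (K ^ 2)),
    hlim.eventually_lt_const hKp] with p hp hM hlt
  obtain ⟨M, H⟩ := p
  simp only at hp hM hlt ⊢
  have hM0 : M₀ ≤ M := le_trans (le_max_left _ _) hM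
  have hMK : K ^ 2 ≤ M := le_trans (le_max_right _ _) hM
  have hM1 : 1 ≤ M := le_trans (Nat.one_le_pow _ _ hK) hMK
  have hMr : (1 : ℝ) ≤ M := by exact_mod_cast hM1
  have hMp : (0 : ℝ) < M := by linarith
  have hHr : (1 : ℝ) ≤ H := by
    refine le_trans ?_ hp.1
    exact Real.one_le_rpow hMr (by positivity)
  have hH0 : (0 : ℝ) < H := by linarith
  have hH1 : 1 ≤ H := by exact_mod_cast hHr
  have hKM : (K : ℝ) ≤ ((H : ℝ) * M) ^ (2 / 3 : ℝ) := by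
    have h1 : (K : ℝ) ≤ (M : ℝ) ^ (1 / 2 : ℝ) := by
      rw [← Real.sqrt_eq_rpow]
      exact Real.le_sqrt_of_sq_le (by exact_mod_cast hMK)
    calc (K : ℝ) ≤ (M : ℝ) ^ (1 / 2 : ℝ) := h1
      _ ≤ (M : ℝ) ^ (2 / 3 : ℝ) := Real.rpow_le_rpow_of_exponent_le hMr (by norm_num)
      _ ≤ _ := Real.rpow_le_rpow hMp.le (le_mul_of_one_le_left hMp.le hHr) (by norm_num)
  have h1 := hmain M H K hM0 hH1 hp.2 hK hKM
  have h2 : ((H : ℝ) * M) ^ (1 / 3 + 2 * η) / H ≤ (M : ℝ) ^ (-(7 * ε / 24)) := by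
    have e1 : ((H : ℝ) * M) ^ (1 / 3 + 2 * η) / H = (H : ℝ) ^ (-(2 / 3) + 2 * η) * (M : ℝ) ^ (1 / 3 + 2 * η) := by
      rw [Real.mul_rpow hH0.le hMp.le]
      have : (H : ℝ) ^ (-(2 / 3) + 2 * η) = (H : ℝ) ^ (1 / 3 + 2 * η) / H := by
        rw [show (-(2 / 3) + 2 * η : ℝ) = (1 / 3 + 2 * η) - 1 by ring, Real.rpow_sub hH0, Real.rpow_one]
      rw [this]; ring
    rw [e1]
    have e2 : (H : ℝ) ^ (-(2 / 3) + 2 * η) ≤ ((M : ℝ) ^ (1 / 2 + ε)) ^ (-(2 / 3) + 2 * η) :=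
      Real.rpow_le_rpow_of_nonpos (by positivity) hp.1 (by linarith)
    rw [← Real.rpow_mul hMp.le] at e2
    calc (H : ℝ) ^ (-(2 / 3) + 2 * η) * (M : ℝ) ^ (1 / 3 + 2 * η)
        ≤ (M : ℝ) ^ ((1 / 2 + ε) * (-(2 / 3) + 2 * η)) * (M : ℝ) ^ (1 / 3 + 2 * η) := by gcongr
      _ = (M : ℝ) ^ ((1 / 2 + ε) * (-(2 / 3) + 2 * η) + (1 / 3 + 2 * η)) := by
          rw [Real.rpow_add hMp ((1 / 2 + ε) * (-(2 / 3) + 2 * η)) (1 / 3 + 2 * η)]
      _ ≤ _ := by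
          refine Real.rpow_le_rpow_of_exponent_le hMr ?_
          nlinarith
  calc _ ≤ C * ((K : ℝ) ^ (-(1 / 8) : ℝ) + ((H : ℝ) * M) ^ (1 / 3 + 2 * η) / H) := h1
    _ ≤ C * ((K : ℝ) ^ (-(1 / 8) : ℝ) + (K : ℝ) ^ (-(1 / 8) : ℝ)) := by
        refine mul_le_mul_of_nonneg_left ?_ hC.le
        linarith
    _ = _ := by ring

open Classical in
/-- Positive proportion of values near every point. -/
theorem positivity_main {ι : Type} [Fintype ι] (hD : DivHyp) (hS : SqHyp) {α : ℝ} (hα : 0 < α)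
    {r : ι → ℕ} {s : ι → ℝ} (hr : ∀ i, 1 ≤ r i) (hrs : ∀ i k, r i = r k → s i = s k → i = k)
    {F : Filter (ℕ × ℕ)} (hF : F ≤ Gf) {η : ℕ → ℝ} (hη : Tendsto η atTop (𝓝 0))
    (happ : ∀ K : ℕ, 1 ≤ K → ∀ᶠ p in F, ∀ i,
      mr (fun n => (uu (α * r i) (s i) n - TK K (α * r i * n + s i)) ^ 2) p ≤ η K)
    (y : ι → ℝ) {δ : ℝ} (hδ : 0 < δ) :
    ∃ c : ℝ, 0 < c ∧ ∀ᶠ p in F,
      c ≤ mr (fun n => if ∀ i, |uu (α * r i) (s i) n - y i| < δ then 1 else 0) p := by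
  set k : ℝ := (Fintype.card ι : ℝ) with hk
  set δ₁ : ℝ := δ ^ 2 / (48 * (k + 1)) with hδ₁
  have hδ₁0 : 0 < δ₁ := by positivity
  obtain ⟨ρ, W, K₁, hρ, hW, hw⟩ := weights hD hS hα hr hrs y hδ₁0
  obtain ⟨K, hKη, hK1, hKK⟩ := ((hη.eventually_lt_const (show (0 : ℝ) < δ₁ * ρ / W by positivity)).and
    ((eventually_ge_atTop 1).and (eventually_ge_atTop K₁))).exists
  obtain ⟨w, hwm, hw0, hwW, hwρ, hwi⟩ := hw K hKK
  refine ⟨ρ / (4 * W), by positivity, ?_⟩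
  have hTKm : ∀ i, (fun n : ℕ => (TK K (α * r i * n + s i) - y i) ^ 2) ∈ RT ⊤ := by
    intro i
    refine pow_mem_RT (sub_mem_RT ?_ (const_mem_RT _ _)) 2
    have : (fun n : ℕ => TK K (α * r i * n + s i)) = fun n : ℕ => ∑ q ∈ sqf K, X α (r i) (s i) K q n := by
      funext n; exact TK_decomp α (r i) (s i) K n
    rw [this]
    exact sum_mem_RT _ fun q _ => RT_mono le_top (X_mem _ _ _ _ _)
  have l1 : ∀ᶠ p in F, ρ / 2 < mr w p := by
    have := (tendsto_Lr hwm).mono_left hF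
    rw [hwρ] at this
    exact this.eventually_const_lt (by linarith)
  have l2 : ∀ᶠ p in F, ∀ i, mr (fun n => w n * (TK K (α * r i * n + s i) - y i) ^ 2) p < 2 * (δ₁ * ρ) := by
    rw [eventually_all]
    intro i
    have := (tendsto_Lr (mul_mem_RT hwm (hTKm i))).mono_left hF
    refine this.eventually_lt_const (lt_of_le_of_lt (hwi i) ?_)
    have : 0 < δ₁ * ρ := by positivity
    linarith
  filter_upwards [l1, l2, happ K hK1] with p h1 h2 h3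
  set G : ℕ → ℝ := fun n => if ∀ i, |uu (α * r i) (s i) n - y i| < δ then 1 else 0 with hG
  set bad : ℕ → ℝ := fun n => ∑ i, (4 / δ ^ 2) * (W * (uu (α * r i) (s i) n - TK K (α * r i * n + s i)) ^ 2
    + w n * (TK K (α * r i * n + s i) - y i) ^ 2) with hbad
  have hterm : ∀ n i, 0 ≤ (4 / δ ^ 2) * (W * (uu (α * r i) (s i) n - TK K (α * r i * n + s i)) ^ 2
    + w n * (TK K (α * r i * n + s i) - y i) ^ 2) := by
    intro n i
    have := hw0 n
    positivity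
  have pt : ∀ n, w n ≤ W * G n + bad n := by
    intro n
    by_cases hn : ∀ i, |uu (α * r i) (s i) n - y i| < δ
    · have : G n = 1 := by simp only [hG, if_pos hn]
      rw [this, mul_one]
      have h0 : 0 ≤ bad n := Finset.sum_nonneg fun i _ => hterm n i
      linarith [hwW n]
    · have : G n = 0 := by simp only [hG, if_neg hn]
      rw [this, mul_zero, zero_add]
      push Not at hn
      obtain ⟨i, hi⟩ := hn
      refine le_trans ?_ (Finset.single_le_sum (fun i _ => hterm n i) (Finset.mem_univ i))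
      set u := uu (α * r i) (s i) n
      set v := TK K (α * r i * n + s i)
      have hsplit : δ / 2 ≤ |u - v| ∨ δ / 2 ≤ |v - y i| := by
        by_contra hcon
        push Not at hcon
        have : |u - y i| ≤ |u - v| + |v - y i| := abs_sub_le _ _ _
        linarith
      have hpos1 := hw0 n
      have hwWn := hwW n
      rcases hsplit with h | h
      · have h4 : (δ / 2) ^ 2 ≤ (u - v) ^ 2 := by
          rw [← sq_abs (u - v)]
          exact pow_le_pow_left₀ (by positivity) h 2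
        have h5 : 1 ≤ (4 / δ ^ 2) * (u - v) ^ 2 := by
          calc (1 : ℝ) = (4 / δ ^ 2) * (δ / 2) ^ 2 := by field_simp; norm_num
            _ ≤ _ := mul_le_mul_of_nonneg_left h4 (by positivity)
        have h6 : W * 1 ≤ W * ((4 / δ ^ 2) * (u - v) ^ 2) := mul_le_mul_of_nonneg_left h5 hW.le
        have h7 : 0 ≤ (4 / δ ^ 2) * (w n * (v - y i) ^ 2) := by positivity
        have h8 : (4 / δ ^ 2) * (W * (u - v) ^ 2 + w n * (v - y i) ^ 2)
            = W * ((4 / δ ^ 2) * (u - v) ^ 2) + (4 / δ ^ 2) * (w n * (v - y i) ^ 2) := by ring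
        rw [h8]
        linarith
      · have h4 : (δ / 2) ^ 2 ≤ (v - y i) ^ 2 := by
          rw [← sq_abs (v - y i)]
          exact pow_le_pow_left₀ (by positivity) h 2
        have h5 : 1 ≤ (4 / δ ^ 2) * (v - y i) ^ 2 := by
          calc (1 : ℝ) = (4 / δ ^ 2) * (δ / 2) ^ 2 := by field_simp; norm_num
            _ ≤ _ := mul_le_mul_of_nonneg_left h4 (by positivity)
        have h6 : w n * 1 ≤ w n * ((4 / δ ^ 2) * (v - y i) ^ 2) := mul_le_mul_of_nonneg_left h5 hpos1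
        have h7 : 0 ≤ (4 / δ ^ 2) * (W * (u - v) ^ 2) := by positivity
        have h8 : (4 / δ ^ 2) * (W * (u - v) ^ 2 + w n * (v - y i) ^ 2)
            = (4 / δ ^ 2) * (W * (u - v) ^ 2) + w n * ((4 / δ ^ 2) * (v - y i) ^ 2) := by ring
        rw [h8]
        linarith
  have h4 := mr_mono (f := w) (g := fun n => W * G n + bad n) (p := p) fun n _ => pt n
  have h5 : mr (fun n => W * G n + bad n) p = W * mr G p + mr bad p := by
    rw [mr_add (fun n => W * G n) bad, mr_const_mul]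
  have h6 : mr bad p ≤ ρ / 4 := by
    have e1 : mr bad p = ∑ i, (4 / δ ^ 2) * (W * mr (fun n => (uu (α * r i) (s i) n - TK K (α * r i * n + s i)) ^ 2) p
        + mr (fun n => w n * (TK K (α * r i * n + s i) - y i) ^ 2) p) := by
      rw [hbad, mr_sum]
      refine Finset.sum_congr rfl fun i _ => ?_
      rw [mr_const_mul, mr_add, mr_const_mul]
    rw [e1]
    have e2 : ∀ i ∈ (Finset.univ : Finset ι), (4 / δ ^ 2) * (W * mr (fun n => (uu (α * r i) (s i) n - TK K (α * r i * n + s i)) ^ 2) p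
        + mr (fun n => w n * (TK K (α * r i * n + s i) - y i) ^ 2) p) ≤ (4 / δ ^ 2) * (3 * (δ₁ * ρ)) := by
      intro i _
      refine mul_le_mul_of_nonneg_left ?_ (by positivity)
      have a1 : W * mr (fun n => (uu (α * r i) (s i) n - TK K (α * r i * n + s i)) ^ 2) p ≤ W * η K :=
        mul_le_mul_of_nonneg_left (h3 i) hW.le
      have a2 : W * η K ≤ δ₁ * ρ := by
        rw [lt_div_iff₀ hW] at hKη
        linarith
      linarith [h2 i]
    refine (Finset.sum_le_sum e2).trans ?_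
    rw [Finset.sum_const, Finset.card_univ, nsmul_eq_mul, ← hk, hδ₁]
    have e3 : k * (4 / δ ^ 2 * (3 * (δ ^ 2 / (48 * (k + 1)) * ρ))) = (k / (k + 1)) * (ρ / 4) := by
      field_simp
      ring
    rw [e3]
    have e4 : k / (k + 1) ≤ 1 := by
      rw [div_le_one (by positivity)]; linarith
    calc (k / (k + 1)) * (ρ / 4) ≤ 1 * (ρ / 4) := mul_le_mul_of_nonneg_right e4 (by positivity)
      _ = ρ / 4 := one_mul _
  rw [h5] at h4
  have h7 : ρ / 4 ≤ W * mr G p := by linarith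
  rw [div_le_iff₀ (by positivity)]
  linarith

end

end Pool.Agent.Helper78.GC
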