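import Mathlib
import Pool.Agent.Helper53.GC.T2
import Pool.Agent.Helper53.GC.Tgr
import Pool.Agent.Helper59.GC.LimitLaw
import Pool.Agent.Helper78.GC.Pos

/-!
# The joint limit law along progressions
-/

open Set Filter MeasureTheory
open scoped Real ComplexConjugate Topology BoundedContinuousFunction

namespace Pool.Agent.Helper78.GC

open Pool.Agent.Helper22.GC (rho rho_nonneg TK uu gr)

noncomputable section

theorem divHyp : DivHyp := by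
  intro I _ t ht ξ hξ
  exact Pool.Agent.Helper53.GC.T2 t ξ ht hξ

theorem sqHyp : SqHyp := by
  intro j q hj
  have h := Pool.Agent.Helper53.GC.gr_sq_mul_le j q hj
  rcases Nat.eq_zero_or_pos q with h0 | h0
  · subst h0; simp
  · have hq : (0 : ℝ) < q := by exact_mod_cast h0
    have hj0 : (0 : ℝ) < j := by exact_mod_cast hj
    have hj1 : (1 : ℝ) ≤ j := by exact_mod_cast hj
    rw [rho, rho]
    have e1 : ((q * j ^ 2 : ℕ) : ℝ) ^ (-(3 / 4) : ℝ) = (q : ℝ) ^ (-(3 / 4) : ℝ) * (j : ℝ) ^ (-(3 / 2) : ℝ) := by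
      push_cast
      rw [Real.mul_rpow hq.le (by positivity), ← Real.rpow_natCast (j : ℝ) 2, ← Real.rpow_mul hj0.le]
      norm_num
    rw [e1, mul_comm q (j ^ 2)]
    calc (gr (j ^ 2 * q) : ℝ) * ((q : ℝ) ^ (-(3 / 4) : ℝ) * (j : ℝ) ^ (-(3 / 2) : ℝ))
        ≤ ((j : ℝ) ^ (7 / 10 : ℝ) * gr q) * ((q : ℝ) ^ (-(3 / 4) : ℝ) * (j : ℝ) ^ (-(3 / 2) : ℝ)) :=
          mul_le_mul_of_nonneg_right h (by positivity)
      _ = (gr q * (q : ℝ) ^ (-(3 / 4) : ℝ)) * ((j : ℝ) ^ (7 / 10 : ℝ) * (j : ℝ) ^ (-(3 / 2) : ℝ)) := by ring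
      _ = (gr q * (q : ℝ) ^ (-(3 / 4) : ℝ)) * (j : ℝ) ^ (-(4 / 5) : ℝ) := by
          rw [← Real.rpow_add hj0]; norm_num
      _ ≤ (gr q * (q : ℝ) ^ (-(3 / 4) : ℝ)) * 1 := by
          refine mul_le_mul_of_nonneg_left ?_ (by positivity)
          exact Real.rpow_le_one_of_one_le_of_nonpos hj1 (by norm_num)
      _ = _ := mul_one _

lemma mr_abs_le_sqrt (f : ℕ → ℝ) {p : ℕ × ℕ} (hp : 1 ≤ p.2) :
    mr (fun n => |f n|) p ≤ √(mr (fun n => f n ^ 2) p) := by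
  refine Real.le_sqrt_of_sq_le ?_
  have hp0 : (0 : ℝ) < p.2 := by exact_mod_cast hp
  have h1 := Finset.sum_mul_sq_le_sq_mul_sq (Finset.Ioc p.1 (p.1 + p.2)) (fun _ => (1 : ℝ)) (fun i => |f i|)
  simp only [one_mul, one_pow, Finset.sum_const, Nat.card_Ioc, nsmul_eq_mul, mul_one, sq_abs,
    add_tsub_cancel_left] at h1
  rw [mr, mr, mul_pow]
  calc (1 / (p.2 : ℝ)) ^ 2 * (∑ n ∈ Finset.Ioc p.1 (p.1 + p.2), |f n|) ^ 2
      ≤ (1 / (p.2 : ℝ)) ^ 2 * (p.2 * ∑ n ∈ Finset.Ioc p.1 (p.1 + p.2), f n ^ 2) :=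
        mul_le_mul_of_nonneg_left h1 (by positivity)
    _ = _ := by field_simp

set_option linter.unusedSectionVars false

variable {ι : Type} [Fintype ι]

/-- Uniform approximation constant over the coordinates. -/
lemma seg_approx_all {α : ℝ} (hα : 0 < α) {r : ι → ℕ} (s : ι → ℝ) (hr : ∀ i, 1 ≤ r i) {ε : ℝ}
    (hε : 0 < ε) : ∃ C : ℝ, 0 < C ∧ ∀ K : ℕ, 1 ≤ K → ∀ᶠ p in Seg ε, ∀ i,
      mr (fun n => (uu (α * r i) (s i) n - TK K (α * r i * n + s i)) ^ 2) p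
        ≤ C * (K : ℝ) ^ (-(1 / 8) : ℝ) := by
  classical
  have h := fun i => seg_approx (α * r i) (s i) (mul_pos hα (by exact_mod_cast hr i)) hε
  choose C hC hK using h
  refine ⟨∑ i, C i + 1, by have := Finset.sum_nonneg fun i (_ : i ∈ Finset.univ) => (hC i).le; linarith, ?_⟩
  intro K hK1
  rw [eventually_all]
  intro i
  filter_upwards [hK i K hK1] with p hp
  refine hp.trans (mul_le_mul_of_nonneg_right ?_ (by positivity))
  have := Finset.single_le_sum (fun i _ => (hC i).le) (Finset.mem_univ i)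
  linarith

lemma tendsto_rate (C : ℝ) : Tendsto (fun K : ℕ => C * (K : ℝ) ^ (-(1 / 8) : ℝ)) atTop (𝓝 0) := by
  have := ((tendsto_rpow_neg_atTop (by norm_num : (0 : ℝ) < 1 / 8)).comp tendsto_natCast_atTop_atTop).const_mul C
  rw [mul_zero] at this
  exact this

/-- The vector of normalised errors. -/
def vv (α : ℝ) (r : ι → ℕ) (s : ι → ℝ) (n : ℕ) (i : ι) : ℝ := uu (α * r i) (s i) n

/-- The approximating vectors. -/
def wwv (α : ℝ) (r : ι → ℕ) (s : ι → ℝ) (K n : ℕ) (i : ι) : ℝ := TK K (α * r i * n + s i)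

lemma wwv_mem (α : ℝ) (r : ι → ℕ) (s : ι → ℝ) (K : ℕ) (i : ι) : (fun n => wwv α r s K n i) ∈ RT ⊤ := by
  have : (fun n : ℕ => wwv α r s K n i) = fun n : ℕ => ∑ q ∈ sqf K, X α (r i) (s i) K q n := by
    funext n; exact TK_decomp α (r i) (s i) K n
  rw [this]
  exact sum_mem_RT _ fun q _ => RT_mono le_top (X_mem _ _ _ _ _)

lemma Seg_mono {ε ε' : ℝ} (h : ε ≤ ε') : Seg ε' ≤ Seg ε := by
  rw [Seg, Seg]
  refine le_inf inf_le_left ?_
  rw [le_principal_iff]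
  have h1 : {p : ℕ × ℕ | 1 ≤ p.1} ∈ comap (Prod.fst : ℕ × ℕ → ℕ) atTop := by
    rw [mem_comap]
    exact ⟨{n | 1 ≤ n}, eventually_ge_atTop 1, fun p hp => hp⟩
  refine mem_of_superset (inter_mem_inf h1 (mem_principal_self _)) ?_
  rintro p ⟨hp1, hp2, hp3⟩
  refine ⟨le_trans ?_ hp2, hp3⟩
  have hp1' : 1 ≤ p.1 := hp1
  exact Real.rpow_le_rpow_of_exponent_le (by exact_mod_cast hp1') (by linarith)

/-- Existence of the joint limit law along the segments with a fixed exponent. -/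
theorem limit_exists_aux {α : ℝ} (hα : 0 < α) {r : ι → ℕ} (s : ι → ℝ) (hr : ∀ i, 1 ≤ r i)
    {ε : ℝ} (hε : 0 < ε) (hε' : ε ≤ 1 / 2) :
    ∃ μ : ProbabilityMeasure (ι → ℝ), ∀ φ : (ι → ℝ) →ᵇ ℝ,
      Tendsto (mr (fun n => φ (vv α r s n))) (Seg ε) (𝓝 (∫ x, φ x ∂(μ : Measure (ι → ℝ)))) := by
  obtain ⟨C, hC, hK⟩ := seg_approx_all hα s hr hε
  have := Seg_neBot hε'
  refine Pool.Agent.Helper59.GC.limit_law (v := vv α r s) (w := wwv α r s) (wwv_mem α r s)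
    (Seg_le_Gf hε) (η := fun K => √(C * (K : ℝ) ^ (-(1 / 8) : ℝ))) ?_ ?_
  · have := (Real.continuous_sqrt.tendsto 0).comp (tendsto_rate C)
    rwa [Real.sqrt_zero] at this
  · intro K hK1 i a ha
    filter_upwards [hK K hK1, Seg_le_Gf hε eventually_one_le] with p hp hp1
    refine (mr_abs_le_sqrt _ hp1).trans ((Real.sqrt_le_sqrt (hp i)).trans ha.le)

/-- Existence of the joint limit law along all short segments. -/
theorem limit_exists {α : ℝ} (hα : 0 < α) {r : ι → ℕ} (s : ι → ℝ) (hr : ∀ i, 1 ≤ r i) :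
    ∃ μ : ProbabilityMeasure (ι → ℝ), ∀ ε : ℝ, 0 < ε → ∀ φ : (ι → ℝ) →ᵇ ℝ,
      Tendsto (mr (fun n => φ (vv α r s n))) (Seg ε) (𝓝 (∫ x, φ x ∂(μ : Measure (ι → ℝ)))) := by
  obtain ⟨μ, hμ⟩ := limit_exists_aux hα s hr (ε := 1 / 2) (by norm_num) le_rfl
  refine ⟨μ, ?_⟩
  have key : ∀ ε : ℝ, 0 < ε → ε ≤ 1 / 2 → ∀ φ : (ι → ℝ) →ᵇ ℝ,
      Tendsto (mr (fun n => φ (vv α r s n))) (Seg ε) (𝓝 (∫ x, φ x ∂(μ : Measure (ι → ℝ)))) := by
    intro ε hε hε' 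
    obtain ⟨ν, hν⟩ := limit_exists_aux hα s hr hε hε'
    have := Seg_neBot (le_refl (1 / 2 : ℝ))
    have heq : (μ : Measure (ι → ℝ)) = (ν : Measure (ι → ℝ)) := by
      refine ext_of_forall_integral_eq_of_IsFiniteMeasure fun φ => ?_
      exact tendsto_nhds_unique (hμ φ) ((hν φ).mono_left (Seg_mono hε'))
    rw [heq]
    exact hν
  intro ε hε φ
  by_cases h : ε ≤ 1 / 2
  · exact key ε hε h φ
  · exact (hμ φ).mono_left (Seg_mono (not_le.mp h).le)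

/-- Positive lower density near every point. -/
theorem pos_exists {α : ℝ} (hα : 0 < α) {r : ι → ℕ} {s : ι → ℝ} (hr : ∀ i, 1 ≤ r i)
    (hrs : ∀ i k, r i = r k → s i = s k → i = k) {ε : ℝ} (hε : 0 < ε) (y : ι → ℝ) {δ : ℝ}
    (hδ : 0 < δ) : ∃ c : ℝ, 0 < c ∧ ∀ᶠ p in Seg ε,
      c ≤ mr (fun n => @ite _ (∀ i, |vv α r s n i - y i| < δ) (Classical.dec _) 1 0) p := by
  obtain ⟨C, hC, hK⟩ := seg_approx_all hα s hr hε
  obtain ⟨c, hc, h⟩ := positivity_main divHyp sqHyp hα hr hrs (Seg_le_Gf hε) (tendsto_rate C) hK y hδ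
  refine ⟨c, hc, ?_⟩
  filter_upwards [h] with p hp
  refine hp.trans (le_of_eq ?_)
  congr 1
  funext n
  congr

end

end Pool.Agent.Helper78.GC
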