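import Mathlib
import Pool.Agent.Helper78.GC.Freq

/-!
# Uniform limits of trigonometric polynomials
-/

open Set Filter
open scoped Real ComplexConjugate Topology

namespace Pool.Agent.Helper78.GC

open Pool.Agent.Helper22.GC (norm_ee)

noncomputable section

lemma norm_mn_le {u : ℕ → ℂ} {C : ℝ} (hC : 0 ≤ C) (h : ∀ n, ‖u n‖ ≤ C) (p : ℕ × ℕ) : ‖mn u p‖ ≤ C := by
  rcases Nat.eq_zero_or_pos p.2 with h0 | h0
  · rw [mn, h0]; simpa using hC
  · have hp : (0 : ℝ) < p.2 := by exact_mod_cast h0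
    rw [mn, norm_mul, norm_div, norm_one, Complex.norm_natCast, one_div, inv_mul_eq_div,
      div_le_iff₀ hp]
    refine (norm_sum_le_of_le _ fun n _ => h n).trans ?_
    rw [Finset.sum_const, Nat.card_Ioc, nsmul_eq_mul, add_tsub_cancel_left, mul_comm]

lemma mn_sub (u v : ℕ → ℂ) (p : ℕ × ℕ) : mn (fun n => u n - v n) p = mn u p - mn v p := by
  simp [mn, Finset.sum_sub_distrib, mul_sub]

lemma TP_bounded {Θ : AddSubgroup ℝ} {u : ℕ → ℂ} (hu : u ∈ TP Θ) : ∃ C : ℝ, 0 ≤ C ∧ ∀ n, ‖u n‖ ≤ C := by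
  refine TP_induction (p := fun u => ∃ C : ℝ, 0 ≤ C ∧ ∀ n, ‖u n‖ ≤ C) ?_ ?_ ?_ ?_ hu
  · intro θ _
    exact ⟨1, zero_le_one, fun n => by rw [ch, norm_ee]⟩
  · exact ⟨0, le_rfl, fun n => by simp⟩
  · rintro u v ⟨C, hC, h⟩ ⟨D, hD, h'⟩
    exact ⟨C + D, by positivity, fun n => (norm_add_le _ _).trans (add_le_add (h n) (h' n))⟩
  · rintro c u ⟨C, hC, h⟩
    refine ⟨‖c‖ * C, by positivity, fun n => ?_⟩
    rw [Pi.smul_apply, norm_smul]
    exact mul_le_mul_of_nonneg_left (h n) (norm_nonneg _)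

/-- Uniform limits of trigonometric polynomials with frequencies in `Θ`. -/
def AP (Θ : AddSubgroup ℝ) (u : ℕ → ℂ) : Prop := ∀ ε : ℝ, 0 < ε → ∃ v ∈ TP Θ, ∀ n, ‖u n - v n‖ ≤ ε

lemma AP_of_TP {Θ : AddSubgroup ℝ} {u : ℕ → ℂ} (hu : u ∈ TP Θ) : AP Θ u :=
  fun ε hε => ⟨u, hu, fun n => by rw [sub_self, norm_zero]; exact hε.le⟩

lemma AP_mono {Θ Θ' : AddSubgroup ℝ} (h : Θ ≤ Θ') {u : ℕ → ℂ} (hu : AP Θ u) : AP Θ' u :=
  fun ε hε => let ⟨v, hv, h'⟩ := hu ε hε; ⟨v, TP_mono h hv, h'⟩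

lemma AP_bounded {Θ : AddSubgroup ℝ} {u : ℕ → ℂ} (hu : AP Θ u) : ∃ C : ℝ, 0 ≤ C ∧ ∀ n, ‖u n‖ ≤ C := by
  obtain ⟨v, hv, h⟩ := hu 1 one_pos
  obtain ⟨C, hC, h'⟩ := TP_bounded hv
  refine ⟨1 + C, by positivity, fun n => ?_⟩
  have : u n = (u n - v n) + v n := by ring
  rw [this]
  exact (norm_add_le _ _).trans (add_le_add (h n) (h' n))

lemma AP_mul {Θ : AddSubgroup ℝ} {u v : ℕ → ℂ} (hu : AP Θ u) (hv : AP Θ v) :
    AP Θ (fun n => u n * v n) := by
  intro ε hε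
  obtain ⟨C, hC, hCu⟩ := AP_bounded hu
  obtain ⟨v', hv', hvv'⟩ := hv (ε / (2 * (C + 1))) (by positivity)
  obtain ⟨D, hD, hDv⟩ := TP_bounded hv'
  obtain ⟨u', hu', huu'⟩ := hu (ε / (2 * (D + 1))) (by positivity)
  refine ⟨u' * v', (TP Θ).mul_mem hu' hv', fun n => ?_⟩
  have e : u n * v n - (u' * v') n = u n * (v n - v' n) + (u n - u' n) * v' n := by
    rw [Pi.mul_apply]; ring
  rw [e]
  refine (norm_add_le _ _).trans ?_
  rw [norm_mul, norm_mul]
  have h1 : ‖u n‖ * ‖v n - v' n‖ ≤ C * (ε / (2 * (C + 1))) :=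
    mul_le_mul (hCu n) (hvv' n) (norm_nonneg _) hC
  have h2 : ‖u n - u' n‖ * ‖v' n‖ ≤ (ε / (2 * (D + 1))) * D :=
    mul_le_mul (huu' n) (hDv n) (norm_nonneg _) (by positivity)
  have h3 : C * (ε / (2 * (C + 1))) ≤ ε / 2 := by
    rw [mul_div_assoc', div_le_div_iff₀ (by positivity) (by norm_num)]
    nlinarith
  have h4 : (ε / (2 * (D + 1))) * D ≤ ε / 2 := by
    rw [div_mul_eq_mul_div, div_le_div_iff₀ (by positivity) (by norm_num)]
    nlinarith
  linarith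

lemma AP_one (Θ : AddSubgroup ℝ) : AP Θ (fun _ => 1) := AP_of_TP (TP Θ).one_mem

lemma AP_prod {Θ : AddSubgroup ℝ} {ι : Type*} (S : Finset ι) {f : ι → ℕ → ℂ}
    (hf : ∀ i ∈ S, AP Θ (f i)) : AP Θ (fun n => ∏ i ∈ S, f i n) := by
  classical
  induction S using Finset.induction_on with
  | empty => simpa using AP_one Θ
  | insert a S ha ih =>
    have h1 := AP_mul (hf a (Finset.mem_insert_self _ _)) (ih fun i hi => hf i (Finset.mem_insert_of_mem hi))
    refine (show (fun n => ∏ i ∈ insert a S, f i n) = fun n => f a n * ∏ i ∈ S, f i n from ?_) ▸ h1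
    funext n
    rw [Finset.prod_insert ha]

lemma tendsto_AP {Θ : AddSubgroup ℝ} {u : ℕ → ℂ} (hu : AP Θ u) : Tendsto (mn u) Gf (𝓝 (Lc u)) := by
  refine tendsto_nhds_limUnder ?_
  rw [← cauchy_map_iff_exists_tendsto, Metric.cauchy_iff]
  refine ⟨inferInstance, fun ε hε => ?_⟩
  obtain ⟨v, hv, h⟩ := hu (ε / 6) (by positivity)
  have h1 := (Metric.tendsto_nhds.mp (tendsto_Lc hv)) (ε / 6) (by positivity)
  refine ⟨mn u '' {p | dist (mn v p) (Lc v) < ε / 6}, image_mem_map h1, ?_⟩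
  have key : ∀ p, dist (mn v p) (Lc v) < ε / 6 → dist (mn u p) (Lc v) < ε / 2 := by
    intro p hp
    have h2 : dist (mn u p) (mn v p) ≤ ε / 6 := by
      rw [dist_eq_norm, ← mn_sub]
      exact norm_mn_le (by positivity) h p
    have := dist_triangle (mn u p) (mn v p) (Lc v)
    linarith
  rintro _ ⟨p, hp, rfl⟩ _ ⟨p', hp', rfl⟩
  have h3 := key p hp
  have h4 := key p' hp'
  have := dist_triangle_right (mn u p) (mn u p') (Lc v)
  linarith

lemma Lc_sub_le {Θ : AddSubgroup ℝ} {u v : ℕ → ℂ} (hu : AP Θ u) (hv : AP Θ v) {ε : ℝ} (hε : 0 ≤ ε)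
    (h : ∀ n, ‖u n - v n‖ ≤ ε) : ‖Lc u - Lc v‖ ≤ ε := by
  have h1 := ((tendsto_AP hu).sub (tendsto_AP hv)).norm
  refine le_of_tendsto h1 (Eventually.of_forall fun p => ?_)
  rw [← mn_sub]
  exact norm_mn_le hε h p

lemma norm_Lc_le {Θ : AddSubgroup ℝ} {u : ℕ → ℂ} (hu : AP Θ u) {C : ℝ} (hC : 0 ≤ C)
    (h : ∀ n, ‖u n‖ ≤ C) : ‖Lc u‖ ≤ C :=
  le_of_tendsto (tendsto_AP hu).norm (Eventually.of_forall fun p => norm_mn_le hC h p)

/-- The product rule for uniform limits. -/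
theorem Lc_mul_AP {Θ₀ Θ₁ : AddSubgroup ℝ} (hind : Indep Θ₀ Θ₁) {u v : ℕ → ℂ} (hu : AP Θ₀ u)
    (hv : AP Θ₁ v) : Lc (fun n => u n * v n) = Lc u * Lc v := by
  obtain ⟨C, hC, hCu⟩ := AP_bounded hu
  obtain ⟨D, hD, hDv⟩ := AP_bounded hv
  have hu' : AP (Θ₀ ⊔ Θ₁) u := AP_mono le_sup_left hu
  have hv' : AP (Θ₀ ⊔ Θ₁) v := AP_mono le_sup_right hv
  have key : ∀ ε : ℝ, 0 < ε → ε ≤ 1 →
      ‖Lc (fun n => u n * v n) - Lc u * Lc v‖ ≤ (2 * C + 2 * D + 2) * ε := by
    intro ε hε hε1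
    obtain ⟨u', hu1, hu2⟩ := hu ε hε
    obtain ⟨v', hv1, hv2⟩ := hv ε hε
    have hu1' : AP (Θ₀ ⊔ Θ₁) u' := AP_mono le_sup_left (AP_of_TP hu1)
    have hv1' : AP (Θ₀ ⊔ Θ₁) v' := AP_mono le_sup_right (AP_of_TP hv1)
    have b1 : ∀ n, ‖v' n‖ ≤ D + 1 := by
      intro n
      have : v' n = v n - (v n - v' n) := by ring
      rw [this]
      exact (norm_sub_le _ _).trans (by linarith [hDv n, hv2 n])
    have b2 : ∀ n, ‖u n * v n - u' n * v' n‖ ≤ C * ε + ε * (D + 1) := by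
      intro n
      have e : u n * v n - u' n * v' n = u n * (v n - v' n) + (u n - u' n) * v' n := by ring
      rw [e]
      refine (norm_add_le _ _).trans ?_
      rw [norm_mul, norm_mul]
      exact add_le_add (mul_le_mul (hCu n) (hv2 n) (norm_nonneg _) hC)
        (mul_le_mul (hu2 n) (b1 n) (norm_nonneg _) hε.le)
    have a1 := Lc_sub_le (AP_mul hu' hv') (AP_mul hu1' hv1') (by positivity) b2
    have a2 : Lc (fun n => u' n * v' n) = Lc u' * Lc v' := Lc_mul hind hu1 hv1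
    have a3 := Lc_sub_le hu' hu1' hε.le hu2
    have a4 := Lc_sub_le hv' hv1' hε.le hv2
    have a5 := norm_Lc_le hu' hC hCu
    have a6 := norm_Lc_le hv1' (by positivity) b1
    have a7 : ‖Lc u * Lc v - Lc u' * Lc v'‖ ≤ C * ε + ε * (D + 1) := by
      have e : Lc u * Lc v - Lc u' * Lc v' = Lc u * (Lc v - Lc v') + (Lc u - Lc u') * Lc v' := by ring
      rw [e]
      refine (norm_add_le _ _).trans ?_
      rw [norm_mul, norm_mul]
      exact add_le_add (mul_le_mul a5 a4 (norm_nonneg _) hC) (mul_le_mul a3 a6 (norm_nonneg _) hε.le)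
    have e : Lc (fun n => u n * v n) - Lc u * Lc v
        = (Lc (fun n => u n * v n) - Lc (fun n => u' n * v' n)) - (Lc u * Lc v - Lc u' * Lc v') := by
      rw [a2]; ring
    rw [e]
    refine (norm_sub_le _ _).trans ?_
    linarith
  have hzero : ‖Lc (fun n => u n * v n) - Lc u * Lc v‖ ≤ 0 := by
    refine le_of_forall_pos_le_add fun δ hδ => ?_
    have h1 := key (min 1 (δ / (2 * C + 2 * D + 2))) (lt_min one_pos (by positivity)) (min_le_left _ _)
    refine h1.trans ?_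
    rw [zero_add]
    calc (2 * C + 2 * D + 2) * min 1 (δ / (2 * C + 2 * D + 2))
        ≤ (2 * C + 2 * D + 2) * (δ / (2 * C + 2 * D + 2)) :=
          mul_le_mul_of_nonneg_left (min_le_right _ _) (by positivity)
      _ = δ := by field_simp
  exact sub_eq_zero.mp (norm_le_zero_iff.mp hzero)

/-- The product rule over several independent frequency groups, for uniform limits. -/
theorem Lc_prod_AP {α : ℝ} {Q₀ : Finset ℕ} (hb : Bad α Q₀) {S₀ : Finset ℕ}
    (hS₀ : ∀ q ∈ S₀, Squarefree q) {κ : ℕ → ℂ} (hκ : AP (Th α S₀) κ) (T : Finset ℕ)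
    (hT : ∀ q ∈ T, Squarefree q) (hTS : Disjoint S₀ T) (hT0 : ∀ q ∈ T, q ∉ Q₀)
    (f : ℕ → ℕ → ℂ) (hf : ∀ q ∈ T, AP (Th α {q}) (f q)) :
    Lc (fun n => κ n * ∏ q ∈ T, f q n) = Lc κ * ∏ q ∈ T, Lc (f q) := by
  classical
  induction T using Finset.induction_on with
  | empty => simp
  | insert a T ha ih =>
    rw [Finset.disjoint_insert_right] at hTS
    have hT' : ∀ q ∈ T, Squarefree q := fun q hq => hT q (Finset.mem_insert_of_mem hq)
    have hT0' : ∀ q ∈ T, q ∉ Q₀ := fun q hq => hT0 q (Finset.mem_insert_of_mem hq)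
    have hf' : ∀ q ∈ T, AP (Th α {q}) (f q) := fun q hq => hf q (Finset.mem_insert_of_mem hq)
    have ih' := ih hT' hTS.2 hT0' hf'
    have hmem : AP (Th α (S₀ ∪ T)) (fun n => κ n * ∏ q ∈ T, f q n) := by
      refine AP_mul (AP_mono (Th_mono Finset.subset_union_left) hκ) (AP_prod T fun q hq => ?_)
      exact AP_mono (Th_mono (by
        intro x hx; rw [Finset.mem_singleton] at hx; subst hx
        exact Finset.mem_union_right _ hq)) (hf' q hq)
    have hind : Indep (Th α (S₀ ∪ T)) (Th α {a}) := by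
      refine indep_Th hb ?_ ?_ ?_ ?_
      · exact fun q hq => (Finset.mem_union.mp hq).elim (hS₀ q) (hT' q)
      · intro q hq; rw [Finset.mem_singleton] at hq; subst hq
        exact hT q (Finset.mem_insert_self _ _)
      · rw [Finset.disjoint_singleton_right, Finset.mem_union]
        rintro (h | h)
        · exact hTS.1 h
        · exact ha h
      · intro q hq; rw [Finset.mem_singleton] at hq; subst hq
        exact hT0 q (Finset.mem_insert_self _ _)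
    have h1 := Lc_mul_AP hind hmem (hf a (Finset.mem_insert_self _ _))
    rw [ih'] at h1
    rw [Finset.prod_insert ha, mul_comm (Lc (f a)), ← mul_assoc, ← h1]
    congr 1
    funext n
    rw [Finset.prod_insert ha]
    ring

lemma RT_bounded {Θ : AddSubgroup ℝ} {f : ℕ → ℝ} (hf : f ∈ RT Θ) : ∃ C : ℝ, 0 ≤ C ∧ ∀ n, |f n| ≤ C := by
  obtain ⟨C, hC, h⟩ := TP_bounded (mem_RT.mp hf)
  refine ⟨C, hC, fun n => ?_⟩
  have := h n
  rwa [Complex.norm_real, Real.norm_eq_abs] at this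

/-- The exponential of a real trigonometric polynomial. -/
lemma AP_exp {Θ : AddSubgroup ℝ} {f : ℕ → ℝ} (hf : f ∈ RT Θ) :
    AP Θ (fun n => Complex.exp (f n * Complex.I)) := by
  intro ε hε
  obtain ⟨C, hC, h⟩ := RT_bounded hf
  have hsum : Tendsto (fun N : ℕ => ∑ k ∈ Finset.range N, C ^ k / k.factorial) atTop (𝓝 (Real.exp C)) := by
    have := (NormedSpace.expSeries_div_hasSum_exp (𝔸 := ℝ) C).tendsto_sum_nat
    rwa [← Real.exp_eq_exp_ℝ] at this
  obtain ⟨N, hN⟩ := (hsum.eventually_const_lt (show Real.exp C - ε < Real.exp C by linarith)).exists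
  have hterm : ∀ k : ℕ, (fun n => ((f n : ℂ) * Complex.I) ^ k / (k.factorial : ℂ)) ∈ TP Θ := by
    intro k
    have e : (fun n => ((f n : ℂ) * Complex.I) ^ k / (k.factorial : ℂ))
        = (Complex.I ^ k / (k.factorial : ℂ)) • (fun n => (f n : ℂ)) ^ k := by
      funext n
      rw [Pi.smul_apply, Pi.pow_apply, smul_eq_mul, mul_pow]
      ring
    rw [e]
    exact (TP Θ).smul_mem ((TP Θ).pow_mem (mem_RT.mp hf) k) _
  refine ⟨∑ k ∈ Finset.range N, fun n => ((f n : ℂ) * Complex.I) ^ k / (k.factorial : ℂ),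
    (TP Θ).sum_mem fun k _ => hterm k, fun n => ?_⟩
  rw [Finset.sum_apply]
  have h1 : HasSum (fun k : ℕ => ((f n : ℂ) * Complex.I) ^ k / (k.factorial : ℂ))
      (Complex.exp (f n * Complex.I)) := by
    have := NormedSpace.expSeries_div_hasSum_exp (𝔸 := ℂ) ((f n : ℂ) * Complex.I)
    rwa [← Complex.exp_eq_exp_ℂ] at this
  have h2 : HasSum (fun k : ℕ => C ^ k / k.factorial) (Real.exp C) := by
    have := NormedSpace.expSeries_div_hasSum_exp (𝔸 := ℝ) C
    rwa [← Real.exp_eq_exp_ℝ] at this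
  have h3 := (hasSum_nat_add_iff' N).mpr h1
  have h4 := (hasSum_nat_add_iff' N).mpr h2
  rw [← h3.tsum_eq]
  refine (tsum_of_norm_bounded h4 fun k => ?_).trans (by linarith)
  rw [norm_div, norm_pow, norm_mul, Complex.norm_I, mul_one, Complex.norm_real, Real.norm_eq_abs,
    Complex.norm_natCast]
  exact div_le_div_of_nonneg_right (pow_le_pow_left₀ (abs_nonneg _) (h n) _) (by positivity)

end

end Pool.Agent.Helper78.GC
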