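import Mathlib
import Pool.Agent.Helper78.GC.Steer2
import Pool.Agent.Helper78.GC.AP

/-!
# Lower bounds for variances and bounds for means of exponentials
-/

open Set Filter
open scoped Real ComplexConjugate Topology

namespace Pool.Agent.Helper78.GC

open Pool.Agent.Helper22.GC (rho rho_nonneg ee)

set_option linter.unusedSectionVars false

noncomputable section

variable {ι : Type} [Fintype ι]

/-- The Gram sums. -/
def grm (r : ι → ℕ) (s : ι → ℝ) (q h : ℕ) (ξ : ι → ℝ) : ℝ :=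
  (∑ i, ξ i * bet r q h i * Real.cos (phs r s q h i)) ^ 2
      + (∑ i, ξ i * bet r q h i * Real.sin (phs r s q h i)) ^ 2

lemma Ast_eq (r : ι → ℕ) (s : ι → ℝ) (q : ℕ) (ξ : ι → ℝ) :
    Ast r s q ξ = ∑ h ∈ Finset.univ.image r, (1 / rho q) * (1 / (2 * π)) * grm r s q h ξ := rfl

/-- The oscillating part of the steering factor. -/
def osc (α : ℝ) (r : ι → ℕ) (s : ι → ℝ) (ξ : ι → ℝ) (q n : ℕ) : ℝ :=
  ∑ h ∈ Finset.univ.image r, ∑ i, ((1 / rho q) * ξ i * bet r q h i) *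
    Real.cos (2 * π * (n * ((h : ℝ) * (α * √(q : ℝ)))) + phs r s q h i)

lemma hmem' (α : ℝ) (q j : ℕ) (φ : ℝ) :
    (fun n : ℕ => Real.cos (2 * π * (n * (((j : ℕ) : ℝ) * (α * √(q : ℝ)))) + φ)) ∈ RT (Th α {q}) :=
  cos_mem_RT (nat_mul_gen_mem (Finset.mem_singleton_self q) j) φ

lemma osc_mem (α : ℝ) (r : ι → ℕ) (s : ι → ℝ) (ξ : ι → ℝ) (q : ℕ) : osc α r s ξ q ∈ RT (Th α {q}) :=
  sum_mem_RT _ fun h _ => sum_mem_RT _ fun i _ => const_mul_mem_RT _ (hmem' α q h _)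

lemma gst_eq (α : ℝ) (r : ι → ℕ) (s : ι → ℝ) (ξ : ι → ℝ) (q n : ℕ) :
    gst α r s ξ q n = 1 + osc α r s ξ q n := rfl

lemma Lr_osc_cos {α : ℝ} {Q₀ : Finset ℕ} (hb : Bad α Q₀) {r : ι → ℕ} (s : ι → ℝ) (hr : ∀ i, 1 ≤ r i)
    (ξ : ι → ℝ) {q : ℕ} (hq : Squarefree q) (hq0 : q ∉ Q₀) {h : ℕ} (hh : h ∈ Finset.univ.image r) (ψ : ℝ) :
    Lr (fun n => osc α r s ξ q n * Real.cos (2 * π * (n * ((h : ℝ) * (α * √(q : ℝ)))) + ψ))
      = ∑ k, ((1 / rho q) * ξ k * bet r q h k) * (Real.cos (phs r s q h k - ψ) / 2) := by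
  classical
  have hgen : α * √(q : ℝ) ≠ 0 := by
    intro h0
    have := hb {q} (fun _ => 1) 0 (by simpa using hq) (by simp [h0]) q (Finset.mem_singleton_self q) hq0
    simp at this
  have hpos : ∀ h ∈ Finset.univ.image r, 1 ≤ h := by
    intro h hh
    rw [Finset.mem_image] at hh
    obtain ⟨i, _, rfl⟩ := hh
    exact hr i
  have e1 : (fun n => osc α r s ξ q n * Real.cos (2 * π * (n * ((h : ℝ) * (α * √(q : ℝ)))) + ψ))
      = fun n : ℕ => ∑ h' ∈ Finset.univ.image r, (fun (h' n : ℕ) => ∑ k, ((1 / rho q) * ξ k * bet r q h' k) *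
    (Real.cos (2 * π * (n * ((h' : ℝ) * (α * √(q : ℝ)))) + phs r s q h' k)
      * Real.cos (2 * π * (n * ((h : ℝ) * (α * √(q : ℝ)))) + ψ))) h' n := by
    funext n
    rw [osc, Finset.sum_mul]
    refine Finset.sum_congr rfl fun h' _ => ?_
    rw [Finset.sum_mul]
    exact Finset.sum_congr rfl fun k _ => by ring
  rw [e1, Lr_sum (Θ := Th α {q}) _ fun h' _ => sum_mem_RT _ fun k _ =>
    const_mul_mem_RT _ (mul_mem_RT (hmem' α q h' _) (hmem' α q h _))]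
  rw [Finset.sum_eq_single h]
  · rw [Lr_sum (Θ := Th α {q}) _ fun k _ => const_mul_mem_RT _ (mul_mem_RT (hmem' α q h _) (hmem' α q h _))]
    refine Finset.sum_congr rfl fun k _ => ?_
    rw [Lr_const_mul _ (mul_mem_RT (hmem' α q h _) (hmem' α q h _)), Lr_cos_mul_cos, if_pos rfl]
    · have := not_int hb hq hq0 (h := ((h + h : ℕ) : ℤ)) (by have := hpos h hh; omega)
      rintro ⟨m, hm⟩
      exact this ⟨m, by rw [← hm]; push_cast; ring⟩
    · left; rfl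
  · intro h' hh' hne
    rw [Lr_sum (Θ := Th α {q}) _ fun k _ => const_mul_mem_RT _ (mul_mem_RT (hmem' α q h' _) (hmem' α q h _))]
    refine Finset.sum_eq_zero fun k _ => ?_
    have hne' : ¬ (h' : ℝ) * (α * √(q : ℝ)) = (h : ℝ) * (α * √(q : ℝ)) := by
      intro h1
      apply hne
      have := mul_right_cancel₀ hgen h1
      exact_mod_cast this
    rw [Lr_const_mul _ (mul_mem_RT (hmem' α q h' _) (hmem' α q h _)), Lr_cos_mul_cos, if_neg hne', mul_zero]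
    · have := not_int hb hq hq0 (h := ((h' + h : ℕ) : ℤ)) (by have := hpos h hh; omega)
      rintro ⟨m, hm⟩
      exact this ⟨m, by rw [← hm]; push_cast; ring⟩
    · right
      have := not_int hb hq hq0 (h := ((h' : ℕ) : ℤ) - (h : ℤ)) (by omega)
      rintro ⟨m, hm⟩
      exact this ⟨m, by rw [← hm]; push_cast; ring⟩
  · intro h1; exact absurd hh h1

lemma Lr_osc_sq {α : ℝ} {Q₀ : Finset ℕ} (hb : Bad α Q₀) {r : ι → ℕ} (s : ι → ℝ) (hr : ∀ i, 1 ≤ r i)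
    (ξ : ι → ℝ) {q : ℕ} (hq : Squarefree q) (hq0 : q ∉ Q₀) :
    Lr (fun n => osc α r s ξ q n ^ 2) = (1 / rho q) * π * Ast r s q ξ := by
  classical
  have hO := osc_mem α r s ξ q
  have e1 : (fun n => osc α r s ξ q n ^ 2)
      = fun n : ℕ => ∑ h ∈ Finset.univ.image r, (fun (h n : ℕ) => ∑ i, ((1 / rho q) * ξ i * bet r q h i) *
    (osc α r s ξ q n * Real.cos (2 * π * (n * ((h : ℝ) * (α * √(q : ℝ)))) + phs r s q h i))) h n := by
    funext n
    rw [pow_two]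
    nth_rw 2 [osc]
    rw [Finset.mul_sum]
    refine Finset.sum_congr rfl fun h _ => ?_
    rw [Finset.mul_sum]
    exact Finset.sum_congr rfl fun k _ => by ring
  rw [e1, Lr_sum (Θ := Th α {q}) _ fun h _ => sum_mem_RT _ fun k _ =>
    const_mul_mem_RT _ (mul_mem_RT hO (hmem' α q h _)), Ast_eq, Finset.mul_sum]
  refine Finset.sum_congr rfl fun h hh => ?_
  rw [Lr_sum (Θ := Th α {q}) _ fun k _ => const_mul_mem_RT _ (mul_mem_RT hO (hmem' α q h _))]
  have e2 : ∀ i ∈ (Finset.univ : Finset ι), Lr (fun n => ((1 / rho q) * ξ i * bet r q h i) *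
      (osc α r s ξ q n * Real.cos (2 * π * (n * ((h : ℝ) * (α * √(q : ℝ)))) + phs r s q h i)))
      = ∑ k, (1 / rho q) ^ 2 / 2 * (ξ i * (ξ k * (bet r q h i * bet r q h k *
        Real.cos (phs r s q h i - phs r s q h k)))) := by
    intro i _
    rw [Lr_const_mul _ (mul_mem_RT hO (hmem' α q h _)), Lr_osc_cos hb s hr ξ hq hq0 hh, Finset.mul_sum]
    refine Finset.sum_congr rfl fun k _ => ?_
    rw [← Real.cos_neg (phs r s q h k - phs r s q h i), neg_sub]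
    ring
  have e3 : ∑ i, ∑ k, (1 / rho q) ^ 2 / 2 * (ξ i * (ξ k * (bet r q h i * bet r q h k *
        Real.cos (phs r s q h i - phs r s q h k)))) = (1 / rho q) ^ 2 / 2 *
        ∑ i, ∑ k, (ξ i * (ξ k * (bet r q h i * bet r q h k *
        Real.cos (phs r s q h i - phs r s q h k)))) := by
    simp only [Finset.mul_sum]
  rw [Finset.sum_congr rfl e2, e3, gram, grm]
  have hpi := Real.pi_ne_zero
  field_simp

/-- The linear combination of the parts. -/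
def Zq (α : ℝ) (r : ι → ℕ) (s : ι → ℝ) (ξ : ι → ℝ) (K q n : ℕ) : ℝ := ∑ i, ξ i * X α (r i) (s i) K q n

lemma Zq_mem (α : ℝ) (r : ι → ℕ) (s : ι → ℝ) (ξ : ι → ℝ) (K q : ℕ) :
    Zq α r s ξ K q ∈ RT (Th α {q}) :=
  sum_mem_RT _ fun i _ => const_mul_mem_RT _ (X_mem _ _ _ _ _)

lemma Lr_Zq {α : ℝ} {Q₀ : Finset ℕ} (hb : Bad α Q₀) {r : ι → ℕ} (s : ι → ℝ) (hr : ∀ i, 1 ≤ r i)
    (ξ : ι → ℝ) {q K : ℕ} (hq : Squarefree q) (hq0 : q ∉ Q₀) : Lr (Zq α r s ξ K q) = 0 := by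
  have e1 : Zq α r s ξ K q = fun n : ℕ => ∑ i, (fun (i : ι) (n : ℕ) => ξ i * X α (r i) (s i) K q n) i n := rfl
  rw [e1, Lr_sum (Θ := Th α {q}) _ fun i _ => const_mul_mem_RT _ (X_mem _ _ _ _ _)]
  refine Finset.sum_eq_zero fun i _ => ?_
  rw [Lr_const_mul _ (X_mem _ _ _ _ _), Lr_X hb (s i) (hr i) hq hq0, mul_zero]

/-- The variance of a part. -/
theorem var_lower {α : ℝ} {Q₀ : Finset ℕ} (hb : Bad α Q₀) {r : ι → ℕ} (s : ι → ℝ) (hr : ∀ i, 1 ≤ r i)
    (ξ : ι → ℝ) {q K : ℕ} (hq : Squarefree q) (hq0 : q ∉ Q₀) (hK : ∀ i, q * (r i) ^ 2 ≤ K) :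
    rho q / π * Ast r s q ξ ≤ Lr (fun n => Zq α r s ξ K q n ^ 2) := by
  classical
  by_cases h0 : rho q = 0
  · rw [h0, zero_div, zero_mul]
    exact Lr_nonneg (pow_mem_RT (Zq_mem α r s ξ K q) 2) fun n => sq_nonneg _
  have hZ := Zq_mem α r s ξ K q
  have hO := osc_mem α r s ξ q
  set c : ℝ := rho q / π with hc
  have hcross : Lr (fun n => osc α r s ξ q n * Zq α r s ξ K q n) = Ast r s q ξ := by
    have e1 : (fun n => osc α r s ξ q n * Zq α r s ξ K q n)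
        = (fun n : ℕ => ∑ i, (fun (i : ι) (n : ℕ) => ξ i * (gst α r s ξ q n * X α (r i) (s i) K q n)) i n)
          + (fun n : ℕ => (-1) * Zq α r s ξ K q n) := by
      funext n
      simp only [Pi.add_apply, gst_eq, Zq]
      rw [Finset.mul_sum, Finset.mul_sum, ← Finset.sum_add_distrib]
      exact Finset.sum_congr rfl fun i _ => by ring
    rw [e1, Lr_add (Θ := Th α {q}) (sum_mem_RT _ fun i _ => const_mul_mem_RT _
      (mul_mem_RT (gst_mem _ _ _ _ _) (X_mem _ _ _ _ _))) (const_mul_mem_RT _ hZ),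
      Lr_const_mul _ hZ, Lr_Zq hb s hr ξ hq hq0, mul_zero, add_zero,
      Lr_sum (Θ := Th α {q}) _ fun i _ => const_mul_mem_RT _ (mul_mem_RT (gst_mem _ _ _ _ _) (X_mem _ _ _ _ _)),
      ← sum_Mst]
    refine Finset.sum_congr rfl fun i _ => ?_
    rw [Lr_const_mul _ (mul_mem_RT (gst_mem _ _ _ _ _) (X_mem _ _ _ _ _)), gst_X hb s hr ξ hq hq0 hK]
  have hOsq := Lr_osc_sq hb s hr ξ hq hq0
  have hpt : ∀ n, 2 * c * (osc α r s ξ q n * Zq α r s ξ K q n) + (-(c ^ 2)) * osc α r s ξ q n ^ 2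
      ≤ Zq α r s ξ K q n ^ 2 := fun n => by
    nlinarith [sq_nonneg (Zq α r s ξ K q n - c * osc α r s ξ q n)]
  have h1 := Lr_mono (add_mem_RT (const_mul_mem_RT (2 * c) (mul_mem_RT hO hZ))
    (const_mul_mem_RT (-(c ^ 2)) (pow_mem_RT hO 2))) (pow_mem_RT hZ 2) hpt
  have h2 : Lr (fun n => 2 * c * (osc α r s ξ q n * Zq α r s ξ K q n) + (-(c ^ 2)) * osc α r s ξ q n ^ 2)
      = 2 * c * Ast r s q ξ + (-(c ^ 2)) * ((1 / rho q) * π * Ast r s q ξ) := by
    have := Lr_add (const_mul_mem_RT (2 * c) (mul_mem_RT hO hZ)) (const_mul_mem_RT (-(c ^ 2)) (pow_mem_RT hO 2))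
    rw [Lr_const_mul _ (mul_mem_RT hO hZ), Lr_const_mul _ (pow_mem_RT hO 2), hcross, hOsq] at this
    exact this
  rw [h2] at h1
  refine le_trans (le_of_eq ?_) h1
  have hpi := Real.pi_ne_zero
  rw [hc]
  field_simp
  ring

/-! ### Exponentials -/

lemma mn_norm_le_mr {u : ℕ → ℂ} {g : ℕ → ℝ} (h : ∀ n, ‖u n‖ ≤ g n) (p : ℕ × ℕ) : ‖mn u p‖ ≤ mr g p := by
  rw [mn, mr, norm_mul, norm_div, norm_one, Complex.norm_natCast]
  exact mul_le_mul_of_nonneg_left (norm_sum_le_of_le _ fun n _ => h n) (by positivity)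

lemma exp_taylor {x : ℝ} (hx : |x| ≤ 1) :
    ‖Complex.exp (x * Complex.I) - (1 + x * Complex.I - (x ^ 2 / 2 : ℝ))‖ ≤ 2 / 9 * x ^ 2 := by
  have hn : ‖(x * Complex.I : ℂ)‖ = |x| := by
    rw [norm_mul, Complex.norm_I, mul_one, Complex.norm_real, Real.norm_eq_abs]
  have h1 := Complex.exp_bound (x := x * Complex.I) (by rw [hn]; exact hx) (n := 3) (by norm_num)
  have h2 : ∑ m ∈ Finset.range 3, (x * Complex.I : ℂ) ^ m / (m.factorial : ℂ)
      = 1 + x * Complex.I - (x ^ 2 / 2 : ℝ) := by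
    rw [Finset.sum_range_succ, Finset.sum_range_succ, Finset.sum_range_succ, Finset.sum_range_zero]
    simp only [Nat.factorial, pow_zero, pow_one]
    have : (x * Complex.I : ℂ) ^ 2 = -(x ^ 2 : ℂ) := by
      rw [mul_pow, Complex.I_sq]; ring
    rw [this]
    push_cast
    ring
  rw [h2, hn] at h1
  refine h1.trans ?_
  have h3 : |x| ^ 3 ≤ x ^ 2 := by
    rw [pow_succ, sq_abs]
    nlinarith [sq_nonneg x, abs_nonneg x]
  have h4 : ((Nat.succ 3 : ℕ) : ℝ) * ((Nat.factorial 3 : ℕ) * (3 : ℕ) : ℝ)⁻¹ = 2 / 9 := by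
    norm_num [Nat.factorial]
  rw [h4]
  linarith

/-- The mean of the exponential of a small centred term. -/
theorem norm_Lc_exp_le {Θ : AddSubgroup ℝ} {f : ℕ → ℝ} (hf : f ∈ RT Θ) (h1 : ∀ n, |f n| ≤ 1)
    (h0 : Lr f = 0) :
    ‖Lc (fun n => Complex.exp (f n * Complex.I))‖ ≤ Real.exp (-(Lr (fun n => f n ^ 2) / 4)) := by
  set V : ℝ := Lr (fun n => f n ^ 2) with hV
  have hV0 : 0 ≤ V := Lr_nonneg (pow_mem_RT hf 2) fun n => sq_nonneg _
  have hV1 : V ≤ 1 := by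
    have := Lr_mono (pow_mem_RT hf 2) (const_mem_RT Θ 1) fun n => by
      rw [← sq_abs]
      exact pow_le_one₀ (abs_nonneg _) (h1 n)
    rwa [Lr_const] at this
  have hT := tendsto_AP (AP_exp hf)
  have hlim : Tendsto (fun p => ‖mn (fun n => Complex.exp (f n * Complex.I)) p - (1 + (mr f p : ℂ) * Complex.I
      - ((mr (fun n => f n ^ 2) p / 2 : ℝ) : ℂ))‖ ) Gf
      (𝓝 ‖Lc (fun n => Complex.exp (f n * Complex.I)) - (1 + ((0 : ℝ) : ℂ) * Complex.I - ((V / 2 : ℝ) : ℂ))‖) := by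
    refine (hT.sub ((tendsto_const_nhds.add (Tendsto.mul_const _ ?_)).sub ?_)).norm
    · have := tendsto_Lr hf
      rw [h0] at this
      exact (Complex.continuous_ofReal.tendsto _).comp this
    · have := (tendsto_Lr (pow_mem_RT hf 2)).div_const 2
      exact (Complex.continuous_ofReal.tendsto _).comp this
  have hbd : ∀ᶠ p in Gf, ‖mn (fun n => Complex.exp (f n * Complex.I)) p - (1 + (mr f p : ℂ) * Complex.I
      - ((mr (fun n => f n ^ 2) p / 2 : ℝ) : ℂ))‖ ≤ 2 / 9 * mr (fun n => f n ^ 2) p := by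
    filter_upwards [eventually_one_le] with p hp
    have e1 : mn (fun n => Complex.exp (f n * Complex.I)) p - (1 + (mr f p : ℂ) * Complex.I
      - ((mr (fun n => f n ^ 2) p / 2 : ℝ) : ℂ))
      = mn (fun n => Complex.exp (f n * Complex.I) - (1 + f n * Complex.I - (f n ^ 2 / 2 : ℝ))) p := by
      rw [mn_sub]
      congr 1
      have hp0 : (p.2 : ℂ) ≠ 0 := by exact_mod_cast (by omega : p.2 ≠ 0)
      rw [mn, mr, mr, Finset.sum_sub_distrib, Finset.sum_add_distrib, Finset.sum_const, Nat.card_Ioc,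
        nsmul_eq_mul, add_tsub_cancel_left, ← Finset.sum_mul]
      push_cast
      rw [← Finset.sum_div]
      field_simp
    rw [e1, ← mr_const_mul]
    exact mn_norm_le_mr (fun n => exp_taylor (h1 n)) p
  have hle : ‖Lc (fun n => Complex.exp (f n * Complex.I)) - (1 + ((0 : ℝ) : ℂ) * Complex.I - ((V / 2 : ℝ) : ℂ))‖
      ≤ 2 / 9 * V :=
    le_of_tendsto_of_tendsto hlim ((tendsto_Lr (pow_mem_RT hf 2)).const_mul _) hbd
  have e2 : (1 + ((0 : ℝ) : ℂ) * Complex.I - ((V / 2 : ℝ) : ℂ)) = ((1 - V / 2 : ℝ) : ℂ) := by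
    push_cast; ring
  rw [e2] at hle
  have h3 : ‖Lc (fun n => Complex.exp (f n * Complex.I))‖ ≤ 2 / 9 * V + (1 - V / 2) := by
    have h4 : ‖((1 - V / 2 : ℝ) : ℂ)‖ = 1 - V / 2 := by
      rw [Complex.norm_real, Real.norm_of_nonneg (by linarith)]
    calc ‖Lc (fun n => Complex.exp (f n * Complex.I))‖
        = ‖(Lc (fun n => Complex.exp (f n * Complex.I)) - ((1 - V / 2 : ℝ) : ℂ)) + ((1 - V / 2 : ℝ) : ℂ)‖ := by
          rw [sub_add_cancel]
      _ ≤ _ := (norm_add_le _ _).trans (add_le_add hle h4.le)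
  refine h3.trans ?_
  have h5 := Real.add_one_le_exp (-(V / 4))
  linarith

end

end Pool.Agent.Helper78.GC
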