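import Mathlib
import Pool.Agent.Helper78.GC.Main
import Pool.Agent.Helper78.GC.VarLow

/-!
# Decay of the characteristic function of the limit law
-/

open Set Filter MeasureTheory
open scoped Real ComplexConjugate Topology BoundedContinuousFunction

namespace Pool.Agent.Helper78.GC

open Pool.Agent.Helper22.GC (rho rho_nonneg TK uu gr)

set_option linter.unusedSectionVars false

noncomputable section

variable {ι : Type} [Fintype ι]

/-- Lower growth hypothesis. -/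
def LowHyp (r : ι → ℕ) (s : ι → ℝ) : Prop := ∃ c : ℝ, 0 < c ∧ ∃ K₀ : ℕ, ∀ K ≥ K₀, ∀ ξ : ι → ℝ,
  c * (K : ℝ) ^ (1 / 4 : ℝ) * ‖ξ‖ ^ 2 ≤ ∑ q ∈ sqf K, Ast r s q ξ

/-- Upper growth hypothesis. -/
def UpHyp (r : ι → ℕ) (s : ι → ℝ) : Prop := ∃ C : ℝ, 0 < C ∧ ∀ (K : ℕ) (ξ : ι → ℝ),
  ∑ q ∈ sqf K, Ast r s q ξ ≤ C * (K : ℝ) ^ (1 / 4 : ℝ) * ‖ξ‖ ^ 2

lemma sum_sqf_split {Q K : ℕ} (h : Q ≤ K) (f : ℕ → ℝ) :
    ∑ q ∈ sqf K, f q = ∑ q ∈ sqf Q, f q + ∑ q ∈ TT Q K, f q := by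
  classical
  have hd : Disjoint (sqf Q) (TT Q K) := by
    rw [Finset.disjoint_left]
    intro q hq hq'
    have h1 := (mem_sqf.mp hq).2.1
    have h2 := (mem_TT.mp hq').2.2.2
    omega
  rw [← Finset.sum_union hd]
  refine Finset.sum_congr ?_ fun _ _ => rfl
  ext q
  rw [Finset.mem_union, mem_sqf, mem_sqf, mem_TT]
  constructor
  · rintro ⟨h1, h2, h3⟩
    by_cases h : q ≤ Q
    · left; exact ⟨h1, h, h3⟩
    · right; exact ⟨h1, h2, h3, by omega⟩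
  · rintro (⟨h1, h2, h3⟩ | ⟨h1, h2, h3, _⟩)
    · exact ⟨h1, by omega, h3⟩
    · exact ⟨h1, h2, h3⟩

lemma block_low {r : ι → ℕ} {s : ι → ℝ} (hl : LowHyp r s) (hu : UpHyp r s) :
    ∃ c : ℝ, 0 < c ∧ ∃ L : ℕ, 1 ≤ L ∧ ∃ Q₁ : ℕ, ∀ Q ≥ Q₁, ∀ ξ : ι → ℝ,
      c * (Q : ℝ) ^ (1 / 4 : ℝ) * ‖ξ‖ ^ 2 ≤ ∑ q ∈ TT Q (L ^ 4 * Q), Ast r s q ξ := by
  obtain ⟨c, hc, K₀, hlow⟩ := hl
  obtain ⟨C, hC, hup⟩ := hu
  obtain ⟨L, hL⟩ := exists_nat_ge (2 * C / c)
  have hL' : 2 * C ≤ c * (L + 1 : ℕ) := by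
    rw [div_le_iff₀ hc] at hL
    push_cast
    nlinarith
  refine ⟨C, hC, L + 1, by omega, K₀, fun Q hQ ξ => ?_⟩
  have hLQ : Q ≤ (L + 1) ^ 4 * Q := Nat.le_mul_of_pos_left _ (by positivity)
  have h1 := hlow ((L + 1) ^ 4 * Q) (le_trans hQ hLQ) ξ
  rw [sum_sqf_split hLQ] at h1
  have h2 := hup Q ξ
  have h3 : (((L + 1) ^ 4 * Q : ℕ) : ℝ) ^ (1 / 4 : ℝ) = (L + 1 : ℕ) * (Q : ℝ) ^ (1 / 4 : ℝ) := by
    push_cast
    rw [Real.mul_rpow (by positivity) (by positivity), ← Real.rpow_natCast, ← Real.rpow_mul (by positivity)]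
    norm_num
  rw [h3] at h1
  have h4 : 0 ≤ (Q : ℝ) ^ (1 / 4 : ℝ) * ‖ξ‖ ^ 2 := by positivity
  have h5 := mul_le_mul_of_nonneg_right hL' h4
  nlinarith

lemma rho_Ast_lower {r : ι → ℕ} {s : ι → ℝ} {q Q' : ℕ} (hq : 1 ≤ q) (hQ : q ≤ Q') (ξ : ι → ℝ) :
    (Q' : ℝ) ^ (-(3 / 4) : ℝ) * Ast r s q ξ ≤ rho q * Ast r s q ξ := by
  by_cases h0 : rho q = 0
  · have : Ast r s q ξ = 0 := by
      rw [Ast_eq]
      refine Finset.sum_eq_zero fun h _ => ?_
      rw [h0]; simp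
    rw [this]; simp
  · refine mul_le_mul_of_nonneg_right ?_ (Ast_nonneg r s q ξ)
    have hq0 : (0 : ℝ) < q := by exact_mod_cast hq
    have hgr : 1 ≤ gr q := by
      rcases Nat.eq_zero_or_pos (gr q) with h | h
      · exfalso; apply h0; rw [rho, h]; simp
      · exact h
    have h1 : (Q' : ℝ) ^ (-(3 / 4) : ℝ) ≤ (q : ℝ) ^ (-(3 / 4) : ℝ) :=
      Real.rpow_le_rpow_of_nonpos hq0 (by exact_mod_cast hQ) (by norm_num)
    refine h1.trans ?_
    rw [rho]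
    exact le_mul_of_one_le_left (by positivity) (by exact_mod_cast hgr)

/-- Decay of the means of exponentials of linear combinations. -/
theorem norm_Lc_char {α : ℝ} (hα : 0 < α) {r : ι → ℕ} {s : ι → ℝ} (hr : ∀ i, 1 ≤ r i)
    (hl : LowHyp r s) (hu : UpHyp r s) :
    ∃ C c : ℝ, 0 < c ∧ ∀ ξ : ι → ℝ, ∃ K₂ : ℕ, ∀ K ≥ K₂,
      ‖Lc (fun n => Complex.exp (((∑ i, ξ i * wwv α r s K n i : ℝ) : ℂ) * Complex.I))‖
        ≤ C * Real.exp (-(c * ‖ξ‖)) := by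
  classical
  obtain ⟨Q₀, hb⟩ : ∃ Q₀, Bad α Q₀ := exists_bad hα
  obtain ⟨A, hA, hX⟩ := X_bound
  obtain ⟨c₁, hc₁, L, hL, Q₁, hblock⟩ := block_low hl hu
  set D : ℝ := (Fintype.card ι : ℝ) * A + 1 with hD
  have hD0 : 0 < D := by positivity
  set Q₂ : ℕ := max (max (Q₀.sup id) Q₁) 1 with hQ₂
  set B₁ : ℝ := Q₂ + 1 + (D + 1) ^ 2 with hB₁
  have hB₁0 : 0 < B₁ := by positivity
  have hL0 : (0 : ℝ) < L := by exact_mod_cast hL
  set c : ℝ := c₁ / (4 * π * L ^ 3) / √B₁ with hc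
  have hc0 : 0 < c := by
    have : 0 < √B₁ := Real.sqrt_pos.mpr hB₁0
    positivity
  -- the product formula
  have hexp : ∀ (ξ : ι → ℝ) (K : ℕ), (fun n => Complex.exp (((∑ i, ξ i * wwv α r s K n i : ℝ) : ℂ) * Complex.I))
      = fun n => ∏ q ∈ sqf K, Complex.exp (Zq α r s ξ K q n * Complex.I) := by
    intro ξ K
    funext n
    rw [← Complex.exp_sum, ← Finset.sum_mul]
    congr 2
    rw [← Complex.ofReal_sum]
    congr 1
    simp only [Zq, wwv]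
    rw [Finset.sum_comm]
    refine Finset.sum_congr rfl fun i _ => ?_
    rw [TK_decomp, Finset.mul_sum]
  have hAPq : ∀ (ξ : ι → ℝ) (K q : ℕ), AP (Th α {q}) (fun n => Complex.exp (Zq α r s ξ K q n * Complex.I)) :=
    fun ξ K q => AP_exp (Zq_mem α r s ξ K q)
  have hnorm1 : ∀ (ξ : ι → ℝ) (K q n : ℕ), ‖Complex.exp (Zq α r s ξ K q n * Complex.I)‖ = 1 :=
    fun ξ K q n => Complex.norm_exp_ofReal_mul_I _
  refine ⟨Real.exp c, c, hc0, fun ξ => ?_⟩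
  by_cases hξ : ‖ξ‖ < 1
  · refine ⟨0, fun K _ => ?_⟩
    have h1 : AP ⊤ (fun n => ∏ q ∈ sqf K, Complex.exp (Zq α r s ξ K q n * Complex.I)) :=
      AP_prod _ fun q _ => AP_mono le_top (hAPq ξ K q)
    rw [hexp]
    have h2 := norm_Lc_le h1 zero_le_one fun n => by
      rw [norm_prod]
      exact (Finset.prod_eq_one fun q _ => hnorm1 ξ K q n).le
    refine h2.trans ?_
    rw [← Real.exp_add]
    refine Real.one_le_exp ?_
    nlinarith
  · have hξ1 : 1 ≤ ‖ξ‖ := not_lt.mp hξ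
    set Q : ℕ := Q₂ + ⌈(D * ‖ξ‖) ^ (16 / 11 : ℝ)⌉₊ with hQ
    have hQQ₂ : Q₂ ≤ Q := Nat.le_add_right _ _
    have hQ1 : 1 ≤ Q := le_trans (le_max_right _ _) hQQ₂
    have hQQ₁ : Q₁ ≤ Q := le_trans (le_trans (le_max_right _ _) (le_max_left _ _)) hQQ₂
    have hQbad : ∀ q ∈ Q₀, q ≤ Q := fun q hq =>
      le_trans (le_trans (Finset.le_sup (f := id) hq) (le_trans (le_max_left _ _) (le_max_left _ _))) hQQ₂
    have hQr : (1 : ℝ) ≤ Q := by exact_mod_cast hQ1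
    have hQ0 : (0 : ℝ) < Q := by linarith
    have hQD : (D * ‖ξ‖) ^ (16 / 11 : ℝ) ≤ Q := by
      rw [hQ]
      push_cast
      have := Nat.le_ceil ((D * ‖ξ‖) ^ (16 / 11 : ℝ))
      have h2 : (0 : ℝ) ≤ Q₂ := Nat.cast_nonneg _
      linarith
    have hQup : (Q : ℝ) ≤ B₁ * ‖ξ‖ ^ 2 := by
      have h1 : (⌈(D * ‖ξ‖) ^ (16 / 11 : ℝ)⌉₊ : ℝ) ≤ (D * ‖ξ‖) ^ (16 / 11 : ℝ) + 1 :=
        (Nat.ceil_lt_add_one (by positivity)).le
      have h2 : (D * ‖ξ‖) ^ (16 / 11 : ℝ) ≤ ((D + 1) * ‖ξ‖) ^ (2 : ℝ) := by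
        calc (D * ‖ξ‖) ^ (16 / 11 : ℝ) ≤ ((D + 1) * ‖ξ‖) ^ (16 / 11 : ℝ) := by
              refine Real.rpow_le_rpow (by positivity) ?_ (by norm_num)
              nlinarith
          _ ≤ _ := by
              refine Real.rpow_le_rpow_of_exponent_le ?_ (by norm_num)
              nlinarith
      rw [Real.rpow_two, mul_pow] at h2
      have h3 : (1 : ℝ) ≤ ‖ξ‖ ^ 2 := one_le_pow₀ hξ1
      have h4 : (0 : ℝ) ≤ Q₂ + 1 := by positivity
      rw [hQ, hB₁]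
      push_cast
      nlinarith [mul_le_mul_of_nonneg_left h3 h4]
    set Q' : ℕ := L ^ 4 * Q with hQ'
    refine ⟨Q' + ∑ i, Q' * (r i) ^ 2, fun K hK => ?_⟩
    have hQ'K : Q' ≤ K := le_trans (Nat.le_add_right _ _) hK
    have hrK : ∀ i, Q' * (r i) ^ 2 ≤ K := fun i => by
      have h1 : Q' * (r i) ^ 2 ≤ ∑ i, Q' * (r i) ^ 2 :=
        Finset.single_le_sum (f := fun i => Q' * (r i) ^ 2) (fun _ _ => Nat.zero_le _) (Finset.mem_univ i)
      omega
    set T := TT Q Q' with hT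
    have hTsub : T ⊆ sqf K := by
      intro q hq
      rw [hT, mem_TT] at hq
      rw [mem_sqf]
      exact ⟨hq.1, by omega, hq.2.2.1⟩
    have hsplit : (fun n => ∏ q ∈ sqf K, Complex.exp (Zq α r s ξ K q n * Complex.I))
        = fun n => (∏ q ∈ sqf K \ T, Complex.exp (Zq α r s ξ K q n * Complex.I))
          * ∏ q ∈ T, Complex.exp (Zq α r s ξ K q n * Complex.I) := by
      funext n
      rw [Finset.prod_sdiff hTsub]
    have hT0 : ∀ q ∈ T, q ∉ Q₀ := fun q hq h => by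
      have h1 := hQbad q h
      have h2 := (mem_TT.mp hq).2.2.2
      omega
    have hTsq : ∀ q ∈ T, Squarefree q := fun q hq => (mem_TT.mp hq).2.2.1
    have hκ : AP (Th α (sqf K \ T)) (fun n => ∏ q ∈ sqf K \ T, Complex.exp (Zq α r s ξ K q n * Complex.I)) := by
      refine AP_prod _ fun q hq => AP_mono (Th_mono ?_) (hAPq ξ K q)
      intro x hx; rw [Finset.mem_singleton] at hx; subst hx; exact hq
    rw [hexp, hsplit, Lc_prod_AP hb (fun q hq => (mem_sqf.mp (Finset.mem_sdiff.mp hq).1).2.2) hκ T hTsq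
      Finset.sdiff_disjoint hT0 (fun q n => Complex.exp (Zq α r s ξ K q n * Complex.I)) (fun q _ => hAPq ξ K q),
      norm_mul, norm_prod]
    have hκ1 : ‖Lc (fun n => ∏ q ∈ sqf K \ T, Complex.exp (Zq α r s ξ K q n * Complex.I))‖ ≤ 1 :=
      norm_Lc_le hκ zero_le_one fun n => by
        rw [norm_prod]
        exact (Finset.prod_eq_one fun q _ => hnorm1 ξ K q n).le
    -- each factor
    have hfac : ∀ q ∈ T, ‖Lc (fun n => Complex.exp (Zq α r s ξ K q n * Complex.I))‖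
        ≤ Real.exp (-(Lr (fun n => Zq α r s ξ K q n ^ 2) / 4)) := by
      intro q hq
      have hq' := mem_TT.mp hq
      refine norm_Lc_exp_le (Zq_mem α r s ξ K q) (fun n => ?_) (Lr_Zq hb s hr ξ (hTsq q hq) (hT0 q hq))
      have hq0 : (0 : ℝ) < q := by exact_mod_cast hq'.1
      have h1 : |Zq α r s ξ K q n| ≤ D * ‖ξ‖ * (q : ℝ) ^ (-(11 / 16) : ℝ) := by
        calc |Zq α r s ξ K q n| ≤ ∑ i, |ξ i * X α (r i) (s i) K q n| := Finset.abs_sum_le_sum_abs _ _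
          _ ≤ ∑ _i : ι, ‖ξ‖ * (A * (q : ℝ) ^ (-(11 / 16) : ℝ)) := by
              refine Finset.sum_le_sum fun i _ => ?_
              rw [abs_mul]
              exact mul_le_mul (norm_le_pi_norm ξ i) (hX _ _ _ _ _ _ hq'.1) (abs_nonneg _) (norm_nonneg _)
          _ = (Fintype.card ι : ℝ) * A * ‖ξ‖ * (q : ℝ) ^ (-(11 / 16) : ℝ) := by
              rw [Finset.sum_const, Finset.card_univ, nsmul_eq_mul]; ring
          _ ≤ D * ‖ξ‖ * (q : ℝ) ^ (-(11 / 16) : ℝ) := by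
              refine mul_le_mul_of_nonneg_right (mul_le_mul_of_nonneg_right ?_ (norm_nonneg _)) (by positivity)
              rw [hD]; linarith
      refine h1.trans ?_
      have h2 : D * ‖ξ‖ ≤ (q : ℝ) ^ (11 / 16 : ℝ) := by
        have h3 : (D * ‖ξ‖) ^ (16 / 11 : ℝ) ≤ q := hQD.trans (by exact_mod_cast hq'.2.2.2.le)
        have h4 := Real.rpow_le_rpow (by positivity) h3 (by norm_num : (0 : ℝ) ≤ 11 / 16)
        rw [← Real.rpow_mul (by positivity)] at h4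
        norm_num at h4
        exact h4
      rw [Real.rpow_neg hq0.le, ← div_eq_mul_inv, div_le_one (by positivity)]
      exact h2
    have hprod : ∏ q ∈ T, ‖Lc (fun n => Complex.exp (Zq α r s ξ K q n * Complex.I))‖
        ≤ Real.exp (-(c * ‖ξ‖)) := by
      refine (Finset.prod_le_prod (fun q _ => norm_nonneg _) hfac).trans ?_
      rw [← Real.exp_sum]
      refine Real.exp_le_exp.mpr ?_
      rw [Finset.sum_neg_distrib, neg_le_neg_iff, ← Finset.sum_div]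
      have h1 : ∑ q ∈ T, (Q' : ℝ) ^ (-(3 / 4) : ℝ) * Ast r s q ξ
          ≤ π * ∑ q ∈ T, Lr (fun n => Zq α r s ξ K q n ^ 2) := by
        rw [Finset.mul_sum]
        refine Finset.sum_le_sum fun q hq => ?_
        have hq' := mem_TT.mp hq
        have h2 := var_lower hb s hr ξ (K := K) (hTsq q hq) (hT0 q hq)
          (fun i => (Nat.mul_le_mul_right _ hq'.2.1).trans (hrK i))
        have h3 := rho_Ast_lower (r := r) (s := s) hq'.1 hq'.2.1 ξ
        refine h3.trans ?_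
        calc rho q * Ast r s q ξ = π * (rho q / π * Ast r s q ξ) := by
              have := Real.pi_ne_zero
              field_simp
          _ ≤ _ := mul_le_mul_of_nonneg_left h2 Real.pi_pos.le
      rw [← Finset.mul_sum] at h1
      have h2 := hblock Q hQQ₁ ξ
      have h3 : (Q' : ℝ) ^ (-(3 / 4) : ℝ) = (Q : ℝ) ^ (-(3 / 4) : ℝ) / L ^ 3 := by
        have e : ((L : ℝ) ^ 4) ^ (-(3 / 4) : ℝ) = ((L : ℝ) ^ 3)⁻¹ := by
          rw [← Real.rpow_natCast (L : ℝ) 4, ← Real.rpow_mul hL0.le,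
            show (((4 : ℕ) : ℝ) * (-(3 / 4))) = -((3 : ℕ) : ℝ) by norm_num, Real.rpow_neg hL0.le,
            Real.rpow_natCast]
        rw [hQ']
        push_cast
        rw [Real.mul_rpow (by positivity) hQ0.le, e]
        ring
      have h4 : (Q' : ℝ) ^ (-(3 / 4) : ℝ) * (c₁ * (Q : ℝ) ^ (1 / 4 : ℝ) * ‖ξ‖ ^ 2)
          ≤ π * ∑ q ∈ T, Lr (fun n => Zq α r s ξ K q n ^ 2) :=
        (mul_le_mul_of_nonneg_left h2 (by positivity)).trans h1
      have h5 : (Q' : ℝ) ^ (-(3 / 4) : ℝ) * (c₁ * (Q : ℝ) ^ (1 / 4 : ℝ) * ‖ξ‖ ^ 2)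
          = c₁ / L ^ 3 * (‖ξ‖ ^ 2 / √Q) := by
        rw [h3]
        have e1 : (Q : ℝ) ^ (-(3 / 4) : ℝ) * (Q : ℝ) ^ (1 / 4 : ℝ) = 1 / √Q := by
          rw [← Real.rpow_add hQ0, Real.sqrt_eq_rpow,
            show (-(3 / 4) + 1 / 4 : ℝ) = -(1 / 2) by norm_num, Real.rpow_neg hQ0.le]
          exact (one_div _).symm
        calc (Q : ℝ) ^ (-(3 / 4) : ℝ) / L ^ 3 * (c₁ * (Q : ℝ) ^ (1 / 4 : ℝ) * ‖ξ‖ ^ 2)
            = c₁ / L ^ 3 * (‖ξ‖ ^ 2 * ((Q : ℝ) ^ (-(3 / 4) : ℝ) * (Q : ℝ) ^ (1 / 4 : ℝ))) := by ring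
          _ = _ := by rw [e1]; ring
      have h6 : ‖ξ‖ / √B₁ ≤ ‖ξ‖ ^ 2 / √Q := by
        have h7 : √(Q : ℝ) ≤ √B₁ * ‖ξ‖ := by
          rw [← Real.sqrt_sq (norm_nonneg ξ), ← Real.sqrt_mul hB₁0.le]
          exact Real.sqrt_le_sqrt hQup
        rw [div_le_div_iff₀ (Real.sqrt_pos.mpr hB₁0) (Real.sqrt_pos.mpr hQ0)]
        calc ‖ξ‖ * √(Q : ℝ) ≤ ‖ξ‖ * (√B₁ * ‖ξ‖) := mul_le_mul_of_nonneg_left h7 (norm_nonneg _)
          _ = ‖ξ‖ ^ 2 * √B₁ := by ring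
      rw [h5] at h4
      have h8 : c₁ / L ^ 3 * (‖ξ‖ / √B₁) ≤ π * ∑ q ∈ T, Lr (fun n => Zq α r s ξ K q n ^ 2) :=
        (mul_le_mul_of_nonneg_left h6 (by positivity)).trans h4
      have h9 : c * ‖ξ‖ = (c₁ / L ^ 3 * (‖ξ‖ / √B₁)) / (4 * π) := by
        rw [hc]
        have := Real.pi_ne_zero
        field_simp
      rw [h9, div_le_div_iff₀ (by positivity) (by norm_num)]
      linarith
    calc _ ≤ 1 * Real.exp (-(c * ‖ξ‖)) :=
          mul_le_mul hκ1 hprod (Finset.prod_nonneg fun q _ => norm_nonneg _) zero_le_one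
      _ ≤ Real.exp c * Real.exp (-(c * ‖ξ‖)) :=
          mul_le_mul_of_nonneg_right (Real.one_le_exp hc0.le) (Real.exp_pos _).le

/-- Decay of the characteristic function of the limit law. -/
theorem char_decay {α : ℝ} (hα : 0 < α) {r : ι → ℕ} {s : ι → ℝ} (hr : ∀ i, 1 ≤ r i)
    (hl : LowHyp r s) (hu : UpHyp r s) {μ : ProbabilityMeasure (ι → ℝ)} {ε : ℝ} (hε : 0 < ε)
    (hε' : ε ≤ 1 / 2) (hμ : ∀ φ : (ι → ℝ) →ᵇ ℝ,
      Tendsto (mr (fun n => φ (vv α r s n))) (Seg ε) (𝓝 (∫ x, φ x ∂(μ : Measure (ι → ℝ))))) :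
    ∃ C c : ℝ, 0 < c ∧ ∀ ξ : ι → ℝ,
      ‖∫ x : ι → ℝ, Complex.exp (((∑ i, ξ i * x i : ℝ) : ℂ) * Complex.I) ∂(μ : Measure (ι → ℝ))‖
        ≤ C * Real.exp (-(c * ‖ξ‖)) := by
  classical
  obtain ⟨C, c, hc, h⟩ := norm_Lc_char hα hr hl hu
  obtain ⟨C', hC', happ⟩ := seg_approx_all hα s hr hε
  have hne := Seg_neBot hε'
  refine ⟨C, c, hc, fun ξ => ?_⟩
  obtain ⟨K₂, hK₂⟩ := h ξ
  -- the mean converges to the integral
  set φc : (ι → ℝ) →ᵇ ℝ := BoundedContinuousFunction.ofNormedAddCommGroup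
    (fun x => Real.cos (∑ i, ξ i * x i)) (by fun_prop) 1 (fun x => by
      rw [Real.norm_eq_abs]; exact Real.abs_cos_le_one _) with hφc
  set φs : (ι → ℝ) →ᵇ ℝ := BoundedContinuousFunction.ofNormedAddCommGroup
    (fun x => Real.sin (∑ i, ξ i * x i)) (by fun_prop) 1 (fun x => by
      rw [Real.norm_eq_abs]; exact Real.abs_sin_le_one _) with hφs
  have hmn : ∀ p, mn (fun n => Complex.exp (((∑ i, ξ i * vv α r s n i : ℝ) : ℂ) * Complex.I)) p
      = ((mr (fun n => φc (vv α r s n)) p : ℝ) : ℂ) + ((mr (fun n => φs (vv α r s n)) p : ℝ) : ℂ) * Complex.I := by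
    intro p
    rw [← mn_ofReal, ← mn_ofReal, mn, mn, mn, mul_assoc, Finset.sum_mul, ← mul_add, ← Finset.sum_add_distrib]
    congr 1
    refine Finset.sum_congr rfl fun n _ => ?_
    rw [Complex.exp_mul_I, ← Complex.ofReal_cos, ← Complex.ofReal_sin]
    rfl
  have hint : ∫ x : ι → ℝ, Complex.exp (((∑ i, ξ i * x i : ℝ) : ℂ) * Complex.I) ∂(μ : Measure (ι → ℝ))
      = ((∫ x, φc x ∂(μ : Measure (ι → ℝ)) : ℝ) : ℂ) + ((∫ x, φs x ∂(μ : Measure (ι → ℝ)) : ℝ) : ℂ) * Complex.I := by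
    rw [← integral_complex_ofReal, ← integral_complex_ofReal, ← integral_mul_const, ← integral_add]
    · refine integral_congr_ae (Eventually.of_forall fun x => ?_)
      simp only
      rw [Complex.exp_mul_I, ← Complex.ofReal_cos, ← Complex.ofReal_sin]
      rfl
    · exact (φc.integrable _).ofReal
    · exact ((φs.integrable _).ofReal).mul_const _
  have hlim : Tendsto (mn (fun n => Complex.exp (((∑ i, ξ i * vv α r s n i : ℝ) : ℂ) * Complex.I))) (Seg ε)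
      (𝓝 (∫ x : ι → ℝ, Complex.exp (((∑ i, ξ i * x i : ℝ) : ℂ) * Complex.I) ∂(μ : Measure (ι → ℝ)))) := by
    rw [hint]
    refine Tendsto.congr (fun p => (hmn p).symm) ?_
    exact ((Complex.continuous_ofReal.tendsto _).comp (hμ φc)).add
      (((Complex.continuous_ofReal.tendsto _).comp (hμ φs)).mul_const _)
  -- comparison with the approximations
  have hcomp : ∀ K : ℕ, 1 ≤ K → K₂ ≤ K →
      ‖∫ x : ι → ℝ, Complex.exp (((∑ i, ξ i * x i : ℝ) : ℂ) * Complex.I) ∂(μ : Measure (ι → ℝ))‖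
        ≤ C * Real.exp (-(c * ‖ξ‖)) + ‖ξ‖ * (Fintype.card ι * √(C' * (K : ℝ) ^ (-(1 / 8) : ℝ))) := by
    intro K hK1 hK
    have hAP : AP ⊤ (fun n => Complex.exp (((∑ i, ξ i * wwv α r s K n i : ℝ) : ℂ) * Complex.I)) := by
      refine AP_exp (f := fun n => ∑ i, ξ i * wwv α r s K n i) ?_
      exact sum_mem_RT _ fun i _ => const_mul_mem_RT _ (wwv_mem α r s K i)
    have hT := (tendsto_AP hAP).mono_left (Seg_le_Gf hε)
    have hdiff := (hlim.sub hT).norm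
    have hbd : ∀ᶠ p in Seg ε, ‖mn (fun n => Complex.exp (((∑ i, ξ i * vv α r s n i : ℝ) : ℂ) * Complex.I)) p
        - mn (fun n => Complex.exp (((∑ i, ξ i * wwv α r s K n i : ℝ) : ℂ) * Complex.I)) p‖
        ≤ ‖ξ‖ * (Fintype.card ι * √(C' * (K : ℝ) ^ (-(1 / 8) : ℝ))) := by
      filter_upwards [happ K hK1, Seg_le_Gf hε eventually_one_le] with p hp hp1
      rw [← mn_sub]
      have hpt : ∀ n, ‖Complex.exp (((∑ i, ξ i * vv α r s n i : ℝ) : ℂ) * Complex.I)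
          - Complex.exp (((∑ i, ξ i * wwv α r s K n i : ℝ) : ℂ) * Complex.I)‖
          ≤ ∑ i, ‖ξ‖ * |vv α r s n i - wwv α r s K n i| := by
        intro n
        have h1 : ‖Complex.exp (((∑ i, ξ i * vv α r s n i : ℝ) : ℂ) * Complex.I)
          - Complex.exp (((∑ i, ξ i * wwv α r s K n i : ℝ) : ℂ) * Complex.I)‖
          ≤ |∑ i, ξ i * vv α r s n i - ∑ i, ξ i * wwv α r s K n i| := by
          set a := ∑ i, ξ i * vv α r s n i
          set b := ∑ i, ξ i * wwv α r s K n i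
          have e : Complex.exp ((a : ℂ) * Complex.I) - Complex.exp ((b : ℂ) * Complex.I)
              = Complex.exp ((b : ℂ) * Complex.I) * (Complex.exp (((a - b : ℝ) : ℂ) * Complex.I) - 1) := by
            rw [mul_sub, ← Complex.exp_add, mul_one]
            congr 2
            push_cast; ring
          rw [e, norm_mul, Complex.norm_exp_ofReal_mul_I, one_mul, mul_comm (((a - b : ℝ) : ℂ))]
          exact Real.norm_exp_I_mul_ofReal_sub_one_le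
        refine h1.trans ?_
        rw [← Finset.sum_sub_distrib]
        refine (Finset.abs_sum_le_sum_abs _ _).trans (Finset.sum_le_sum fun i _ => ?_)
        rw [← mul_sub, abs_mul]
        exact mul_le_mul_of_nonneg_right (norm_le_pi_norm ξ i) (abs_nonneg _)
      refine (mn_norm_le_mr hpt p).trans ?_
      rw [mr_sum]
      have h2 : ∀ i ∈ (Finset.univ : Finset ι), mr (fun n => ‖ξ‖ * |vv α r s n i - wwv α r s K n i|) p
          ≤ ‖ξ‖ * √(C' * (K : ℝ) ^ (-(1 / 8) : ℝ)) := by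
        intro i _
        rw [mr_const_mul]
        refine mul_le_mul_of_nonneg_left ?_ (norm_nonneg _)
        exact (mr_abs_le_sqrt _ hp1).trans (Real.sqrt_le_sqrt (hp i))
      refine (Finset.sum_le_sum h2).trans (le_of_eq ?_)
      rw [Finset.sum_const, Finset.card_univ, nsmul_eq_mul]
      ring
    have h3 := le_of_tendsto hdiff hbd
    have h4 := hK₂ K hK
    calc ‖∫ x : ι → ℝ, Complex.exp (((∑ i, ξ i * x i : ℝ) : ℂ) * Complex.I) ∂(μ : Measure (ι → ℝ))‖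
        = ‖(∫ x : ι → ℝ, Complex.exp (((∑ i, ξ i * x i : ℝ) : ℂ) * Complex.I) ∂(μ : Measure (ι → ℝ))
          - Lc (fun n => Complex.exp (((∑ i, ξ i * wwv α r s K n i : ℝ) : ℂ) * Complex.I)))
          + Lc (fun n => Complex.exp (((∑ i, ξ i * wwv α r s K n i : ℝ) : ℂ) * Complex.I))‖ := by
          rw [sub_add_cancel]
      _ ≤ _ := norm_add_le _ _
      _ ≤ _ := by linarith
  have hlim2 : Tendsto (fun K : ℕ => C * Real.exp (-(c * ‖ξ‖))
      + ‖ξ‖ * (Fintype.card ι * √(C' * (K : ℝ) ^ (-(1 / 8) : ℝ)))) atTop (𝓝 (C * Real.exp (-(c * ‖ξ‖)))) := by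
    have h1 := (Real.continuous_sqrt.tendsto 0).comp (tendsto_rate C')
    rw [Real.sqrt_zero] at h1
    have h2 := ((h1.const_mul (Fintype.card ι : ℝ)).const_mul ‖ξ‖).const_add (C * Real.exp (-(c * ‖ξ‖)))
    simp only [mul_zero, add_zero] at h2
    exact h2
  refine ge_of_tendsto hlim2 ?_
  filter_upwards [eventually_ge_atTop 1, eventually_ge_atTop K₂] with K h1 h2
  exact hcomp K h1 h2

end

end Pool.Agent.Helper78.GC
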