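import Mathlib
import Pool.Agent.Helper59.GC.Ports
import Pool.Agent.Helper78.GC.CharBound

/-!
# The joint limit law: assembly
-/

open Set Filter MeasureTheory
open scoped Real ComplexConjugate Topology BoundedContinuousFunction

namespace Pool.Agent.Helper78.GC

open Pool.Agent.Helper22.GC (rho rho_nonneg TK uu gr)

set_option linter.unusedSectionVars false

noncomputable section

variable {ι : Type} [Fintype ι]

/-- The smooth density hypothesis. -/
def DensHyp (ι : Type) [Fintype ι] : Prop := ∀ (μ : ProbabilityMeasure (ι → ℝ)) (C c : ℝ), 0 < c →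
  (∀ ξ : ι → ℝ, ‖∫ x : ι → ℝ, Complex.exp (((∑ i, ξ i * x i : ℝ) : ℂ) * Complex.I) ∂(μ : Measure (ι → ℝ))‖
    ≤ C * Real.exp (-(c * ‖ξ‖))) →
  ∃ f : (ι → ℝ) → ℝ, ContDiff ℝ (⊤ : ℕ∞) f ∧ (∀ x, 0 ≤ f x) ∧
    (μ : Measure (ι → ℝ)) = volume.withDensity (fun x => ENNReal.ofReal (f x))

theorem joint_limit (hdens : DensHyp ι) {α : ℝ} (hα : 0 < α) {r : ι → ℕ} {s : ι → ℝ} (hr : ∀ i, 1 ≤ r i)
    (hrs : ∀ i k, r i = r k → s i = s k → i = k) (hl : LowHyp r s) (hu : UpHyp r s) :
    ∃ f : (ι → ℝ) → ℝ, ContDiff ℝ (⊤ : ℕ∞) f ∧ (∀ x, 0 ≤ f x) ∧ ∫ x, f x = 1 ∧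
      (∀ U : Set (ι → ℝ), IsOpen U → U.Nonempty → 0 < ∫ x in U, f x) ∧
      ∀ J : Set (ι → ℝ), MeasurableSet J → volume (frontier J) = 0 → ∀ ε : ℝ, 0 < ε →
        Tendsto (mr (fun n => @ite _ (vv α r s n ∈ J) (Classical.dec _) 1 0)) (Seg ε)
          (𝓝 (∫ x in J, f x)) := by
  classical
  obtain ⟨μ, hμ⟩ := limit_exists hα s hr
  obtain ⟨C, c, hc, hdec⟩ := char_decay hα hr hl hu (by norm_num : (0 : ℝ) < 1 / 2) le_rfl
    (hμ (1 / 2) (by norm_num))
  obtain ⟨f, hf, hf0, hμf⟩ := hdens μ C c hc hdec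
  have hcont : Continuous f := hf.continuous
  have hmeas : Measurable f := hcont.measurable
  have hreal : ∀ J : Set (ι → ℝ), MeasurableSet J → (μ : Measure (ι → ℝ)).real J = ∫ x in J, f x := by
    intro J hJ
    rw [measureReal_def, hμf, withDensity_apply _ hJ, integral_eq_lintegral_of_nonneg_ae
      (Eventually.of_forall hf0) hmeas.aestronglyMeasurable]
  have hone : ∫ x, f x = 1 := by
    have := hreal univ MeasurableSet.univ
    rw [Measure.restrict_univ] at this
    rw [← this]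
    simp
  have hac : (μ : Measure (ι → ℝ)) ≪ volume := by
    rw [hμf]; exact withDensity_absolutelyContinuous _ _
  refine ⟨f, hf, hf0, hone, ?_, ?_⟩
  · intro U hU hne
    rw [← hreal U hU.measurableSet]
    have hNB := Seg_neBot (le_refl (1 / 2 : ℝ))
    have h1 := Pool.Agent.Helper59.GC.T6_pos (F := Seg (1 / 2)) (hμ (1 / 2) (by norm_num))
      (fun y δ hδ => by
        obtain ⟨c, hc, h⟩ := pos_exists hα hr hrs (by norm_num : (0 : ℝ) < 1 / 2) y hδ
        refine ⟨c, hc, ?_⟩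
        filter_upwards [h] with p hp
        refine hp.trans (le_of_eq ?_)
        congr 1
        funext n
        congr) hU hne
    exact ENNReal.toReal_pos h1.ne' (measure_ne_top _ _)
  · intro J hJ h0 ε hε
    rw [← hreal J hJ]
    have h1 := Pool.Agent.Helper59.GC.T6_port (Seg_le_Gf hε) (hμ ε hε) hJ (hac h0)
    refine h1.congr fun p => ?_
    congr 1

end

end Pool.Agent.Helper78.GC
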